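import Pool.Agent.Work.MP_494ea5_gt.Defs

/-!
# The Hessian as a bilinear form; orthonormal bases
-/

open Set Filter Topology Metric
open scoped ContDiff InnerProductSpace

namespace Pool.Agent.MCFM

/-- the spatial Hessian as a bilinear map -/
noncomputable def hessL (φ : E × ℝ → ℝ) (X : E × ℝ) : E →ₗ[ℝ] E →ₗ[ℝ] ℝ :=
  LinearMap.mk₂ ℝ (hess φ X)
    (fun v w z => by
      have : ((v + w, (0 : ℝ)) : E × ℝ) = (v, 0) + (w, 0) := by simp
      simp only [hess, this, map_add]; rfl)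
    (fun c v w => by
      have : ((c • v, (0 : ℝ)) : E × ℝ) = c • (v, (0 : ℝ)) := by simp
      simp only [hess, this, map_smul]; rfl)
    (fun v w z => by
      have : ((w + z, (0 : ℝ)) : E × ℝ) = (w, 0) + (z, 0) := by simp
      simp only [hess, this, map_add])
    (fun c v w => by
      have : ((c • w, (0 : ℝ)) : E × ℝ) = c • (w, (0 : ℝ)) := by simp
      simp only [hess, this, map_smul])

theorem hessL_apply (φ : E × ℝ → ℝ) (X : E × ℝ) (v w : E) : hessL φ X v w = hess φ X v w := rfl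

theorem hess_symm {φ : E × ℝ → ℝ} {X : E × ℝ} (h : ContDiffAt ℝ 2 φ X) (v w : E) :
    hess φ X v w = hess φ X w v :=
  (h.isSymmSndFDerivAt (by simp)) (v, 0) (w, 0)

/-- the spatial derivative as a linear map -/
noncomputable def dxL (φ : E × ℝ → ℝ) (X : E × ℝ) : E →ₗ[ℝ] ℝ :=
  (fderiv ℝ φ X).toLinearMap ∘ₗ LinearMap.inl ℝ E ℝ

theorem dxL_apply (φ : E × ℝ → ℝ) (X : E × ℝ) (v : E) : dxL φ X v = dx φ v X := rfl

/-- the standard basis as an orthonormal basis -/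
noncomputable def eb : OrthonormalBasis (Fin 3) ℝ E := EuclideanSpace.basisFun (Fin 3) ℝ

theorem eb_apply (i : Fin 3) : eb i = ee i := by
  simp [eb, ee, EuclideanSpace.basisFun_apply]

theorem inner_grad (φ : E × ℝ → ℝ) (X : E × ℝ) (v : E) : ⟪grad φ X, v⟫_ℝ = dx φ v X := by
  have h : v = ∑ i, ⟪eb i, v⟫_ℝ • eb i := (eb.sum_repr' v).symm
  conv_rhs => rw [← dxL_apply, h, map_sum]
  unfold grad
  rw [sum_inner]
  refine Finset.sum_congr rfl fun i _ => ?_
  rw [inner_smul_left, map_smul, dxL_apply, eb_apply, smul_eq_mul]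
  simp only [conj_trivial]
  ring

theorem trace_basis (B : E →ₗ[ℝ] E →ₗ[ℝ] ℝ) (b c : OrthonormalBasis (Fin 3) ℝ E) :
    ∑ i, B (b i) (b i) = ∑ i, B (c i) (c i) := by
  have h1 : ∀ i, B (b i) (b i) = ∑ k, ⟪c k, b i⟫_ℝ * B (c k) (b i) := by
    intro i
    have e : B (b i) (b i) = B (∑ k, ⟪c k, b i⟫_ℝ • c k) (b i) := by rw [c.sum_repr' (b i)]
    rw [e, map_sum, LinearMap.sum_apply]
    refine Finset.sum_congr rfl fun k _ => ?_
    rw [map_smul, LinearMap.smul_apply, smul_eq_mul]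
  have h2 : ∀ k, B (c k) (c k) = ∑ i, ⟪b i, c k⟫_ℝ * B (c k) (b i) := by
    intro k
    have e : B (c k) (c k) = B (c k) (∑ i, ⟪b i, c k⟫_ℝ • b i) := by rw [b.sum_repr' (c k)]
    rw [e, map_sum]
    refine Finset.sum_congr rfl fun i _ => ?_
    rw [map_smul, smul_eq_mul]
  rw [Finset.sum_congr rfl fun i _ => h1 i, Finset.sum_comm, Finset.sum_congr rfl fun k _ => h2 k]
  refine Finset.sum_congr rfl fun k _ => Finset.sum_congr rfl fun i _ => ?_
  rw [real_inner_comm]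

theorem parseval (L : E →ₗ[ℝ] ℝ) (b c : OrthonormalBasis (Fin 3) ℝ E) :
    ∑ i, L (b i) ^ 2 = ∑ i, L (c i) ^ 2 := by
  have key : ∀ d : OrthonormalBasis (Fin 3) ℝ E, ∃ w : E, (∀ v, L v = ⟪w, v⟫_ℝ) ∧
      ∑ i, L (d i) ^ 2 = ‖w‖ ^ 2 := by
    intro d
    refine ⟨(InnerProductSpace.toDual ℝ E).symm (LinearMap.toContinuousLinearMap L),
      fun v => by simp, ?_⟩
    rw [← d.sum_sq_norm_inner_right]
    refine Finset.sum_congr rfl fun i _ => ?_
    rw [real_inner_comm, InnerProductSpace.toDual_symm_apply, Real.norm_eq_abs, sq_abs]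
    rfl
  obtain ⟨w, h1, h2⟩ := key b
  obtain ⟨w', h1', h2'⟩ := key c
  have : w = w' := by
    refine ext_inner_right ℝ fun v => ?_
    rw [← h1, h1']
  rw [h2, h2', this]

theorem hs_basis (B : E →ₗ[ℝ] E →ₗ[ℝ] ℝ) (b c : OrthonormalBasis (Fin 3) ℝ E) :
    ∑ i, ∑ j, B (b i) (b j) ^ 2 = ∑ i, ∑ j, B (c i) (c j) ^ 2 := by
  have h1 : ∀ i, ∑ j, B (b i) (b j) ^ 2 = ∑ j, B (b i) (c j) ^ 2 := fun i => parseval _ b c
  rw [Finset.sum_congr rfl fun i _ => h1 i, Finset.sum_comm]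
  rw [Finset.sum_comm (f := fun i j => B (c i) (c j) ^ 2)]
  exact Finset.sum_congr rfl fun j _ => parseval (B.flip (c j)) b c

end Pool.Agent.MCFM
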