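import Mathlib

/-!
# Calculus of first and second order jets of functions of `(y₁, y₂, t)`
-/

open Set Filter Topology
open scoped ContDiff

namespace Pool.Agent.MCFM

/-- the space of the variables `(y₁, y₂, t)` -/
abbrev R3 : Type := ℝ × ℝ × ℝ

/-- directional derivative -/
noncomputable def D (v : R3) (f : R3 → ℝ) (Y : R3) : ℝ := fderiv ℝ f Y v

/-- first direction -/
def v1 : R3 := (1, 0, 0)
/-- second direction -/
def v2 : R3 := (0, 1, 0)
/-- time direction -/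
def v3 : R3 := (0, 0, 1)

theorem D_contDiffAt {f : R3 → ℝ} {Y : R3} {m n : ℕ∞ω} (hf : ContDiffAt ℝ n f Y)
    (hmn : m + 1 ≤ n) (v : R3) : ContDiffAt ℝ m (D v f) Y :=
  (hf.fderiv_right hmn).clm_apply contDiffAt_const

theorem D_congr {f g : R3 → ℝ} {Y : R3} (h : f =ᶠ[𝓝 Y] g) (v : R3) : D v f Y = D v g Y := by
  unfold D
  rw [h.fderiv_eq]

theorem D_eventuallyEq {f g : R3 → ℝ} {Y : R3} (h : f =ᶠ[𝓝 Y] g) (v : R3) :
    D v f =ᶠ[𝓝 Y] D v g :=
  h.eventuallyEq_nhds.mono fun _ hZ => D_congr hZ v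

theorem D_add {f g : R3 → ℝ} {Y : R3} (hf : DifferentiableAt ℝ f Y)
    (hg : DifferentiableAt ℝ g Y) (v : R3) :
    D v (fun Z => f Z + g Z) Y = D v f Y + D v g Y := by
  unfold D
  rw [fderiv_fun_add hf hg]
  rfl

theorem D_mul {f g : R3 → ℝ} {Y : R3} (hf : DifferentiableAt ℝ f Y)
    (hg : DifferentiableAt ℝ g Y) (v : R3) :
    D v (fun Z => f Z * g Z) Y = f Y * D v g Y + g Y * D v f Y := by
  unfold D
  rw [fderiv_fun_mul hf hg]
  simp [smul_eq_mul]

theorem D_const (c : ℝ) (v : R3) (Y : R3) : D v (fun _ => c) Y = 0 := by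
  unfold D
  simp

theorem D_comm {f : R3 → ℝ} {Y : R3} (hf : ContDiffAt ℝ 2 f Y) (v w : R3) :
    D v (D w f) Y = D w (D v f) Y := by
  have hd : DifferentiableAt ℝ (fderiv ℝ f) Y :=
    (hf.fderiv_right (m := 1) (by norm_num)).differentiableAt (by norm_num)
  have key : ∀ a b : R3, D a (D b f) Y = fderiv ℝ (fderiv ℝ f) Y a b := by
    intro a b
    unfold D
    rw [fderiv_clm_apply hd (differentiableAt_const b)]
    simp
  have hs : IsSymmSndFDerivAt ℝ f Y := hf.isSymmSndFDerivAt (by simp)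
  rw [key, key]
  exact hs v w

theorem ev_contDiffAt {f : R3 → ℝ} {Y : R3} {n : ℕ} (hf : ContDiffAt ℝ n f Y) :
    ∀ᶠ Z in 𝓝 Y, ContDiffAt ℝ n f Z := hf.eventually (by simp)

theorem D_comm_ev {f : R3 → ℝ} {Y : R3} (hf : ContDiffAt ℝ 2 f Y) (v w : R3) :
    D v (D w f) =ᶠ[𝓝 Y] D w (D v f) :=
  (ev_contDiffAt (n := 2) hf).mono fun _ hZ => D_comm hZ v w

/-- The parabolic jet: first derivatives `a`, `b` and heat operator `l`. -/
structure PJ (f : R3 → ℝ) (Y : R3) (a b l : ℝ) : Prop where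
  cd : ContDiffAt ℝ 2 f Y
  h1 : D v1 f Y = a
  h2 : D v2 f Y = b
  hl : D v3 f Y - D v1 (D v1 f) Y - D v2 (D v2 f) Y = l

namespace PJ

variable {f g : R3 → ℝ} {Y : R3} {a b l a' b' l' : ℝ}

theorem da (h : PJ f Y a b l) : DifferentiableAt ℝ f Y := h.cd.differentiableAt (by norm_num)

theorem dd (h : PJ f Y a b l) (v : R3) : DifferentiableAt ℝ (D v f) Y :=
  (D_contDiffAt h.cd (m := 1) (by norm_num) v).differentiableAt (by norm_num)

theorem ev (h : PJ f Y a b l) : ∀ᶠ Z in 𝓝 Y, DifferentiableAt ℝ f Z :=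
  (ev_contDiffAt (n := 2) h.cd).mono fun _ hZ => hZ.differentiableAt (by norm_num)

theorem const (c : ℝ) : PJ (fun _ => c) Y 0 0 0 := by
  refine ⟨contDiffAt_const, D_const _ _ _, D_const _ _ _, ?_⟩
  have h : ∀ v : R3, D v (fun _ : R3 => c) = fun _ => 0 := fun v => funext fun Z => D_const c v Z
  rw [h, h, h, D_const, D_const]
  ring

theorem congr (h : PJ f Y a b l) (e : f =ᶠ[𝓝 Y] g) : PJ g Y a b l := by
  refine ⟨h.cd.congr_of_eventuallyEq e.symm, ?_, ?_, ?_⟩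
  · rw [← D_congr e, h.h1]
  · rw [← D_congr e, h.h2]
  · rw [← D_congr e, ← D_congr (D_eventuallyEq e v1), ← D_congr (D_eventuallyEq e v2), h.hl]

theorem of_eq (h : PJ f Y a b l) (ha : a = a') (hb : b = b') (hl : l = l') : PJ f Y a' b' l' := by
  subst ha hb hl
  exact h

theorem unique (h : PJ f Y a b l) (h' : PJ f Y a' b' l') : a = a' ∧ b = b' ∧ l = l' :=
  ⟨h.h1.symm.trans h'.h1, h.h2.symm.trans h'.h2, h.hl.symm.trans h'.hl⟩

theorem add (h : PJ f Y a b l) (h' : PJ g Y a' b' l') :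
    PJ (fun Z => f Z + g Z) Y (a + a') (b + b') (l + l') := by
  have hD : ∀ v : R3, D v (fun Z => f Z + g Z) =ᶠ[𝓝 Y] fun Z => D v f Z + D v g Z := fun v => by
    filter_upwards [h.ev, h'.ev] with Z h1 h2 using D_add h1 h2 v
  refine ⟨h.cd.add h'.cd, ?_, ?_, ?_⟩
  · rw [D_add h.da h'.da, h.h1, h'.h1]
  · rw [D_add h.da h'.da, h.h2, h'.h2]
  · rw [D_congr (hD v1), D_congr (hD v2), D_add h.da h'.da, D_add (h.dd v1) (h'.dd v1),
      D_add (h.dd v2) (h'.dd v2), ← h.hl, ← h'.hl]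
    ring

theorem mul (h : PJ f Y a b l) (h' : PJ g Y a' b' l') :
    PJ (fun Z => f Z * g Z) Y (f Y * a' + g Y * a) (f Y * b' + g Y * b)
      (f Y * l' + g Y * l - 2 * (a * a' + b * b')) := by
  have hD : ∀ v : R3, D v (fun Z => f Z * g Z) =ᶠ[𝓝 Y]
      fun Z => f Z * D v g Z + g Z * D v f Z := fun v => by
    filter_upwards [h.ev, h'.ev] with Z h1 h2 using D_mul h1 h2 v
  refine ⟨h.cd.mul h'.cd, ?_, ?_, ?_⟩
  · rw [D_mul h.da h'.da, h.h1, h'.h1]
  · rw [D_mul h.da h'.da, h.h2, h'.h2]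
  · have e : ∀ v : R3, D v (fun Z => f Z * D v g Z + g Z * D v f Z) Y =
        f Y * D v (D v g) Y + 2 * (D v f Y * D v g Y) + g Y * D v (D v f) Y := by
      intro v
      rw [D_add (h.da.fun_mul (h'.dd v)) (h'.da.fun_mul (h.dd v)), D_mul h.da (h'.dd v),
        D_mul h'.da (h.dd v)]
      ring
    rw [D_congr (hD v1), D_congr (hD v2), D_mul h.da h'.da, e, e, ← h.hl, ← h'.hl,
      h.h1, h.h2, h'.h1, h'.h2]
    ring

theorem const_mul (c : ℝ) (h : PJ f Y a b l) :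
    PJ (fun Z => c * f Z) Y (c * a) (c * b) (c * l) :=
  ((PJ.const c).mul h).of_eq (by ring) (by ring) (by ring)

theorem neg (h : PJ f Y a b l) : PJ (fun Z => -f Z) Y (-a) (-b) (-l) :=
  ((h.const_mul (-1)).congr (Eventually.of_forall fun Z => by ring)).of_eq (by ring) (by ring)
    (by ring)

theorem sub (h : PJ f Y a b l) (h' : PJ g Y a' b' l') :
    PJ (fun Z => f Z - g Z) Y (a - a') (b - b') (l - l') :=
  ((h.add h'.neg).congr (Eventually.of_forall fun Z => by ring)).of_eq (by ring) (by ring)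
    (by ring)

theorem sq (h : PJ f Y a b l) :
    PJ (fun Z => f Z ^ 2) Y (2 * f Y * a) (2 * f Y * b) (2 * f Y * l - 2 * (a ^ 2 + b ^ 2)) :=
  ((h.mul h).congr (Eventually.of_forall fun Z => by ring)).of_eq (by ring) (by ring)
    (by ring)

theorem inv (h : PJ f Y a b l) (h0 : f Y ≠ 0) :
    PJ (fun Z => (f Z)⁻¹) Y (-a / f Y ^ 2) (-b / f Y ^ 2)
      (-l / f Y ^ 2 - 2 * (a ^ 2 + b ^ 2) / f Y ^ 3) := by
  have hc : ContDiffAt ℝ 2 (fun Z => (f Z)⁻¹) Y := h.cd.inv h0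
  obtain ⟨a', b', l', h'⟩ : ∃ a' b' l', PJ (fun Z => (f Z)⁻¹) Y a' b' l' :=
    ⟨_, _, _, hc, rfl, rfl, rfl⟩
  have h1 : PJ (fun Z => f Z * (f Z)⁻¹) Y 0 0 0 := by
    refine (PJ.const 1).congr ?_
    filter_upwards [h.cd.continuousAt.eventually_ne h0] with Z hZ
    rw [mul_inv_cancel₀ hZ]
  obtain ⟨e1, e2, e3⟩ := (h.mul h').unique h1
  have ha : a' = -a / f Y ^ 2 := by
    field_simp at e1 ⊢
    linear_combination e1
  have hb : b' = -b / f Y ^ 2 := by
    field_simp at e2 ⊢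
    linear_combination e2
  refine h'.of_eq ha hb ?_
  rw [ha, hb] at e3
  field_simp at e3 ⊢
  linear_combination e3

end PJ

end Pool.Agent.MCFM
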