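import Pool.Agent.Work.MP_494ea5_gt.Graph

/-!
# From the defining function to the graph function
-/

open Set Filter Topology Metric
open scoped ContDiff InnerProductSpace

namespace Pool.Agent.MCFM

variable {φ : E × ℝ → ℝ} {b : OrthonormalBasis (Fin 3) ℝ E} {p : E} {u : R3 → ℝ} {Z : R3}

/-- near `Z` the zero set of `φ` contains the graph of `u` -/
structure GG (φ : E × ℝ → ℝ) (b : OrthonormalBasis (Fin 3) ℝ E) (p : E) (u : R3 → ℝ)
    (Z : R3) : Prop where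
  hφ : ContDiffAt ℝ 2 φ (Th b p u Z)
  hu : ContDiffAt ℝ 2 u Z
  h0 : ∀ᶠ W in 𝓝 Z, φ (Th b p u W) = 0

namespace GG

theorem ev (h : GG φ b p u Z) : ∀ᶠ W in 𝓝 Z, GG φ b p u W := by
  have h1 : ContinuousAt (Th b p u) Z := (Th_contDiffAt h.hu).continuousAt
  filter_upwards [ev_contDiffAt (n := 2) h.hu, h1.eventually (h.hφ.eventually (by simp)),
    h.h0.eventually_nhds] with W a1 a2 a3
  exact ⟨a2, a1, a3⟩

theorem dφ (h : GG φ b p u Z) : DifferentiableAt ℝ φ (Th b p u Z) :=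
  h.hφ.differentiableAt (by norm_num)

theorem du (h : GG φ b p u Z) : DifferentiableAt ℝ u Z := h.hu.differentiableAt (by norm_num)

theorem D0 (h : GG φ b p u Z) (v : R3) : D v (fun W => φ (Th b p u W)) Z = 0 := by
  rw [D_congr (g := fun _ => 0) h.h0 v, D_const]

theorem r1 (h : GG φ b p u Z) :
    dx φ (b 0) (Th b p u Z) + D v1 u Z * dx φ (b 2) (Th b p u Z) = 0 := by
  rw [← chain1 h.dφ h.du, h.D0]

theorem r2 (h : GG φ b p u Z) :
    dx φ (b 1) (Th b p u Z) + D v2 u Z * dx φ (b 2) (Th b p u Z) = 0 := by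
  rw [← chain2 h.dφ h.du, h.D0]

theorem r3 (h : GG φ b p u Z) :
    dt φ (Th b p u Z) + D v3 u Z * dx φ (b 2) (Th b p u Z) = 0 := by
  rw [← chain3 h.dφ h.du, h.D0]

theorem dxd (h : GG φ b p u Z) (v : E) : DifferentiableAt ℝ (dx φ v) (Th b p u Z) :=
  (dx_contDiffAt (m := 1) h.hφ (by norm_num) v).differentiableAt (by norm_num)

theorem dud (h : GG φ b p u Z) (v : R3) : DifferentiableAt ℝ (D v u) Z :=
  (D_contDiffAt h.hu (m := 1) (by norm_num) v).differentiableAt (by norm_num)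

theorem dxd' (h : GG φ b p u Z) (v : E) :
    DifferentiableAt ℝ (fun W => dx φ v (Th b p u W)) Z :=
  (h.dxd v).comp Z ((Th_contDiffAt h.hu).differentiableAt (by norm_num))

/-- the second order relations -/
theorem rr (h : GG φ b p u Z) :
    (hess φ (Th b p u Z) (b 0) (b 0) + 2 * D v1 u Z * hess φ (Th b p u Z) (b 0) (b 2) +
      D v1 u Z ^ 2 * hess φ (Th b p u Z) (b 2) (b 2) +
      D v1 (D v1 u) Z * dx φ (b 2) (Th b p u Z) = 0) ∧
    (hess φ (Th b p u Z) (b 0) (b 1) + D v1 u Z * hess φ (Th b p u Z) (b 1) (b 2) +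
      D v2 u Z * hess φ (Th b p u Z) (b 0) (b 2) +
      D v1 u Z * D v2 u Z * hess φ (Th b p u Z) (b 2) (b 2) +
      D v1 (D v2 u) Z * dx φ (b 2) (Th b p u Z) = 0) ∧
    (hess φ (Th b p u Z) (b 1) (b 1) + 2 * D v2 u Z * hess φ (Th b p u Z) (b 1) (b 2) +
      D v2 u Z ^ 2 * hess φ (Th b p u Z) (b 2) (b 2) +
      D v2 (D v2 u) Z * dx φ (b 2) (Th b p u Z) = 0) := by
  have e1 : (fun W => dx φ (b 0) (Th b p u W) + D v1 u W * dx φ (b 2) (Th b p u W)) =ᶠ[𝓝 Z]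
      fun _ => 0 := h.ev.mono fun W hW => hW.r1
  have e2 : (fun W => dx φ (b 1) (Th b p u W) + D v2 u W * dx φ (b 2) (Th b p u W)) =ᶠ[𝓝 Z]
      fun _ => 0 := h.ev.mono fun W hW => hW.r2
  have hs := hess_symm h.hφ
  have c1 : ∀ v : E, D v1 (fun W => dx φ v (Th b p u W)) Z =
      hess φ (Th b p u Z) (b 0) v + D v1 u Z * hess φ (Th b p u Z) (b 2) v := by
    intro v
    rw [chain1 (h.dxd v) h.du, dx_hess h.hφ, dx_hess h.hφ]
  have c2 : ∀ v : E, D v2 (fun W => dx φ v (Th b p u W)) Z =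
      hess φ (Th b p u Z) (b 1) v + D v2 u Z * hess φ (Th b p u Z) (b 2) v := by
    intro v
    rw [chain2 (h.dxd v) h.du, dx_hess h.hφ, dx_hess h.hφ]
  have k11 := (D_congr e1 v1).trans (D_const 0 v1 Z)
  have k12 := (D_congr e2 v1).trans (D_const 0 v1 Z)
  have k22 := (D_congr e2 v2).trans (D_const 0 v2 Z)
  rw [D_add (h.dxd' _) ((h.dud v1).fun_mul (h.dxd' _)), D_mul (h.dud v1) (h.dxd' _), c1, c1]
    at k11
  rw [D_add (h.dxd' _) ((h.dud v2).fun_mul (h.dxd' _)), D_mul (h.dud v2) (h.dxd' _), c1, c1]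
    at k12
  rw [D_add (h.dxd' _) ((h.dud v2).fun_mul (h.dxd' _)), D_mul (h.dud v2) (h.dxd' _), c2, c2]
    at k22
  rw [hs (b 2) (b 0)] at k11
  rw [hs (b 2) (b 1)] at k12 k22
  refine ⟨by linear_combination k11, by linear_combination k12, by linear_combination k22⟩

theorem kap_pos (u : R3 → ℝ) (Z : R3) : 0 < TG.kap u Z := by
  unfold TG.kap; positivity

theorem kap_mul (u : R3 → ℝ) (Z : R3) :
    TG.kap u Z * (1 + D v1 u Z ^ 2 + D v2 u Z ^ 2) = 1 := by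
  unfold TG.kap
  exact inv_mul_cancel₀ (by positivity)

theorem om_sq (u : R3 → ℝ) (Z : R3) : TG.om u Z ^ 2 = TG.kap u Z := by
  unfold TG.om
  exact Real.sq_sqrt (kap_pos u Z).le

theorem om_pos (u : R3 → ℝ) (Z : R3) : 0 < TG.om u Z := Real.sqrt_pos.2 (kap_pos u Z)

theorem norm_sq_grad (φ : E × ℝ → ℝ) (X : E × ℝ) (b : OrthonormalBasis (Fin 3) ℝ E) :
    ‖grad φ X‖ ^ 2 = dx φ (b 0) X ^ 2 + dx φ (b 1) X ^ 2 + dx φ (b 2) X ^ 2 := by
  rw [← b.sum_sq_norm_inner_left, Fin.sum_univ_three]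
  simp only [inner_grad, Real.norm_eq_abs, sq_abs]

/-- the norm of the gradient -/
theorem grad_norm (h : GG φ b p u Z) (hg : 0 < dx φ (b 2) (Th b p u Z)) :
    ‖grad φ (Th b p u Z)‖ * TG.om u Z = dx φ (b 2) (Th b p u Z) := by
  have h1 := norm_sq_grad φ (Th b p u Z) b
  have h2 := h.r1
  have h3 := h.r2
  have h4 : (‖grad φ (Th b p u Z)‖ * TG.om u Z) ^ 2 = dx φ (b 2) (Th b p u Z) ^ 2 := by
    rw [mul_pow, om_sq, h1]
    have e0 : dx φ (b 0) (Th b p u Z) = -(D v1 u Z * dx φ (b 2) (Th b p u Z)) := by linarith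
    have e1 : dx φ (b 1) (Th b p u Z) = -(D v2 u Z * dx φ (b 2) (Th b p u Z)) := by linarith
    rw [e0, e1]
    linear_combination dx φ (b 2) (Th b p u Z) ^ 2 * kap_mul u Z
  exact (pow_left_inj₀ (by have := (om_pos u Z).le; positivity) hg.le two_ne_zero).1 h4

/-- the normal in terms of the graph function -/
theorem nu_eq (h : GG φ b p u Z) (hg : 0 < dx φ (b 2) (Th b p u Z)) (e : E) :
    ⟪e, nu φ (Th b p u Z)⟫_ℝ = TG.nuf u ⟪b 0, e⟫_ℝ ⟪b 1, e⟫_ℝ ⟪b 2, e⟫_ℝ Z := by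
  have h1 := h.grad_norm hg
  have h2 := h.r1
  have h3 := h.r2
  have hn : 0 < ‖grad φ (Th b p u Z)‖ := by
    have := om_pos u Z
    by_contra hc
    nlinarith
  unfold nu
  rw [real_inner_comm, real_inner_smul_left, inner_grad]
  have e4 : dx φ e (Th b p u Z) = ∑ i, ⟪b i, e⟫_ℝ * dx φ (b i) (Th b p u Z) := by
    rw [← dxL_apply]
    conv_lhs => rw [← b.sum_repr' e]
    rw [map_sum]
    refine Finset.sum_congr rfl fun i _ => ?_
    rw [map_smul, smul_eq_mul, dxL_apply]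
  rw [e4, Fin.sum_univ_three]
  unfold TG.nuf
  have e0 : dx φ (b 0) (Th b p u Z) = -(D v1 u Z * dx φ (b 2) (Th b p u Z)) := by linarith
  have e1 : dx φ (b 1) (Th b p u Z) = -(D v2 u Z * dx φ (b 2) (Th b p u Z)) := by linarith
  rw [e0, e1, ← h1]
  field_simp
  ring

theorem inner_nu_b (h : GG φ b p u Z) (hg : 0 < dx φ (b 2) (Th b p u Z)) :
    ⟪nu φ (Th b p u Z), b 0⟫_ℝ = -(D v1 u Z * TG.om u Z) ∧
    ⟪nu φ (Th b p u Z), b 1⟫_ℝ = -(D v2 u Z * TG.om u Z) ∧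
    ⟪nu φ (Th b p u Z), b 2⟫_ℝ = TG.om u Z := by
  have o : ∀ i j, ⟪b i, b j⟫_ℝ = if i = j then 1 else 0 := fun i j => by
    rw [orthonormal_iff_ite.1 b.orthonormal i j]
  refine ⟨?_, ?_, ?_⟩
  · rw [real_inner_comm, h.nu_eq hg, o, o, o]
    simp [TG.nuf]
  · rw [real_inner_comm, h.nu_eq hg, o, o, o]
    simp [TG.nuf]
  · rw [real_inner_comm, h.nu_eq hg, o, o, o]
    simp [TG.nuf]

theorem nu_sum (h : GG φ b p u Z) (hg : 0 < dx φ (b 2) (Th b p u Z)) :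
    nu φ (Th b p u Z) = TG.om u Z • (b 2 - D v1 u Z • b 0 - D v2 u Z • b 1) := by
  obtain ⟨h0, h1, h2⟩ := h.inner_nu_b hg
  conv_lhs => rw [← b.sum_repr' (nu φ (Th b p u Z)), Fin.sum_univ_three]
  rw [real_inner_comm, h0, real_inner_comm, h1, real_inner_comm, h2]
  module

/-- the equation of motion -/
theorem eqn (h : GG φ b p u Z) (hg : 0 < dx φ (b 2) (Th b p u Z))
    (hm : dt φ (Th b p u Z) = lap φ (Th b p u Z) -
      hess φ (Th b p u Z) (nu φ (Th b p u Z)) (nu φ (Th b p u Z))) :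
    (1 + D v1 u Z ^ 2 + D v2 u Z ^ 2) * D v3 u Z =
    (1 + D v2 u Z ^ 2) * D v1 (D v1 u) Z - 2 * D v1 u Z * D v2 u Z * D v1 (D v2 u) Z +
      (1 + D v1 u Z ^ 2) * D v2 (D v2 u) Z := by
  obtain ⟨q1, q2, q3⟩ := h.rr
  have h3 := h.r3
  have hs := hess_symm h.hφ
  have hl : lap φ (Th b p u Z) = hess φ (Th b p u Z) (b 0) (b 0) +
      hess φ (Th b p u Z) (b 1) (b 1) + hess φ (Th b p u Z) (b 2) (b 2) := by
    have := trace_basis (hessL φ (Th b p u Z)) eb b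
    simp only [hessL_apply, eb_apply, Fin.sum_univ_three] at this
    unfold lap
    rw [Fin.sum_univ_three, this]
  have hnn : hess φ (Th b p u Z) (nu φ (Th b p u Z)) (nu φ (Th b p u Z)) =
      TG.kap u Z * (hess φ (Th b p u Z) (b 2) (b 2)
        - 2 * D v1 u Z * hess φ (Th b p u Z) (b 0) (b 2)
        - 2 * D v2 u Z * hess φ (Th b p u Z) (b 1) (b 2)
        + D v1 u Z ^ 2 * hess φ (Th b p u Z) (b 0) (b 0)
        + 2 * D v1 u Z * D v2 u Z * hess φ (Th b p u Z) (b 0) (b 1)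
        + D v2 u Z ^ 2 * hess φ (Th b p u Z) (b 1) (b 1)) := by
    rw [h.nu_sum hg, ← hessL_apply]
    simp only [map_smul, map_sub, LinearMap.smul_apply, LinearMap.sub_apply, smul_eq_mul,
      hessL_apply]
    rw [hs (b 2) (b 0), hs (b 2) (b 1), hs (b 1) (b 0), ← om_sq]
    ring
  rw [hl, hnn] at hm
  have hk := kap_mul u Z
  set g := dx φ (b 2) (Th b p u Z) with hgdef
  have hg' : g ≠ 0 := hg.ne'
  have key : g * ((1 + D v1 u Z ^ 2 + D v2 u Z ^ 2) * D v3 u Z) =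
      g * ((1 + D v2 u Z ^ 2) * D v1 (D v1 u) Z - 2 * D v1 u Z * D v2 u Z * D v1 (D v2 u) Z +
      (1 + D v1 u Z ^ 2) * D v2 (D v2 u) Z) := by
    set w := 1 + D v1 u Z ^ 2 + D v2 u Z ^ 2 with hw
    have h00 : hess φ (Th b p u Z) (b 0) (b 0) = -(2 * D v1 u Z * hess φ (Th b p u Z) (b 0) (b 2)
      + D v1 u Z ^ 2 * hess φ (Th b p u Z) (b 2) (b 2) + D v1 (D v1 u) Z * g) := by
      linarith
    have h01 : hess φ (Th b p u Z) (b 0) (b 1) = -(D v1 u Z * hess φ (Th b p u Z) (b 1) (b 2)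
      + D v2 u Z * hess φ (Th b p u Z) (b 0) (b 2)
      + D v1 u Z * D v2 u Z * hess φ (Th b p u Z) (b 2) (b 2) + D v1 (D v2 u) Z * g) := by
      linarith
    have h11 : hess φ (Th b p u Z) (b 1) (b 1) = -(2 * D v2 u Z * hess φ (Th b p u Z) (b 1) (b 2)
      + D v2 u Z ^ 2 * hess φ (Th b p u Z) (b 2) (b 2) + D v2 (D v2 u) Z * g) := by
      linarith
    have hm2 : w * dt φ (Th b p u Z) = w * (hess φ (Th b p u Z) (b 0) (b 0) +
        hess φ (Th b p u Z) (b 1) (b 1) + hess φ (Th b p u Z) (b 2) (b 2)) -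
        (hess φ (Th b p u Z) (b 2) (b 2)
        - 2 * D v1 u Z * hess φ (Th b p u Z) (b 0) (b 2)
        - 2 * D v2 u Z * hess φ (Th b p u Z) (b 1) (b 2)
        + D v1 u Z ^ 2 * hess φ (Th b p u Z) (b 0) (b 0)
        + 2 * D v1 u Z * D v2 u Z * hess φ (Th b p u Z) (b 0) (b 1)
        + D v2 u Z ^ 2 * hess φ (Th b p u Z) (b 1) (b 1)) := by
      rw [hm]
      linear_combination (-(hess φ (Th b p u Z) (b 2) (b 2)
        - 2 * D v1 u Z * hess φ (Th b p u Z) (b 0) (b 2)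
        - 2 * D v2 u Z * hess φ (Th b p u Z) (b 1) (b 2)
        + D v1 u Z ^ 2 * hess φ (Th b p u Z) (b 0) (b 0)
        + 2 * D v1 u Z * D v2 u Z * hess φ (Th b p u Z) (b 0) (b 1)
        + D v2 u Z ^ 2 * hess φ (Th b p u Z) (b 1) (b 1))) * hk
    have h3' : dt φ (Th b p u Z) = -(D v3 u Z * g) := by linarith
    rw [h3', h00, h01, h11] at hm2
    rw [hw] at hm2 ⊢
    linear_combination -hm2
  exact mul_left_cancel₀ hg' key

end GG

end Pool.Agent.MCFM
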