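import Pool.Agent.Work.MP_494ea5_gt.Mirror

/-!
# The curvature estimate away from the mirror
-/

open Set Filter Topology Metric
open scoped ContDiff InnerProductSpace

namespace Pool.Agent.MCFM

variable {T : ℝ} {φ : E × ℝ → ℝ}

/-- Kato's inequality at the centre -/
theorem kato (r s t c0 c1 c2 c3 : ℝ) :
    (2 * (r * c0 + 2 * s * c1 + t * c2)) ^ 2 + (2 * (r * c1 + 2 * s * c2 + t * c3)) ^ 2 ≤
      4 * (r ^ 2 + 2 * s ^ 2 + t ^ 2) * (c0 ^ 2 + 3 * c1 ^ 2 + 3 * c2 ^ 2 + c3 ^ 2) := by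
  have h1 : (r * c0 + 2 * s * c1 + t * c2) ^ 2 ≤
      (r ^ 2 + 2 * s ^ 2 + t ^ 2) * (c0 ^ 2 + 2 * c1 ^ 2 + c2 ^ 2) := by
    nlinarith [sq_nonneg (r * c1 - s * c0), sq_nonneg (r * c2 - t * c0),
      sq_nonneg (s * c2 - t * c1)]
  have h2 : (r * c1 + 2 * s * c2 + t * c3) ^ 2 ≤
      (r ^ 2 + 2 * s ^ 2 + t ^ 2) * (c1 ^ 2 + 2 * c2 ^ 2 + c3 ^ 2) := by
    nlinarith [sq_nonneg (r * c2 - s * c1), sq_nonneg (r * c3 - t * c1),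
      sq_nonneg (s * c3 - t * c2)]
  nlinarith

/-- the algebra of the interior curvature estimate -/
theorem curv_alg {A q1 q2 dA z w1 w2 n n1 n2 k m B : ℝ} (hA : 0 < A) (hz : 0 < z) (hk : 0 < k)
    (hm : m = n ^ 2 - k) (hm0 : 0 < m) (hn : n ^ 2 ≤ 1) (hw : w1 ^ 2 + w2 ^ 2 ≤ 1)
    (hB : B * m = A * z ^ 2) (hK : q1 ^ 2 + q2 ^ 2 ≤ 4 * A * dA)
    (h1 : z ^ 2 * q1 + 2 * A * z * w1 = B * (2 * n * n1))
    (h2 : z ^ 2 * q2 + 2 * A * z * w2 = B * (2 * n * n2))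
    (hl : 0 ≤ z ^ 2 * (2 * A ^ 2 - 2 * dA) - 2 * A * (w1 ^ 2 + w2 ^ 2) -
      4 * z * (q1 * w1 + q2 * w2) - B * (2 * n ^ 2 * A - 2 * (n1 ^ 2 + n2 ^ 2))) :
    B ≤ (2 * k + 1) / k ^ 2 := by
  have hBe : B = A * z ^ 2 / m := by field_simp; linarith
  -- rescaled gradients
  obtain ⟨a1, ha1⟩ : ∃ a1, a1 = n1 / m := ⟨_, rfl⟩
  obtain ⟨a2, ha2⟩ : ∃ a2, a2 = n2 / m := ⟨_, rfl⟩
  obtain ⟨x1, hx1⟩ : ∃ x1, x1 = w1 / z := ⟨_, rfl⟩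
  obtain ⟨x2, hx2⟩ : ∃ x2, x2 = w2 / z := ⟨_, rfl⟩
  have en1 : n1 = m * a1 := by rw [ha1]; field_simp
  have en2 : n2 = m * a2 := by rw [ha2]; field_simp
  have ew1 : w1 = z * x1 := by rw [hx1]; field_simp
  have ew2 : w2 = z * x2 := by rw [hx2]; field_simp
  have hz2 : z ^ 2 ≠ 0 := by positivity
  have eq1 : q1 = 2 * A * (n * a1 - x1) := by
    apply mul_left_cancel₀ hz2
    rw [en1, ew1] at h1
    linear_combination h1 + (2 * n * a1) * hB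
  have eq2 : q2 = 2 * A * (n * a2 - x2) := by
    apply mul_left_cancel₀ hz2
    rw [en2, ew2] at h2
    linear_combination h2 + (2 * n * a2) * hB
  have hd : A * ((n * a1 - x1) ^ 2 + (n * a2 - x2) ^ 2) ≤ dA := by
    rw [eq1, eq2] at hK
    have : 4 * A * (A * ((n * a1 - x1) ^ 2 + (n * a2 - x2) ^ 2)) ≤ 4 * A * dA := by
      linarith [hK, show (2 * A * (n * a1 - x1)) ^ 2 + (2 * A * (n * a2 - x2)) ^ 2 =
        4 * A * (A * ((n * a1 - x1) ^ 2 + (n * a2 - x2) ^ 2)) by ring]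
    exact le_of_mul_le_mul_left this (by positivity)
  -- divide by `2 A z²`
  have hdiv : 0 ≤ (2 * A * z ^ 2) * (A * (m - n ^ 2) / m - k * (a1 ^ 2 + a2 ^ 2) -
      2 * n * (a1 * x1 + a2 * x2) + 2 * (x1 ^ 2 + x2 ^ 2)) := by
    have e1 : z ^ 2 * (2 * A ^ 2 - 2 * dA) - 2 * A * (w1 ^ 2 + w2 ^ 2) -
        4 * z * (q1 * w1 + q2 * w2) - B * (2 * n ^ 2 * A - 2 * (n1 ^ 2 + n2 ^ 2)) ≤
        z ^ 2 * (2 * A ^ 2 - 2 * (A * ((n * a1 - x1) ^ 2 + (n * a2 - x2) ^ 2))) -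
        2 * A * (w1 ^ 2 + w2 ^ 2) - 4 * z * (q1 * w1 + q2 * w2) -
        B * (2 * n ^ 2 * A - 2 * (n1 ^ 2 + n2 ^ 2)) := by
      have := mul_le_mul_of_nonneg_left hd (by positivity : (0:ℝ) ≤ 2 * z ^ 2)
      linarith
    refine (hl.trans e1).trans (le_of_eq ?_)
    rw [hBe, eq1, eq2, en1, en2, ew1, ew2]
    have hkm : k = n ^ 2 - m := by linarith
    rw [hkm]
    field_simp
    ring
  have hpos : 0 < 2 * A * z ^ 2 := by positivity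
  have h3 := nonneg_of_mul_nonneg_right hdiv hpos
  have hmn : m - n ^ 2 = -k := by linarith
  rw [hmn] at h3
  -- Cauchy
  have h4 : A * k / m ≤ (n ^ 2 / k + 2) * (x1 ^ 2 + x2 ^ 2) := by
    have h5 : -(2 * n * (a1 * x1 + a2 * x2)) ≤ k * (a1 ^ 2 + a2 ^ 2) +
        n ^ 2 / k * (x1 ^ 2 + x2 ^ 2) := by
      have e : k * (a1 ^ 2 + a2 ^ 2) + n ^ 2 / k * (x1 ^ 2 + x2 ^ 2) +
          2 * n * (a1 * x1 + a2 * x2) = ((k * a1 + n * x1) ^ 2 + (k * a2 + n * x2) ^ 2) / k := by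
        field_simp
        ring
      have : 0 ≤ ((k * a1 + n * x1) ^ 2 + (k * a2 + n * x2) ^ 2) / k := by positivity
      linarith
    have e6 : A * -k / m = -(A * k / m) := by ring
    rw [e6] at h3
    have e7 : (n ^ 2 / k + 2) * (x1 ^ 2 + x2 ^ 2) = n ^ 2 / k * (x1 ^ 2 + x2 ^ 2) +
        2 * (x1 ^ 2 + x2 ^ 2) := by ring
    rw [e7]
    linarith
  have h6 : x1 ^ 2 + x2 ^ 2 ≤ 1 / z ^ 2 := by
    rw [hx1, hx2, div_pow, div_pow, ← add_div]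
    exact div_le_div_of_nonneg_right hw (by positivity)
  have h7 : n ^ 2 / k + 2 ≤ 1 / k + 2 := by
    have := div_le_div_of_nonneg_right hn hk.le
    linarith
  have h8 : A * k / m ≤ (1 / k + 2) * (1 / z ^ 2) := by
    refine h4.trans (mul_le_mul h7 h6 (by positivity) (by positivity))
  rw [hBe]
  have h9 : A * z ^ 2 / m = (A * k / m) * (z ^ 2 / k) := by field_simp
  rw [h9]
  calc (A * k / m) * (z ^ 2 / k) ≤ ((1 / k + 2) * (1 / z ^ 2)) * (z ^ 2 / k) :=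
        mul_le_mul_of_nonneg_right h8 (by positivity)
    _ = (2 * k + 1) / k ^ 2 := by field_simp; ring

/-- the estimate on one side of the mirror -/
theorem Flow.curv_side (F : Flow T φ) {ε : ℝ} (hε : 0 < ε) {α : E} (hα : ‖α‖ = 1)
    (hb : ∀ t ∈ Ico 0 T, ∀ p, φ (p, t) = 0 → 0 < ⟪α, p⟫_ℝ →
      ε * ⟪α, p⟫_ℝ ≤ ⟪α, nu φ (p, t)⟫_ℝ) {d : ℝ} (hd : 0 < d) :
    ∃ C : ℝ, ∀ t ∈ Ico 0 T, ∀ p, φ (p, t) = 0 → 2 * d ≤ ⟪α, p⟫_ℝ → sqA φ (p, t) ≤ C := by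
  by_cases hT : 0 < T
  swap
  · exact ⟨0, fun t ht => absurd (lt_of_le_of_lt ht.1 ht.2) hT⟩
  set k := (ε * d) ^ 2 / 2 with hk
  have hk0 : 0 < k := by positivity
  let G : E × ℝ → ℝ := fun X =>
    sqA φ X * (⟪α, X.1⟫_ℝ - d) ^ 2 / (⟪α, nu φ X⟫_ℝ ^ 2 - k)
  let S : Set (E × ℝ) := {X | d ≤ ⟪α, X.1⟫_ℝ}
  have hS : IsClosed S := isClosed_le continuous_const (by fun_prop)
  have hnd : ∀ t₁ ∈ Ico 0 T, ∀ X ∈ Kc φ t₁ ∩ S, k ≤ ⟪α, nu φ X⟫_ℝ ^ 2 - k := by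
    rintro t₁ ht₁ X ⟨hX, hXS⟩
    have hX1 : d ≤ ⟪α, X.1⟫_ℝ := hXS
    have h1 := hb X.2 ⟨hX.1.1, lt_of_le_of_lt hX.1.2 ht₁.2⟩ X.1 hX.2 (lt_of_lt_of_le hd hX1)
    have h2 : ε * d ≤ ⟪α, nu φ X⟫_ℝ := le_trans (mul_le_mul_of_nonneg_left hX1 hε.le) h1
    have h3 : (ε * d) ^ 2 ≤ ⟪α, nu φ X⟫_ℝ ^ 2 := pow_le_pow_left₀ (by positivity) h2 2
    rw [hk]; linarith
  have hGc : ∀ t₁ ∈ Ico 0 T, ContinuousOn G (Kc φ t₁ ∩ S) := by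
    intro t₁ ht₁ X hX
    refine ContinuousAt.continuousWithinAt ?_
    have hlt : X.2 < T := lt_of_le_of_lt hX.1.1.2 ht₁.2
    have hreg : grad φ X ≠ 0 := F.regular X.2 ⟨hX.1.1.1, hlt⟩ X.1 hX.1.2
    have h1 := F.cont_nu hlt hreg
    have h2 : ContinuousAt (fun X : E × ℝ => ⟪α, nu φ X⟫_ℝ) X := continuousAt_const.inner h1
    have h3 : ContinuousAt (fun X : E × ℝ => ⟪α, X.1⟫_ℝ) X := by fun_prop
    have h4 := hnd t₁ ht₁ X hX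
    exact ((F.cont_sqA hlt hreg).mul ((h3.sub continuousAt_const).pow 2)).div
      ((h2.pow 2).sub continuousAt_const) (by linarith)
  have h0T : (0 : ℝ) ∈ Ico 0 T := ⟨le_rfl, hT⟩
  obtain ⟨B₀, hB₀⟩ := ((F.compact h0T.2).inter_right hS).bddAbove_image (hGc 0 h0T)
  have hB₀' : ∀ X ∈ Kc φ 0 ∩ S, G X ≤ B₀ := fun X hX => hB₀ ⟨X, hX, rfl⟩
  set B₁ := max (max B₀ 0) ((2 * k + 1) / k ^ 2) with hB₁
  have hB₁0 : 0 ≤ B₁ := le_trans (le_max_right _ _) (le_max_left _ _)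
  have main : ∀ t₁ ∈ Ico 0 T, ∀ X ∈ Kc φ t₁ ∩ S, G X ≤ B₁ := by
    intro t₁ ht₁ X' hX'
    obtain ⟨X, hX, hmax⟩ := ((F.compact ht₁.2).inter_right hS).exists_isMaxOn ⟨X', hX'⟩
      (hGc t₁ ht₁)
    refine (hmax hX').trans ?_
    have hlt : X.2 < T := lt_of_le_of_lt hX.1.1.2 ht₁.2
    have hXS : d ≤ ⟪α, X.1⟫_ℝ := hX.2
    have hm0 := hnd t₁ ht₁ X hX
    have hsq : 0 ≤ sqA φ X := by
      unfold sqA
      exact Finset.sum_nonneg fun i _ => Finset.sum_nonneg fun j _ => sq_nonneg _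
    rcases eq_or_lt_of_le hX.1.1.1 with h0 | h0
    · -- initial time
      refine le_trans (hB₀' X ⟨⟨⟨h0.le, h0.symm.le⟩, hX.1.2⟩, hX.2⟩) ?_
      exact le_trans (le_max_left _ _) (le_max_left _ _)
    rcases eq_or_lt_of_le hXS with hx | hx
    · have : G X = 0 := by
        simp only [G]
        rw [← hx]; simp
      rw [this]; exact hB₁0
    rcases eq_or_lt_of_le hsq with ha | ha
    · have : G X = 0 := by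
        simp only [G]
        rw [← ha]; simp
      rw [this]; exact hB₁0
    refine le_trans ?_ (le_max_right _ _)
    have hIoo : X.2 ∈ Ioo 0 T := ⟨h0, hlt⟩
    obtain ⟨b, u, hb', hu, hu0, hTG, hTh, hE⟩ := F.exists_TG hIoo hX.1.2
    set B := G X with hB
    have hmax' : ∀ᶠ Y in 𝓝 X, φ Y = 0 → Y.2 ≤ X.2 →
        sqA φ Y * (⟪α, Y.1⟫_ℝ - d) ^ 2 - B * (⟪α, nu φ Y⟫_ℝ ^ 2 - k) ≤
        sqA φ X * (⟪α, X.1⟫_ℝ - d) ^ 2 - B * (⟪α, nu φ X⟫_ℝ ^ 2 - k) := by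
      have e1 : ∀ᶠ Y : E × ℝ in 𝓝 X, d < ⟪α, Y.1⟫_ℝ := by
        have : ContinuousAt (fun Y : E × ℝ => ⟪α, Y.1⟫_ℝ) X := by fun_prop
        exact this.eventually (eventually_gt_nhds hx)
      have e2 : ∀ᶠ Y : E × ℝ in 𝓝 X, 0 < Y.2 := by
        have : ContinuousAt (fun Y : E × ℝ => Y.2) X := by fun_prop
        exact this.eventually (eventually_gt_nhds h0)
      filter_upwards [e1, e2] with Y y1 y2 y3 y4
      have hY : Y ∈ Kc φ t₁ ∩ S := ⟨⟨⟨y2.le, y4.trans hX.1.1.2⟩, y3⟩, y1.le⟩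
      have hmY := hnd t₁ ht₁ Y hY
      have h1 : G Y ≤ B := hmax hY
      have h2 : sqA φ Y * (⟪α, Y.1⟫_ℝ - d) ^ 2 ≤ B * (⟪α, nu φ Y⟫_ℝ ^ 2 - k) :=
        (div_le_iff₀ (by linarith)).1 h1
      have h3 : sqA φ X * (⟪α, X.1⟫_ℝ - d) ^ 2 = B * (⟪α, nu φ X⟫_ℝ ^ 2 - k) := by
        rw [hB]
        simp only [G]
        rw [div_mul_cancel₀]
        linarith
      rw [h3]; linarith
    have hmx := Flow.max_graph (f := fun Y => sqA φ Y * (⟪α, Y.1⟫_ℝ - d) ^ 2 -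
      B * (⟪α, nu φ Y⟫_ℝ ^ 2 - k)) hu hTh hE hmax'
    have hn := hTG.jnuf ⟪b 0, α⟫_ℝ ⟪b 1, α⟫_ℝ ⟪b 2, α⟫_ℝ
    have hxj := hTG.jx ⟪α, X.1⟫_ℝ ⟪b 0, α⟫_ℝ ⟪b 1, α⟫_ℝ ⟪b 2, α⟫_ℝ
    have hP := (hTG.jqf.mul (hxj.sub (PJ.const d)).sq).sub
      ((hn.sq.sub (PJ.const k)).const_mul B)
    have hP' := hP.congr (g := fun Z => sqA φ (Th b X.1 u Z) *
        (⟪α, (Th b X.1 u Z).1⟫_ℝ - d) ^ 2 -
        B * (⟪α, nu φ (Th b X.1 u Z)⟫_ℝ ^ 2 - k)) (by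
      filter_upwards [hE] with Z hZ
      rw [hZ.1.nu_eq hZ.2.1, inner_Th, hZ.1.sqA_eq hZ.2.1])
    obtain ⟨k1, k2, k3⟩ := hP'.max hmx
    have hv : TG.nuf u ⟪b 0, α⟫_ℝ ⟪b 1, α⟫_ℝ ⟪b 2, α⟫_ℝ (0, 0, X.2) = ⟪b 2, α⟫_ℝ :=
      hTG.nuf_c _ _ _
    have hnX : ⟪α, nu φ X⟫_ℝ = ⟪b 2, α⟫_ℝ := by rw [hb', real_inner_comm]
    have haa : TG.aa u (0, 0, X.2) = sqA φ X := by
      obtain ⟨g1, g2, g3⟩ := hE.self_of_nhds
      rw [← hTG.qf_c, ← g1.sqA_eq g2, hTh]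
    have hqf : TG.qf u (0, 0, X.2) = sqA φ X := by rw [hTG.qf_c, haa]
    simp only [hv, hu0, hqf, mul_zero, add_zero] at k1 k2 k3
    have hnrm : ⟪b 0, α⟫_ℝ ^ 2 + ⟪b 1, α⟫_ℝ ^ 2 + ⟪b 2, α⟫_ℝ ^ 2 = 1 := by
      have := b.sum_sq_norm_inner_right α
      rw [Fin.sum_univ_three, hα] at this
      simpa [Real.norm_eq_abs, sq_abs] using this
    rw [hnX] at hm0
    have hBm : B * (⟪b 2, α⟫_ℝ ^ 2 - k) = sqA φ X * (⟪α, X.1⟫_ℝ - d) ^ 2 := by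
      rw [hB]
      simp only [G]
      rw [hnX, div_mul_cancel₀]
      linarith
    have hkato := kato (TG.r u (0, 0, X.2)) (TG.s u (0, 0, X.2)) (TG.t u (0, 0, X.2))
      (TG.c0 u (0, 0, X.2)) (TG.c1' u (0, 0, X.2)) (TG.c2 u (0, 0, X.2)) (TG.c3 u (0, 0, X.2))
    have hdA : TG.da2 u (0, 0, X.2) = TG.c0 u (0, 0, X.2) ^ 2 + 3 * TG.c1' u (0, 0, X.2) ^ 2 +
      3 * TG.c2 u (0, 0, X.2) ^ 2 + TG.c3 u (0, 0, X.2) ^ 2 := rfl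
    have haa' : sqA φ X = TG.r u (0, 0, X.2) ^ 2 + 2 * TG.s u (0, 0, X.2) ^ 2 +
      TG.t u (0, 0, X.2) ^ 2 := by rw [← haa]; rfl
    rw [← haa', ← hdA] at hkato
    refine curv_alg (A := sqA φ X) (z := ⟪α, X.1⟫_ℝ - d) (k := k) (n := ⟪b 2, α⟫_ℝ)
      (m := ⟪b 2, α⟫_ℝ ^ 2 - k) (w1 := ⟪b 0, α⟫_ℝ) (w2 := ⟪b 1, α⟫_ℝ)
      (n1 := -(⟪b 0, α⟫_ℝ * TG.r u (0, 0, X.2) + ⟪b 1, α⟫_ℝ * TG.s u (0, 0, X.2)))
      (n2 := -(⟪b 0, α⟫_ℝ * TG.s u (0, 0, X.2) + ⟪b 1, α⟫_ℝ * TG.t u (0, 0, X.2)))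
      (dA := TG.da2 u (0, 0, X.2)) ha (by linarith) hk0 rfl (by linarith)
      (by linarith [sq_nonneg ⟪b 0, α⟫_ℝ, sq_nonneg ⟪b 1, α⟫_ℝ])
      (by linarith [sq_nonneg ⟪b 2, α⟫_ℝ]) hBm hkato ?_ ?_ ?_
    · linear_combination k1
    · linear_combination k2
    · refine k3.trans (le_of_eq ?_)
      rw [haa]
      ring
  refine ⟨B₁ / d ^ 2, fun t ht p hp hx => ?_⟩
  have hX : ((p, t) : E × ℝ) ∈ Kc φ t ∩ S := ⟨⟨⟨ht.1, le_rfl⟩, hp⟩, show d ≤ ⟪α, p⟫_ℝ by linarith⟩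
  have h1 := main t ht _ hX
  have h2 := hnd t ht _ hX
  have h3 : sqA φ (p, t) * (⟪α, p⟫_ℝ - d) ^ 2 ≤ B₁ * (⟪α, nu φ (p, t)⟫_ℝ ^ 2 - k) :=
    (div_le_iff₀ (by linarith)).1 h1
  have h4 : ⟪α, nu φ (p, t)⟫_ℝ ^ 2 ≤ 1 := by
    have hg : grad φ (p, t) ≠ 0 := F.regular t ht p hp
    have := abs_real_inner_le_norm α (nu φ (p, t))
    rw [hα, Geo.norm_nu hg, one_mul] at this
    nlinarith [abs_le.1 this]
  have hsq : 0 ≤ sqA φ (p, t) := by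
    unfold sqA
    exact Finset.sum_nonneg fun i _ => Finset.sum_nonneg fun j _ => sq_nonneg _
  have h5 : sqA φ (p, t) * d ^ 2 ≤ sqA φ (p, t) * (⟪α, p⟫_ℝ - d) ^ 2 :=
    mul_le_mul_of_nonneg_left (pow_le_pow_left₀ hd.le (by linarith) 2) hsq
  rw [le_div_iff₀ (by positivity)]
  have h6 : B₁ * (⟪α, nu φ (p, t)⟫_ℝ ^ 2 - k) ≤ B₁ * 1 :=
    mul_le_mul_of_nonneg_left (by linarith) hB₁0
  linarith

theorem Flow.curv {T : ℝ} {φ : E × ℝ → ℝ} (F : Flow T φ) {ε : ℝ} (hε : 0 < ε) {α : E}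
    (hα : ‖α‖ = 1) (hb : ∀ t ∈ Ico 0 T, Big φ ε α t) {δ : ℝ} (hδ : 0 < δ) :
    ∃ C : ℝ, ∀ t ∈ Ico 0 T, ∀ p, φ (p, t) = 0 → δ ≤ |⟪α, p⟫_ℝ| → sqA φ (p, t) ≤ C := by
  have side : ∀ β : E, ‖β‖ = 1 → (∀ t ∈ Ico 0 T, Big φ ε β t) →
      ∃ C : ℝ, ∀ t ∈ Ico 0 T, ∀ p, φ (p, t) = 0 → δ ≤ ⟪β, p⟫_ℝ → sqA φ (p, t) ≤ C := by
    intro β hβ hbβ
    obtain ⟨C, hC⟩ := F.curv_side hε hβ (fun t ht p hp hx => by
      have := hbβ t ht p hp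
      by_contra hc
      push Not at hc
      nlinarith) (half_pos hδ)
    exact ⟨C, fun t ht p hp hx => hC t ht p hp (by linarith)⟩
  obtain ⟨C₁, h₁⟩ := side α hα hb
  obtain ⟨C₂, h₂⟩ := side (-α) (by rw [norm_neg, hα]) fun t ht => Geo.big_neg (hb t ht)
  refine ⟨max C₁ C₂, fun t ht p hp hx => ?_⟩
  rcases le_total 0 ⟪α, p⟫_ℝ with h | h
  · rw [abs_of_nonneg h] at hx
    exact (h₁ t ht p hp hx).trans (le_max_left _ _)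
  · rw [abs_of_nonpos h] at hx
    exact (h₂ t ht p hp (by rw [inner_neg_left]; exact hx)).trans (le_max_right _ _)

end Pool.Agent.MCFM
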