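import Mathlib

/-!
# Smooth mean curvature flow of closed embedded surfaces in `ℝ³`

The evolving surface is `M_t = {φ(·, t) = 0}`, the boundary of the bounded domain
`Ω_t = {φ(·, t) < 0}`, where `φ` is a smooth function of space-time whose spatial gradient does
not vanish on `M_t`.
-/

open Set Filter Topology Metric
open scoped ContDiff InnerProductSpace

namespace Pool.Agent.MCFM

/-- Euclidean three-space. -/
abbrev E : Type := EuclideanSpace ℝ (Fin 3)

/-- the standard basis -/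
noncomputable def ee (i : Fin 3) : E := EuclideanSpace.single i (1 : ℝ)

/-- The derivative of `φ` in the spatial direction `v`. -/
noncomputable def dx (φ : E × ℝ → ℝ) (v : E) (X : E × ℝ) : ℝ := fderiv ℝ φ X (v, 0)

/-- The time derivative of `φ`. -/
noncomputable def dt (φ : E × ℝ → ℝ) (X : E × ℝ) : ℝ := fderiv ℝ φ X (0, 1)

/-- The spatial Hessian of `φ`. -/
noncomputable def hess (φ : E × ℝ → ℝ) (X : E × ℝ) (v w : E) : ℝ :=
  fderiv ℝ (fderiv ℝ φ) X (v, 0) (w, 0)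

/-- The spatial gradient of `φ`. -/
noncomputable def grad (φ : E × ℝ → ℝ) (X : E × ℝ) : E := ∑ i, dx φ (ee i) X • ee i

/-- The spatial Laplacian of `φ`. -/
noncomputable def lap (φ : E × ℝ → ℝ) (X : E × ℝ) : ℝ := ∑ i, hess φ X (ee i) (ee i)

/-- The outer unit normal of `{φ < 0}`. -/
noncomputable def nu (φ : E × ℝ → ℝ) (X : E × ℝ) : E := ‖grad φ X‖⁻¹ • grad φ X

/-- The orthogonal projection onto the tangent plane. -/
noncomputable def tan (φ : E × ℝ → ℝ) (X : E × ℝ) (v : E) : E := v - ⟪nu φ X, v⟫_ℝ • nu φ X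

/-- The second fundamental form of `{φ = 0}`, extended by zero in the normal direction. -/
noncomputable def sff (φ : E × ℝ → ℝ) (X : E × ℝ) (v w : E) : ℝ :=
  hess φ X (tan φ X v) (tan φ X w) / ‖grad φ X‖

/-- The squared norm of the second fundamental form. -/
noncomputable def sqA (φ : E × ℝ → ℝ) (X : E × ℝ) : ℝ := ∑ i, ∑ j, sff φ X (ee i) (ee j) ^ 2

/-- **Smooth mean curvature flow of closed embedded surfaces** `M_t = {φ(·, t) = 0}`, `0 ≤ t < T`:
the domains `{φ(·, t) < 0}` are bounded (locally uniformly in time), the gradient of `φ` does not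
vanish on `M_t`, and `M_t` moves by its mean curvature,
`φ_t = Δφ - D²φ(ν, ν)` on `M_t` (so that the normal velocity `-φ_t / |∇φ|` is
`-div (∇φ / |∇φ|)`). -/
structure Flow (T : ℝ) (φ : E × ℝ → ℝ) : Prop where
  smooth : ContDiffOn ℝ ∞ φ (univ ×ˢ Iio T)
  bounded : ∀ t₁ < T, ∃ R : ℝ, ∀ t ∈ Icc 0 t₁, ∀ p, φ (p, t) ≤ 0 → ‖p‖ ≤ R
  regular : ∀ t ∈ Ico 0 T, ∀ p, φ (p, t) = 0 → grad φ (p, t) ≠ 0
  moves : ∀ t ∈ Ico 0 T, ∀ p, φ (p, t) = 0 →
    dt φ (p, t) = lap φ (p, t) - hess φ (p, t) (nu φ (p, t)) (nu φ (p, t))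

/-- The reflection in the plane through `0` orthogonal to the unit vector `α`. -/
noncomputable def refl (α p : E) : E := p - (2 * ⟪α, p⟫_ℝ) • α

/-- The domain `{φ(·, t) < 0}` is symmetric under the reflection in `α^⊥`. -/
def Sym (φ : E × ℝ → ℝ) (α : E) (t : ℝ) : Prop := ∀ p, φ (p, t) < 0 → φ (refl α p, t) < 0

/-- `M_t` is a uniform bigraph over the plane `α^⊥` -/
def Big (φ : E × ℝ → ℝ) (ε : ℝ) (α : E) (t : ℝ) : Prop :=
  ∀ p, φ (p, t) = 0 → ε * ⟪α, p⟫_ℝ ^ 2 ≤ ⟪α, p⟫_ℝ * ⟪α, nu φ (p, t)⟫_ℝ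

end Pool.Agent.MCFM
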