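import Pool.Agent.Work.MP_494ea5_gt.Final

/-!
# The singular set of the flow through singularities
-/

open Set Filter Topology Metric
open scoped ContDiff InnerProductSpace

namespace Pool.Agent.MCFM

/-- `X` is a regular point of the space-time set `M ⊆ ℝ³ × [0,∞)`: near `X`, `M` is a smoothly
embedded surface `{ψ(·, t) = 0}` that moves by its mean curvature. -/
def IsRegular (M : Set (E × ℝ)) (X : E × ℝ) : Prop :=
  ∃ ψ : E × ℝ → ℝ, ∃ U : Set (E × ℝ), IsOpen U ∧ X ∈ U ∧ ContDiffOn ℝ ∞ ψ U ∧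
    ∀ Y ∈ U, 0 ≤ Y.2 → (Y ∈ M ↔ ψ Y = 0) ∧ (ψ Y = 0 → grad ψ Y ≠ 0 ∧
      dt ψ Y = lap ψ Y - hess ψ Y (nu ψ Y) (nu ψ Y))

/-- The properties of the support `M ⊆ ℝ³ × [0,∞)` of a weak mean curvature flow that we use: `M` is
closed, and it stays inside of shrinking spheres. -/
structure WeakFlow (M : Set (E × ℝ)) : Prop where
  closed : IsClosed M
  time : ∀ X ∈ M, 0 ≤ X.2
  sphere : ∀ (x : E) (r t₀ : ℝ), 0 ≤ t₀ → 0 < r → (∀ p, (p, t₀) ∈ M → ‖p - x‖ < r) →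
    ∀ t ≥ t₀, ∀ p, (p, t) ∈ M → ‖p - x‖ ^ 2 < r ^ 2 - 4 * (t - t₀)

theorem singular_eq {T : ℝ} {φ : E × ℝ → ℝ} (F : Flow T φ) {S : Set E}
    (hS : ∀ α ∈ S, ‖α‖ = 1) (hspan : Submodule.span ℝ S = ⊤) (hsym : ∀ α ∈ S, Sym φ α 0)
    (h1 : ∀ α ∈ S, ∀ p, φ (p, 0) = 0 → 0 < ⟪α, p⟫_ℝ → 0 < ⟪α, nu φ (p, 0)⟫_ℝ)
    (h2 : ∀ α ∈ S, ∀ p, φ (p, 0) = 0 → ⟪α, p⟫_ℝ = 0 → 0 < hess φ (p, 0) α α)
    (hT : ∀ C : ℝ, ∃ t ∈ Ico 0 T, ∃ p, φ (p, t) = 0 ∧ C < sqA φ (p, t))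
    {M : Set (E × ℝ)} (hM : WeakFlow M)
    (hMφ : ∀ t ∈ Ico 0 T, ∀ p, (p, t) ∈ M ↔ φ (p, t) = 0) :
    {X | X ∈ M ∧ ¬ IsRegular M X} = {(0, T)} := by
  have hsh := (mirrors F hS hsym h1 h2).2 hspan hT
  have hT0 : 0 < T := by
    obtain ⟨t, ht, -⟩ := hT 0
    exact lt_of_le_of_lt ht.1 ht.2
  -- after the time `T`
  have late : ∀ t ≥ T, ∀ p, (p, t) ∈ M → ∀ ρ > 0, ‖p‖ ^ 2 < ρ ^ 2 - 4 * (t - T) := by
    intro t ht p hp ρ hρ
    obtain ⟨t₀, ht₀, hs⟩ := hsh ρ hρ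
    have h3 := hM.sphere 0 ρ t₀ ht₀.1 hρ (fun q hq => by
      rw [sub_zero]
      exact hs t₀ ⟨le_rfl, ht₀.2⟩ q ((hMφ t₀ ht₀ q).1 hq).le) t (ht₀.2.le.trans ht) p hp
    rw [sub_zero] at h3
    have := ht₀.2
    linarith
  have atT : ∀ p, (p, T) ∈ M → p = 0 := by
    intro p hp
    by_contra hne
    have hp0 : 0 < ‖p‖ := norm_pos_iff.2 hne
    have := late T le_rfl p hp ‖p‖ hp0
    linarith
  have after : ∀ t > T, ∀ p, (p, t) ∉ M := by
    intro t ht p hp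
    have h3 : 0 < t - T := by linarith
    have := late t ht.le p hp (√(t - T)) (Real.sqrt_pos.2 h3)
    rw [Real.sq_sqrt h3.le] at this
    have := sq_nonneg ‖p‖
    linarith
  -- the point `(0, T)` is in `M`
  have mem : ((0, T) : E × ℝ) ∈ M := by
    rw [← hM.closed.closure_eq, Metric.mem_closure_iff]
    intro ρ hρ
    obtain ⟨t₀, ht₀, hs⟩ := hsh ρ hρ
    set t₁ := max t₀ (T - ρ / 2) with ht₁
    have ht₁T : t₁ < T := max_lt ht₀.2 (by linarith)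
    have hreg : ∀ X ∈ Kc φ t₁, grad φ X ≠ 0 := fun X hX =>
      F.regular X.2 ⟨hX.1.1, lt_of_le_of_lt hX.1.2 ht₁T⟩ X.1 hX.2
    obtain ⟨C, hC⟩ := (F.compact ht₁T).bddAbove_image (f := sqA φ) fun X hX =>
      (F.cont_sqA (lt_of_le_of_lt hX.1.2 ht₁T) (hreg X hX)).continuousWithinAt
    obtain ⟨t, ht, p, hp, hpC⟩ := hT C
    have htt : t₁ < t := by
      by_contra hc
      push Not at hc
      have hmem : ((p, t) : E × ℝ) ∈ Kc φ t₁ := ⟨⟨ht.1, hc⟩, hp⟩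
      exact absurd (hC ⟨_, hmem, rfl⟩) (not_le.2 hpC)
    refine ⟨(p, t), (hMφ t ht p).2 hp, ?_⟩
    rw [Prod.dist_eq, max_lt_iff]
    refine ⟨?_, ?_⟩
    · rw [dist_zero_left]
      exact hs t ⟨(le_max_left _ _).trans htt.le, ht.2⟩ p hp.le
    · rw [Real.dist_eq, abs_of_pos (by linarith [ht.2])]
      have := (le_max_right t₀ (T - ρ / 2)).trans htt.le
      linarith
  ext X
  simp only [mem_ofPred_eq, mem_singleton_iff]
  constructor
  · rintro ⟨hX, hns⟩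
    rcases lt_trichotomy X.2 T with h | h | h
    · exfalso
      refine hns ⟨φ, {Y | Y.2 < T}, isOpen_lt continuous_snd continuous_const, h,
        F.smooth.mono fun Y hY => ⟨mem_univ _, hY⟩, fun Y hY hY0 => ?_⟩
      exact ⟨hMφ Y.2 ⟨hY0, hY⟩ Y.1, fun hY1 => ⟨F.regular Y.2 ⟨hY0, hY⟩ Y.1 hY1,
        F.moves Y.2 ⟨hY0, hY⟩ Y.1 hY1⟩⟩
    · have hX' : X = (X.1, T) := by rw [← h]
      rw [hX'] at hX ⊢
      rw [atT X.1 hX]
    · exact absurd hX (after X.2 h X.1)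
  · rintro rfl
    refine ⟨mem, ?_⟩
    rintro ⟨ψ, U, hU, hXU, hψ, hUM⟩
    obtain ⟨k1, k2⟩ := hUM _ hXU hT0.le
    have hz := k1.1 mem
    obtain ⟨hg, -⟩ := k2 hz
    have hUn : U ∈ 𝓝 ((0, T) : E × ℝ) := hU.mem_nhds hXU
    have hda : DifferentiableAt ℝ ψ (0, T) :=
      ((hψ _ hXU).contDiffAt hUn).differentiableAt (by simp)
    set g := grad ψ (0, T) with hgdef
    have hgn : 0 < ‖g‖ := norm_pos_iff.2 hg
    have hdx : dx ψ g (0, T) = ‖g‖ ^ 2 := by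
      rw [← inner_grad, ← hgdef, real_inner_self_eq_norm_sq]
    have hd : ∀ c : ℝ, HasDerivAt (fun s : ℝ => ψ ((0 : E) + s • (c • g), T)) (c * ‖g‖ ^ 2) 0 := by
      intro c
      have := Geo.line_deriv (φ := ψ) (p := (0 : E)) (v := c • g) (t := T) (s := 0)
        (by rw [zero_smul, add_zero]; exact hda)
      rw [zero_smul, add_zero, Geo.dx_smul, hdx] at this
      exact this
    have hneg := Geo.neg_of_deriv (hd (-1)) (by rw [zero_smul, add_zero]; exact hz)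
      (by have : 0 < ‖g‖ ^ 2 := by positivity
          linarith)
    have hpos := Geo.neg_of_deriv (hd 1).fun_neg
      (by simp only [zero_smul, add_zero, hz, neg_zero])
      (by have : 0 < ‖g‖ ^ 2 := by positivity
          linarith)
    obtain ⟨ρ, hρ, hb⟩ := Metric.mem_nhds_iff.1 hUn
    have hsm : ∀ᶠ s in 𝓝[>] (0 : ℝ), s * ‖g‖ < ρ := by
      have hc : ContinuousAt (fun s : ℝ => s * ‖g‖) 0 := by fun_prop
      refine mem_nhdsWithin_of_mem_nhds (hc.eventually_lt_const ?_)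
      simpa using hρ
    obtain ⟨s, ⟨⟨hs1, hs2⟩, hs3⟩, hs0⟩ := (((hneg.and hpos).and hsm).and
      self_mem_nhdsWithin).exists
    have hs0' : 0 < s := hs0
    have hin : ∀ σ ∈ Icc (-s) s, ∀ t : ℝ, |t - T| < ρ → ((σ • g, t) : E × ℝ) ∈ U := by
      intro σ hσ t ht
      refine hb ?_
      rw [Metric.mem_ball, Prod.dist_eq, max_lt_iff]
      refine ⟨?_, by rw [Real.dist_eq]; exact ht⟩
      rw [dist_zero_right, norm_smul, Real.norm_eq_abs]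
      exact lt_of_le_of_lt (mul_le_mul_of_nonneg_right (abs_le.2 hσ) hgn.le) hs3
    have hcont : ∀ Y ∈ U, ContinuousAt ψ Y := fun Y hY =>
      ((hψ _ hY).contDiffAt (hU.mem_nhds hY)).continuousAt
    have e1 : (0 : E) + s • ((-1 : ℝ) • g) = (-s) • g := by module
    have e2 : (0 : E) + s • ((1 : ℝ) • g) = s • g := by module
    rw [e1] at hs1
    rw [e2] at hs2
    have hTT : |T - T| < ρ := by rw [sub_self, abs_zero]; exact hρ
    have c1 : ∀ᶠ t in 𝓝 T, ψ ((-s) • g, t) < 0 := by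
      have hc : ContinuousAt (fun t : ℝ => ψ ((-s) • g, t)) T :=
        (hcont _ (hin (-s) ⟨le_rfl, by linarith⟩ T hTT)).comp
          (f := fun t : ℝ => (((-s) • g, t) : E × ℝ)) (by fun_prop)
      exact hc.eventually_lt_const hs1
    have c2 : ∀ᶠ t in 𝓝 T, 0 < ψ (s • g, t) := by
      have hc : ContinuousAt (fun t : ℝ => ψ (s • g, t)) T :=
        (hcont _ (hin s ⟨by linarith, le_rfl⟩ T hTT)).comp
          (f := fun t : ℝ => ((s • g, t) : E × ℝ)) (by fun_prop)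
      exact hc.eventually_const_lt (by linarith)
    have c3 : ∀ᶠ t in 𝓝 T, |t - T| < ρ := by
      have hc : ContinuousAt (fun t : ℝ => |t - T|) T := by fun_prop
      exact hc.eventually_lt_const hTT
    have c4 : ∀ᶠ t in 𝓝[>] T, (ψ ((-s) • g, t) < 0 ∧ 0 < ψ (s • g, t)) ∧ |t - T| < ρ :=
      ((c1.and c2).and c3).filter_mono nhdsWithin_le_nhds
    have c5 : ∀ᶠ t in 𝓝[>] T, t ∈ Ioi T := self_mem_nhdsWithin
    obtain ⟨t, ⟨⟨⟨t1, t2⟩, t3⟩, t4⟩⟩ := (c4.and c5).exists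
    have hcl : ContinuousOn (fun σ : ℝ => ψ (σ • g, t)) (Icc (-s) s) := by
      intro σ hσ
      have : ContinuousAt (fun σ : ℝ => ψ (σ • g, t)) σ :=
        (hcont _ (hin σ hσ t t3)).comp (f := fun σ : ℝ => ((σ • g, t) : E × ℝ)) (by fun_prop)
      exact this.continuousWithinAt
    obtain ⟨σ, hσ, hσ0⟩ := intermediate_value_Icc (by linarith : -s ≤ s) hcl
      (⟨t1.le, t2.le⟩ : (0 : ℝ) ∈ Icc (ψ ((-s) • g, t)) (ψ (s • g, t)))
    have t4' : T < t := t4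
    exact after t t4' (σ • g) (((hUM _ (hin σ hσ t t3) (hT0.le.trans t4'.le)).1).2 hσ0)

end Pool.Agent.MCFM
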