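import Pool.Agent.Work.MP_494ea5_gt.UniqueBase

/-!
# The normals at mirror images, and the natural form of the bigraph condition
-/

open Set Filter Topology Metric
open scoped ContDiff InnerProductSpace

namespace Pool.Agent.MCFM

namespace Geo

variable {T : ℝ} {φ : E × ℝ → ℝ}

/-- Two regular domains, one inside the other, touching at `p`, have the same normal there. -/
lemma nu_eq_of {φ ψ : E × ℝ → ℝ} {p : E} {t : ℝ} (hφ : DifferentiableAt ℝ φ (p, t))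
    (hψ : DifferentiableAt ℝ ψ (p, t)) (h0 : φ (p, t) = 0) (h0' : ψ (p, t) = 0)
    (hg : grad φ (p, t) ≠ 0) (hg' : grad ψ (p, t) ≠ 0)
    (hsub : ∀ q, φ (q, t) < 0 → ψ (q, t) < 0) : nu φ (p, t) = nu ψ (p, t) := by
  set a := nu φ (p, t) with ha
  set b := nu ψ (p, t) with hb
  have ha1 : ‖a‖ = 1 := norm_nu hg
  have hb1 : ‖b‖ = 1 := norm_nu hg'
  have key : ∀ v : E, ⟪a, v⟫_ℝ < 0 → ⟪b, v⟫_ℝ ≤ 0 := by
    intro v hv
    by_contra hcon
    rw [not_le] at hcon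
    have h1 := line_deriv (φ := φ) (p := p) (v := v) (t := t) (s := 0)
      (by rw [zero_smul, add_zero]; exact hφ)
    have h2 := line_deriv (φ := ψ) (p := p) (v := v) (t := t) (s := 0)
      (by rw [zero_smul, add_zero]; exact hψ)
    rw [zero_smul, add_zero, dx_nu hg] at h1
    rw [zero_smul, add_zero, dx_nu hg'] at h2
    have h3 := neg_of_deriv h1 (by rw [zero_smul, add_zero]; exact h0)
      (mul_neg_of_pos_of_neg (norm_pos_iff.2 hg) hv)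
    have h4 := neg_of_deriv (g := fun s : ℝ => -ψ (p + s • v, t)) h2.neg
      (by rw [zero_smul, add_zero, h0', neg_zero])
      (by
        have := mul_pos (norm_pos_iff.2 hg') hcon
        linarith)
    obtain ⟨s, h5, h6⟩ := (h3.and h4).exists
    have h7 := hsub _ h5
    have h6' : -ψ (p + s • v, t) < 0 := h6
    linarith
  have key' : ∀ v : E, ⟪a, v⟫_ℝ ≤ 0 → ⟪b, v⟫_ℝ ≤ 0 := by
    intro v hv
    have h1 : ∀ s : ℝ, 0 < s → ⟪b, v - s • a⟫_ℝ ≤ 0 := by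
      intro s hs
      apply key
      rw [inner_sub_right, real_inner_smul_right, real_inner_self_eq_norm_sq, ha1]
      nlinarith
    by_contra hcon
    rw [not_le] at hcon
    have h2 := h1 (⟪b, v⟫_ℝ / 2) (by linarith)
    rw [inner_sub_right, real_inner_smul_right] at h2
    have h3 : ⟪b, a⟫_ℝ ≤ 1 := by
      have := real_inner_le_norm b a
      rwa [ha1, hb1, one_mul] at this
    nlinarith
  have h1 : ⟪a, b⟫_ℝ ^ 2 = 1 := by
    have h2 := key' (b - ⟪a, b⟫_ℝ • a) (by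
      rw [inner_sub_right, real_inner_smul_right, real_inner_self_eq_norm_sq, ha1]; linarith)
    rw [inner_sub_right, real_inner_smul_right, real_inner_self_eq_norm_sq, hb1,
      real_inner_comm a b] at h2
    have h3 : |⟪a, b⟫_ℝ| ≤ 1 := by
      have := abs_real_inner_le_norm a b
      rwa [ha1, hb1, one_mul] at this
    have h4 : ⟪a, b⟫_ℝ ^ 2 ≤ 1 := by rw [← sq_abs]; nlinarith [abs_nonneg ⟪a, b⟫_ℝ]
    nlinarith
  have h2 : ⟪a, b⟫_ℝ = 1 := by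
    have h1' : ⟪a, b⟫_ℝ * ⟪a, b⟫_ℝ = 1 := by rw [← sq]; exact h1
    rcases mul_self_eq_one_iff.1 h1' with h | h
    · exact h
    · exfalso
      have h3 : b = -a := by
        have h4 : ‖b + a‖ ^ 2 = 0 := by
          rw [← real_inner_self_eq_norm_sq, inner_add_left, inner_add_right, inner_add_right,
            real_inner_self_eq_norm_sq, real_inner_self_eq_norm_sq, ha1, hb1,
            real_inner_comm a b, h]
          norm_num
        have h5 : ‖b + a‖ = 0 := by simpa using h4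
        exact eq_neg_of_add_eq_zero_left (norm_eq_zero.1 h5)
      have h4 := key (-a) (by rw [inner_neg_right, real_inner_self_eq_norm_sq, ha1]; norm_num)
      rw [h3, inner_neg_neg, real_inner_self_eq_norm_sq, ha1] at h4
      norm_num at h4
  have h3 : ‖a - b‖ ^ 2 = 0 := by
    rw [← real_inner_self_eq_norm_sq, inner_sub_left, inner_sub_right, inner_sub_right,
      real_inner_self_eq_norm_sq, real_inner_self_eq_norm_sq, ha1, hb1,
      real_inner_comm a b, h2]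
    norm_num
  have h4 : ‖a - b‖ = 0 := by simpa using h3
  exact sub_eq_zero.1 (norm_eq_zero.1 h4)

/-- the mirror image of a point of `M_t` is in `M_t` -/
lemma sym_zero (F : Flow T φ) {t : ℝ} (ht : t ∈ Ico 0 T) {α : E} (hα : ‖α‖ = 1)
    (hs : Sym φ α t) {p : E} (hp : φ (p, t) = 0) : φ (refl α p, t) = 0 := by
  refine le_antisymm (sym_le F ht hs hp.le) (not_lt.1 fun h => ?_)
  have h1 := hs _ h
  rw [refl_refl hα, hp] at h1
  exact lt_irrefl _ h1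

/-- the normals at mirror images -/
lemma nu_refl (F : Flow T φ) {t : ℝ} (ht : t ∈ Ico 0 T) {α : E} (hα : ‖α‖ = 1)
    (hs : Sym φ α t) {p : E} (hp : φ (p, t) = 0) :
    nu φ (refl α p, t) = refl α (nu φ (p, t)) := by
  have hd : DifferentiableAt ℝ φ (refl α p, t) := da F ht.2
  have F' := reflected F hα
  have h1 := nu_eq_of (φ := φ) (ψ := rf α φ) (p := p) (t := t) (da F ht.2)
    (da F' ht.2) hp (by rw [rf_apply]; exact sym_zero F ht hα hs hp) (F.regular t ht p hp)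
    (F'.regular t ht p (by rw [rf_apply]; exact sym_zero F ht hα hs hp))
    (fun q hq => by rw [rf_apply]; exact hs q hq)
  rw [h1, nu_rf hα hd, refl_refl hα]

lemma inner_alpha_refl {α : E} (hα : ‖α‖ = 1) (v : E) : ⟪α, refl α v⟫_ℝ = -⟪α, v⟫_ℝ := by
  unfold refl
  rw [inner_sub_right, real_inner_smul_right, real_inner_self_eq_norm_sq, hα]
  ring

lemma refl_of_mirror {α p : E} (h : ⟪α, p⟫_ℝ = 0) : refl α p = p := by
  unfold refl
  rw [h]; simp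

/-- the normal is tangent to the mirror -/
lemma nu_mirror (F : Flow T φ) {t : ℝ} (ht : t ∈ Ico 0 T) {α : E} (hα : ‖α‖ = 1)
    (hs : Sym φ α t) {p : E} (hp : φ (p, t) = 0) (h0 : ⟪α, p⟫_ℝ = 0) :
    ⟪α, nu φ (p, t)⟫_ℝ = 0 := by
  have h1 := nu_refl F ht hα hs hp
  rw [refl_of_mirror h0] at h1
  have h2 := inner_alpha_refl hα (nu φ (p, t))
  rw [← h1] at h2
  linarith

/-- the derivative of the normal component at the mirror -/
lemma dx_comp {X : E × ℝ} (h : ContDiffAt ℝ ∞ φ X) (hg : grad φ X ≠ 0) {α : E}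
    (h0 : ⟪α, nu φ X⟫_ℝ = 0) :
    dx (fun Y => ⟪α, nu φ Y⟫_ℝ) α X = ‖grad φ X‖⁻¹ * hess φ X α α := by
  have h1 : (fun Y => ⟪α, nu φ Y⟫_ℝ) = fun Y => ‖grad φ Y‖⁻¹ * dx φ α Y := by
    funext Y
    rw [nu, real_inner_smul_right, real_inner_comm, inner_grad]
  have hN : DifferentiableAt ℝ (fun Y => ‖grad φ Y‖⁻¹) X :=
    (((cd_grad h).norm ℝ hg).inv (norm_ne_zero_iff.2 hg)).differentiableAt (by simp)
  have hD : DifferentiableAt ℝ (dx φ α) X := (cd_dx h α).differentiableAt (by simp)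
  have h2 := (hN.hasFDerivAt.mul hD.hasFDerivAt).fderiv
  have h3 : dx φ α X = 0 := by
    rw [dx_nu hg, real_inner_comm, h0, mul_zero]
  unfold dx at h3 ⊢
  rw [h1]
  have h4 : fderiv ℝ (fun Y => ‖grad φ Y‖⁻¹ * dx φ α Y) X = _ := h2
  rw [h4, hess_eq h]
  have h5 : dx φ α X = 0 := h3
  simp [h5]

/-- the local form of the estimate -/
lemma big_loc (F : Flow T φ) (hT : 0 < T) {α : E} (hα : ‖α‖ = 1) (h0 : Sym φ α 0)
    (h1 : ∀ p, φ (p, 0) = 0 → 0 < ⟪α, p⟫_ℝ → 0 < ⟪α, nu φ (p, 0)⟫_ℝ)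
    (h2 : ∀ p, φ (p, 0) = 0 → ⟪α, p⟫_ℝ = 0 → 0 < hess φ (p, 0) α α)
    {p₀ : E} (hp₀ : φ (p₀, 0) = 0) :
    ∃ ε > 0, ∀ᶠ p in 𝓝 p₀, φ (p, 0) = 0 →
      ε * ⟪α, p⟫_ℝ ^ 2 ≤ ⟪α, p⟫_ℝ * ⟪α, nu φ (p, 0)⟫_ℝ := by
  have ht : (0:ℝ) ∈ Ico 0 T := ⟨le_rfl, hT⟩
  have hcd : ContDiffAt ℝ ∞ φ (p₀, 0) := cd F hT
  have hg : grad φ (p₀, 0) ≠ 0 := F.regular 0 ht p₀ hp₀
  have hGcd : ContDiffAt ℝ ∞ (fun Y => ⟪α, nu φ Y⟫_ℝ) (p₀, 0) :=
    contDiffAt_const.inner ℝ (cd_nu hcd hg)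
  have hpair : Continuous fun p : E => ((p, 0) : E × ℝ) := by fun_prop
  by_cases hz : ⟪α, p₀⟫_ℝ = 0
  · -- at the mirror
    have hder := dx_comp hcd hg (nu_mirror F ht hα h0 hp₀ hz)
    set c : ℝ := ‖grad φ (p₀, 0)‖⁻¹ * hess φ (p₀, 0) α α with hc
    have hc0 : 0 < c := mul_pos (inv_pos.2 (norm_pos_iff.2 hg)) (h2 p₀ hp₀ hz)
    have hcont : ContinuousAt (dx (fun Y => ⟪α, nu φ Y⟫_ℝ) α) (p₀, 0) :=
      (cd_dx hGcd α).continuousAt
    have hev : ∀ᶠ Y in 𝓝 ((p₀, 0) : E × ℝ), c / 2 < dx (fun Y => ⟪α, nu φ Y⟫_ℝ) α Y ∧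
        ContDiffAt ℝ 1 (fun Y => ⟪α, nu φ Y⟫_ℝ) Y := by
      refine (hcont.eventually (Ioi_mem_nhds (by rw [hder]; linarith))).and ?_
      exact (hGcd.of_le (by norm_num : (1 : WithTop ℕ∞) ≤ ∞)).eventually (by simp)
    obtain ⟨ρ, hρ, hball⟩ := Metric.eventually_nhds_iff_ball.1
      ((hpair.tendsto p₀).eventually hev)
    refine ⟨c / 2, half_pos hc0, ?_⟩
    filter_upwards [Metric.ball_mem_nhds p₀ hρ] with p hp hp0
    have hα1 : ⟪α, α⟫_ℝ = 1 := by rw [real_inner_self_eq_norm_sq, hα]; norm_num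
    set x : ℝ := ⟪α, p⟫_ℝ with hx
    -- the segment
    have hdist : ∀ s : ℝ, |s| ≤ |x| → p - x • α + s • α ∈ ball p₀ ρ := by
      intro s hs
      rw [mem_ball, dist_eq_norm] at hp ⊢
      have e1 : ‖p - x • α + s • α - p₀‖ ^ 2 = ‖p - p₀‖ ^ 2 - x ^ 2 + s ^ 2 := by
        have e2 : p - x • α + s • α - p₀ = (p - p₀) + (s - x) • α := by module
        have e3 : ⟪p - p₀, α⟫_ℝ = x := by
          rw [real_inner_comm, inner_sub_right, hz, sub_zero]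
        rw [e2, norm_add_sq_real, real_inner_smul_right, e3, norm_smul, hα, mul_one,
          Real.norm_eq_abs, sq_abs]
        ring
      have e4 : s ^ 2 ≤ x ^ 2 := sq_le_sq.2 hs
      have e5 : ‖p - x • α + s • α - p₀‖ ^ 2 ≤ ‖p - p₀‖ ^ 2 := by rw [e1]; linarith
      have e6 : ‖p - x • α + s • α - p₀‖ ≤ ‖p - p₀‖ :=
        (sq_le_sq₀ (norm_nonneg _) (norm_nonneg _)).1 e5
      exact e6.trans_lt hp
    let g : ℝ → ℝ := fun s => ⟪α, nu φ (p - x • α + s • α, 0)⟫_ℝ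
    have hg' : ∀ s : ℝ, |s| ≤ |x| → HasDerivAt g
        (dx (fun Y => ⟪α, nu φ Y⟫_ℝ) α (p - x • α + s • α, 0)) s := by
      intro s hs
      exact line_deriv (φ := fun Y => ⟪α, nu φ Y⟫_ℝ)
        ((hball _ (hdist s hs)).2.differentiableAt (by simp))
    have hmv : ∀ a b : ℝ, a ≤ b → |a| ≤ |x| → |b| ≤ |x| → c / 2 * (b - a) ≤ g b - g a := by
      intro a b hab ha hb
      have hmem : ∀ s ∈ Icc a b, |s| ≤ |x| := by
        intro s hs
        rw [abs_le] at ha hb ⊢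
        exact ⟨ha.1.trans hs.1, hs.2.trans hb.2⟩
      refine Convex.mul_sub_le_image_sub_of_le_deriv (convex_Icc a b)
        (fun s hs => (hg' s (hmem s hs)).continuousAt.continuousWithinAt)
        (fun s hs => (hg' s (hmem s (interior_subset hs))).differentiableAt.differentiableWithinAt)
        (fun s hs => ?_) a (left_mem_Icc.2 hab) b (right_mem_Icc.2 hab) hab
      rw [(hg' s (hmem s (interior_subset hs))).deriv]
      exact (hball _ (hdist s (hmem s (interior_subset hs)))).1.le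
    have hgx : g x = ⟪α, nu φ (p, 0)⟫_ℝ := by
      show ⟪α, nu φ (p - x • α + x • α, 0)⟫_ℝ = _
      rw [sub_add_cancel]
    have hgmx : g (-x) = -⟪α, nu φ (p, 0)⟫_ℝ := by
      show ⟪α, nu φ (p - x • α + (-x) • α, 0)⟫_ℝ = _
      have e1 : p - x • α + (-x) • α = refl α p := by
        unfold refl
        rw [← hx]; module
      rw [e1, nu_refl F ht hα h0 hp0, inner_alpha_refl hα]
    rcases le_total 0 x with hx0 | hx0
    · have h3 := hmv (-x) x (by linarith) (by rw [abs_neg]) le_rfl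
      rw [hgx, hgmx] at h3
      nlinarith
    · have h3 := hmv x (-x) (by linarith) le_rfl (by rw [abs_neg])
      rw [hgx, hgmx] at h3
      nlinarith
  · -- away from the mirror
    have hpos : 0 < ⟪α, p₀⟫_ℝ * ⟪α, nu φ (p₀, 0)⟫_ℝ := by
      rcases lt_or_gt_of_ne hz with h | h
      · have h3 := h1 (refl α p₀) (sym_zero F ht hα h0 hp₀)
          (by rw [inner_alpha_refl hα]; linarith)
        rw [nu_refl F ht hα h0 hp₀, inner_alpha_refl hα] at h3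
        exact mul_pos_of_neg_of_neg h (by linarith)
      · exact mul_pos h (h1 p₀ hp₀ h)
    have hsq : 0 < ⟪α, p₀⟫_ℝ ^ 2 := by positivity
    refine ⟨⟪α, p₀⟫_ℝ * ⟪α, nu φ (p₀, 0)⟫_ℝ / (2 * ⟪α, p₀⟫_ℝ ^ 2), by positivity, ?_⟩
    set ε := ⟪α, p₀⟫_ℝ * ⟪α, nu φ (p₀, 0)⟫_ℝ / (2 * ⟪α, p₀⟫_ℝ ^ 2) with hε
    have hcont : ContinuousAt (fun p : E => ⟪α, p⟫_ℝ * ⟪α, nu φ (p, 0)⟫_ℝ - ε * ⟪α, p⟫_ℝ ^ 2)
        p₀ := by
      have e1 : ContinuousAt (fun p : E => ⟪α, nu φ (p, 0)⟫_ℝ) p₀ :=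
        ContinuousAt.comp (f := fun p : E => ((p, 0) : E × ℝ))
          (g := fun Y => ⟪α, nu φ Y⟫_ℝ) hGcd.continuousAt hpair.continuousAt
      have e2 : ContinuousAt (fun p : E => ⟪α, p⟫_ℝ) p₀ := by fun_prop
      exact (e2.mul e1).sub (continuousAt_const.mul (e2.pow 2))
    have hval : 0 < ⟪α, p₀⟫_ℝ * ⟪α, nu φ (p₀, 0)⟫_ℝ - ε * ⟪α, p₀⟫_ℝ ^ 2 := by
      have e3 : ε * ⟪α, p₀⟫_ℝ ^ 2 = ⟪α, p₀⟫_ℝ * ⟪α, nu φ (p₀, 0)⟫_ℝ / 2 := by
        rw [hε]; field_simp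
      rw [e3]; linarith
    filter_upwards [hcont.eventually (Ioi_mem_nhds hval)] with p hp _
    have : 0 < ⟪α, p⟫_ℝ * ⟪α, nu φ (p, 0)⟫_ℝ - ε * ⟪α, p⟫_ℝ ^ 2 := hp
    linarith

end Geo

open Geo in
/-- The natural form of the bigraph hypothesis: the normal component is positive on one side and
the surface is strictly curved across the mirror. -/
theorem Flow.exists_big {T : ℝ} {φ : E × ℝ → ℝ} (F : Flow T φ) (hT : 0 < T) {α : E}
    (hα : ‖α‖ = 1) (h0 : Sym φ α 0)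
    (h1 : ∀ p, φ (p, 0) = 0 → 0 < ⟪α, p⟫_ℝ → 0 < ⟪α, nu φ (p, 0)⟫_ℝ)
    (h2 : ∀ p, φ (p, 0) = 0 → ⟪α, p⟫_ℝ = 0 → 0 < hess φ (p, 0) α α) :
    ∃ ε > 0, Big φ ε α 0 := by
  have hK : IsCompact {p : E | φ (p, 0) = 0} := by
    refine isCompact_of_isClosed_isBounded (isClosed_eq (cont_t F hT) continuous_const) ?_
    obtain ⟨R, hR⟩ := F.bounded 0 hT
    exact isBounded_iff_forall_norm_le.2 ⟨R, fun p hp => hR 0 ⟨le_rfl, le_rfl⟩ p (le_of_eq hp)⟩
  have h3 : ∃ ε > 0, ∀ p ∈ {p : E | φ (p, 0) = 0}, φ (p, 0) = 0 →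
      ε * ⟪α, p⟫_ℝ ^ 2 ≤ ⟪α, p⟫_ℝ * ⟪α, nu φ (p, 0)⟫_ℝ := by
    refine hK.induction_on (p := fun s => ∃ ε > 0, ∀ p ∈ s, φ (p, 0) = 0 →
      ε * ⟪α, p⟫_ℝ ^ 2 ≤ ⟪α, p⟫_ℝ * ⟪α, nu φ (p, 0)⟫_ℝ) ?_ ?_ ?_ ?_
    · exact ⟨1, one_pos, fun p hp => hp.elim⟩
    · rintro s t hst ⟨ε, hε, h⟩
      exact ⟨ε, hε, fun p hp => h p (hst hp)⟩
    · rintro s t ⟨ε, hε, h⟩ ⟨ε', hε', h'⟩
      refine ⟨min ε ε', lt_min hε hε', fun p hp hp0 => ?_⟩
      rcases hp with hp | hp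
      · exact (mul_le_mul_of_nonneg_right (min_le_left _ _) (sq_nonneg _)).trans (h p hp hp0)
      · exact (mul_le_mul_of_nonneg_right (min_le_right _ _) (sq_nonneg _)).trans (h' p hp hp0)
    · intro p hp
      obtain ⟨ε, hε, h⟩ := big_loc F hT hα h0 h1 h2 hp
      exact ⟨_, mem_nhdsWithin_of_mem_nhds h, ε, hε, fun q hq => hq⟩
  obtain ⟨ε, hε, h⟩ := h3
  exact ⟨ε, hε, fun p hp => h p hp hp⟩

end Pool.Agent.MCFM
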