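import Pool.Agent.Work.MP_494ea5_gt.Calc

/-!
# Evolution equations at the centre of a graph over the tangent plane
-/

open Set Filter Topology
open scoped ContDiff

namespace Pool.Agent.MCFM

/-- mixed jets -/
structure MJ (v w : R3) (f : R3 → ℝ) (Y : R3) (a b c : ℝ) : Prop where
  cd : ContDiffAt ℝ 2 f Y
  ha : D v f Y = a
  hb : D w f Y = b
  hc : D v (D w f) Y = c

namespace MJ

variable {v w : R3} {f g : R3 → ℝ} {Y : R3} {a b c a' b' c' : ℝ}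

theorem da (h : MJ v w f Y a b c) : DifferentiableAt ℝ f Y := h.cd.differentiableAt (by norm_num)

theorem dd (h : MJ v w f Y a b c) (z : R3) : DifferentiableAt ℝ (D z f) Y :=
  (D_contDiffAt h.cd (m := 1) (by norm_num) z).differentiableAt (by norm_num)

theorem ev (h : MJ v w f Y a b c) : ∀ᶠ Z in 𝓝 Y, DifferentiableAt ℝ f Z :=
  (ev_contDiffAt (n := 2) h.cd).mono fun _ hZ => hZ.differentiableAt (by norm_num)

theorem of_cd (h : ContDiffAt ℝ 2 f Y) : MJ v w f Y (D v f Y) (D w f Y) (D v (D w f) Y) :=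
  ⟨h, rfl, rfl, rfl⟩

theorem const (k : ℝ) : MJ v w (fun _ => k) Y 0 0 0 := by
  refine ⟨contDiffAt_const, D_const _ _ _, D_const _ _ _, ?_⟩
  have h : ∀ v : R3, D v (fun _ : R3 => k) = fun _ => 0 := fun v => funext fun Z => D_const k v Z
  rw [h, D_const]

theorem congr (h : MJ v w f Y a b c) (e : f =ᶠ[𝓝 Y] g) : MJ v w g Y a b c := by
  refine ⟨h.cd.congr_of_eventuallyEq e.symm, ?_, ?_, ?_⟩
  · rw [← D_congr e, h.ha]
  · rw [← D_congr e, h.hb]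
  · rw [← D_congr (D_eventuallyEq e w), h.hc]

theorem of_eq (h : MJ v w f Y a b c) (ha : a = a') (hb : b = b') (hc : c = c') :
    MJ v w f Y a' b' c' := by
  subst ha hb hc
  exact h

theorem add (h : MJ v w f Y a b c) (h' : MJ v w g Y a' b' c') :
    MJ v w (fun Z => f Z + g Z) Y (a + a') (b + b') (c + c') := by
  have hD : D w (fun Z => f Z + g Z) =ᶠ[𝓝 Y] fun Z => D w f Z + D w g Z := by
    filter_upwards [h.ev, h'.ev] with Z h1 h2 using D_add h1 h2 w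
  refine ⟨h.cd.add h'.cd, ?_, ?_, ?_⟩
  · rw [D_add h.da h'.da, h.ha, h'.ha]
  · rw [D_add h.da h'.da, h.hb, h'.hb]
  · rw [D_congr hD, D_add (h.dd w) (h'.dd w), h.hc, h'.hc]

theorem mul (h : MJ v w f Y a b c) (h' : MJ v w g Y a' b' c') :
    MJ v w (fun Z => f Z * g Z) Y (f Y * a' + g Y * a) (f Y * b' + g Y * b)
      (f Y * c' + g Y * c + a * b' + a' * b) := by
  have hD : D w (fun Z => f Z * g Z) =ᶠ[𝓝 Y] fun Z => f Z * D w g Z + g Z * D w f Z := by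
    filter_upwards [h.ev, h'.ev] with Z h1 h2 using D_mul h1 h2 w
  refine ⟨h.cd.mul h'.cd, ?_, ?_, ?_⟩
  · rw [D_mul h.da h'.da, h.ha, h'.ha]
  · rw [D_mul h.da h'.da, h.hb, h'.hb]
  · rw [D_congr hD, D_add (h.da.fun_mul (h'.dd w)) (h'.da.fun_mul (h.dd w)),
      D_mul h.da (h'.dd w), D_mul h'.da (h.dd w), h.hc, h'.hc, h.ha, h'.ha, h.hb, h'.hb]
    ring

theorem const_mul (k : ℝ) (h : MJ v w f Y a b c) :
    MJ v w (fun Z => k * f Z) Y (k * a) (k * b) (k * c) :=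
  ((MJ.const k).mul h).of_eq (by ring) (by ring) (by ring)

theorem unique (h : MJ v w f Y a b c) (h' : MJ v w f Y a' b' c') : a = a' ∧ b = b' ∧ c = c' :=
  ⟨h.ha.symm.trans h'.ha, h.hb.symm.trans h'.hb, h.hc.symm.trans h'.hc⟩

end MJ

/-- A graph over its tangent plane at `Y`, moving by mean curvature. -/
structure TG (u : R3 → ℝ) (Y : R3) : Prop where
  cd : ContDiffAt ℝ 4 u Y
  z1 : D v1 u Y = 0
  z2 : D v2 u Y = 0
  eqn : ∀ᶠ Z in 𝓝 Y, (1 + D v1 u Z ^ 2 + D v2 u Z ^ 2) * D v3 u Z =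
    (1 + D v2 u Z ^ 2) * D v1 (D v1 u) Z - 2 * D v1 u Z * D v2 u Z * D v1 (D v2 u) Z +
      (1 + D v1 u Z ^ 2) * D v2 (D v2 u) Z

namespace TG

variable {u : R3 → ℝ} {Y : R3}

theorem cd1 (h : TG u Y) (v : R3) : ContDiffAt ℝ 3 (D v u) Y :=
  D_contDiffAt h.cd (by norm_num) v

theorem cd2 (h : TG u Y) (v w : R3) : ContDiffAt ℝ 2 (D v (D w u)) Y :=
  D_contDiffAt (h.cd1 w) (by norm_num) v

theorem c1 (h : TG u Y) : D v2 (D v1 u) =ᶠ[𝓝 Y] D v1 (D v2 u) :=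
  D_comm_ev (h.cd.of_le (by norm_num)) v2 v1

theorem e0 (h : TG u Y) : D v3 u Y = D v1 (D v1 u) Y + D v2 (D v2 u) Y := by
  have := h.eqn.self_of_nhds
  rw [h.z1, h.z2] at this
  linear_combination this

/-- third derivatives of the equation -/
theorem e1 (h : TG u Y) (v : R3) :
    D v (D v3 u) Y = D v (D v1 (D v1 u)) Y + D v (D v2 (D v2 u)) Y := by
  have hp := MJ.of_cd (v := v) (w := v) ((h.cd1 v1).of_le (n := 3) (m := 2) (by norm_num))
  have hq := MJ.of_cd (v := v) (w := v) ((h.cd1 v2).of_le (n := 3) (m := 2) (by norm_num))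
  have ht := MJ.of_cd (v := v) (w := v) ((h.cd1 v3).of_le (n := 3) (m := 2) (by norm_num))
  have hr := MJ.of_cd (v := v) (w := v) (h.cd2 v1 v1)
  have hs := MJ.of_cd (v := v) (w := v) (h.cd2 v1 v2)
  have hu := MJ.of_cd (v := v) (w := v) (h.cd2 v2 v2)
  have hL := ((((MJ.const 1).add (hp.mul hp)).add (hq.mul hq)).mul ht).congr
    (g := fun Z => (1 + D v1 u Z ^ 2 + D v2 u Z ^ 2) * D v3 u Z)
    (Eventually.of_forall fun Z => by ring)
  have hR := ((((MJ.const 1).add (hq.mul hq)).mul hr).add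
    ((((hp.mul hq).mul hs).const_mul (-2)).add
    (((MJ.const 1).add (hp.mul hp)).mul hu))).congr
    (g := fun Z => (1 + D v2 u Z ^ 2) * D v1 (D v1 u) Z - 2 * D v1 u Z * D v2 u Z *
      D v1 (D v2 u) Z + (1 + D v1 u Z ^ 2) * D v2 (D v2 u) Z)
    (Eventually.of_forall fun Z => by ring)
  have := (hL.unique (hR.congr (h.eqn.mono fun Z hZ => hZ.symm))).1
  rw [h.z1, h.z2] at this
  linear_combination this

/-- fourth derivatives of the equation -/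
theorem e2 (h : TG u Y) (v w : R3) :
    D v (D w (D v3 u)) Y = D v (D w (D v1 (D v1 u))) Y + D v (D w (D v2 (D v2 u))) Y
      + 2 * D v (D v2 u) Y * D w (D v2 u) Y * D v1 (D v1 u) Y
      - 2 * (D v (D v1 u) Y * D w (D v2 u) Y + D w (D v1 u) Y * D v (D v2 u) Y) *
        D v1 (D v2 u) Y
      + 2 * D v (D v1 u) Y * D w (D v1 u) Y * D v2 (D v2 u) Y
      - (D v1 (D v1 u) Y + D v2 (D v2 u) Y) *
        (2 * D v (D v1 u) Y * D w (D v1 u) Y + 2 * D v (D v2 u) Y * D w (D v2 u) Y) := by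
  have hp := MJ.of_cd (v := v) (w := w) ((h.cd1 v1).of_le (n := 3) (m := 2) (by norm_num))
  have hq := MJ.of_cd (v := v) (w := w) ((h.cd1 v2).of_le (n := 3) (m := 2) (by norm_num))
  have ht := MJ.of_cd (v := v) (w := w) ((h.cd1 v3).of_le (n := 3) (m := 2) (by norm_num))
  have hr := MJ.of_cd (v := v) (w := w) (h.cd2 v1 v1)
  have hs := MJ.of_cd (v := v) (w := w) (h.cd2 v1 v2)
  have hu := MJ.of_cd (v := v) (w := w) (h.cd2 v2 v2)
  have hL := ((((MJ.const 1).add (hp.mul hp)).add (hq.mul hq)).mul ht).congr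
    (g := fun Z => (1 + D v1 u Z ^ 2 + D v2 u Z ^ 2) * D v3 u Z)
    (Eventually.of_forall fun Z => by ring)
  have hR := ((((MJ.const 1).add (hq.mul hq)).mul hr).add
    ((((hp.mul hq).mul hs).const_mul (-2)).add
    (((MJ.const 1).add (hp.mul hp)).mul hu))).congr
    (g := fun Z => (1 + D v2 u Z ^ 2) * D v1 (D v1 u) Z - 2 * D v1 u Z * D v2 u Z *
      D v1 (D v2 u) Z + (1 + D v1 u Z ^ 2) * D v2 (D v2 u) Z)
    (Eventually.of_forall fun Z => by ring)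
  have := (hL.unique (hR.congr (h.eqn.mono fun Z hZ => hZ.symm))).2.2
  rw [h.z1, h.z2] at this
  rw [← h.e0]
  linear_combination this

/-- swap two derivatives under two more -/
theorem sw (h : TG u Y) (a b c d : R3) :
    D a (D b (D c (D d u))) Y = D c (D d (D a (D b u))) Y := by
  have k1 : D c (D d u) =ᶠ[𝓝 Y] D d (D c u) := D_comm_ev (h.cd.of_le (by norm_num)) c d
  have k2 : ∀ x y z : R3, D x (D y (D z u)) =ᶠ[𝓝 Y] D y (D x (D z u)) := fun x y z =>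
    D_comm_ev ((h.cd1 z).of_le (by norm_num)) x y
  have k3 : ∀ x y : R3, D x (D y u) =ᶠ[𝓝 Y] D y (D x u) := fun x y =>
    D_comm_ev (h.cd.of_le (by norm_num)) x y
  -- `a b c d → a c b d → c a b d → c a d b → c d a b`
  rw [D_congr (k2 b c d), D_comm (D_contDiffAt ((h.cd1 d)) (by norm_num) b) a c,
    D_congr (D_eventuallyEq (k3 b d) a) c, D_congr (k2 a d b) c]

theorem sw3 (h : TG u Y) (a b c : R3) :
    D a (D b (D c u)) Y = D c (D a (D b u)) Y := by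
  have k3 : ∀ x y : R3, D x (D y u) =ᶠ[𝓝 Y] D y (D x u) := fun x y =>
    D_comm_ev (h.cd.of_le (by norm_num)) x y
  rw [D_congr (k3 b c), D_comm ((h.cd1 b).of_le (by norm_num)) a c]

/-- shorthand for the second derivatives at the centre -/
noncomputable def r (u : R3 → ℝ) (Y : R3) : ℝ := D v1 (D v1 u) Y
noncomputable def s (u : R3 → ℝ) (Y : R3) : ℝ := D v1 (D v2 u) Y
noncomputable def t (u : R3 → ℝ) (Y : R3) : ℝ := D v2 (D v2 u) Y

theorem ju (h : TG u Y) : PJ u Y 0 0 0 :=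
  ⟨h.cd.of_le (by norm_num), h.z1, h.z2, by rw [h.e0]; ring⟩

theorem jp (h : TG u Y) : PJ (D v1 u) Y (r u Y) (s u Y) 0 := by
  refine ⟨(h.cd1 v1).of_le (by norm_num), rfl, ?_, ?_⟩
  · exact h.c1.self_of_nhds
  · rw [D_comm (h.cd.of_le (by norm_num)) v3 v1, h.e1, h.sw3 v2 v2 v1]
    ring

theorem jq (h : TG u Y) : PJ (D v2 u) Y (s u Y) (t u Y) 0 := by
  refine ⟨(h.cd1 v2).of_le (by norm_num), rfl, rfl, ?_⟩
  rw [D_comm (h.cd.of_le (by norm_num)) v3 v2, h.e1, h.sw3 v1 v1 v2]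
  ring

/-- the third derivatives at the centre -/
noncomputable def c0 (u : R3 → ℝ) (Y : R3) : ℝ := D v1 (D v1 (D v1 u)) Y
noncomputable def c1' (u : R3 → ℝ) (Y : R3) : ℝ := D v2 (D v1 (D v1 u)) Y
noncomputable def c2 (u : R3 → ℝ) (Y : R3) : ℝ := D v1 (D v2 (D v2 u)) Y
noncomputable def c3 (u : R3 → ℝ) (Y : R3) : ℝ := D v2 (D v2 (D v2 u)) Y

theorem jr (h : TG u Y) : PJ (D v1 (D v1 u)) Y (c0 u Y) (c1' u Y)
    (-2 * (r u Y ^ 3 + 2 * r u Y * s u Y ^ 2 + s u Y ^ 2 * t u Y)) := by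
  refine ⟨h.cd2 v1 v1, rfl, rfl, ?_⟩
  have e := h.e2 v1 v1
  have k : D v3 (D v1 (D v1 u)) Y = D v1 (D v1 (D v3 u)) Y := h.sw3 v3 v1 v1 |>.trans
    (D_congr (D_comm_ev (h.cd.of_le (by norm_num)) v3 v1) v1)
  rw [k, e, h.sw v1 v1 v2 v2]
  simp only [r, s, t]
  ring

theorem js (h : TG u Y) : PJ (D v1 (D v2 u)) Y (c1' u Y) (c2 u Y)
    (-2 * (r u Y ^ 2 * s u Y + r u Y * s u Y * t u Y + s u Y ^ 3 + s u Y * t u Y ^ 2)) := by
  refine ⟨h.cd2 v1 v2, ?_, ?_, ?_⟩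
  · exact h.sw3 v1 v1 v2
  · exact D_comm ((h.cd1 v2).of_le (by norm_num)) v2 v1
  have e := h.e2 v1 v2
  have k : D v3 (D v1 (D v2 u)) Y = D v1 (D v2 (D v3 u)) Y := by
    rw [h.sw3 v1 v2 v3]
  have k1 : D v2 (D v1 u) Y = D v1 (D v2 u) Y := h.c1.self_of_nhds
  rw [k, e, h.sw v1 v2 v2 v2, h.sw v1 v2 v1 v1, k1]
  simp only [r, s, t]
  ring

theorem jt (h : TG u Y) : PJ (D v2 (D v2 u)) Y (c2 u Y) (c3 u Y)
    (-2 * (t u Y ^ 3 + 2 * t u Y * s u Y ^ 2 + s u Y ^ 2 * r u Y)) := by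
  refine ⟨h.cd2 v2 v2, rfl, rfl, ?_⟩
  have e := h.e2 v2 v2
  have k : D v3 (D v2 (D v2 u)) Y = D v2 (D v2 (D v3 u)) Y := h.sw3 v3 v2 v2 |>.trans
    (D_congr (D_comm_ev (h.cd.of_le (by norm_num)) v3 v2) v2)
  have k1 : D v2 (D v1 u) Y = D v1 (D v2 u) Y := h.c1.self_of_nhds
  rw [k, e, h.sw v2 v2 v1 v1, k1]
  simp only [r, s, t]
  ring

end TG

end Pool.Agent.MCFM
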