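import Pool.Agent.Work.MP_494ea5_gt.SqA

/-!
# The maximum principle on the moving surface
-/

open Set Filter Topology Metric
open scoped ContDiff InnerProductSpace

namespace Pool.Agent.MCFM

theorem D_line {f : R3 → ℝ} {Y v : R3} {s : ℝ} (h : DifferentiableAt ℝ f (Y + s • v)) :
    HasDerivAt (fun s : ℝ => f (Y + s • v)) (D v f (Y + s • v)) s := by
  have h1 : HasDerivAt (fun s : ℝ => Y + s • v) v s := by
    simpa using ((hasDerivAt_id s).smul_const v).const_add Y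
  exact h.hasFDerivAt.comp_hasDerivAt s h1

theorem D_line_ev {f : R3 → ℝ} {Y v : R3} (h : ∀ᶠ Z in 𝓝 Y, DifferentiableAt ℝ f Z) :
    deriv (fun s : ℝ => f (Y + s • v)) =ᶠ[𝓝 0] fun s : ℝ => D v f (Y + s • v) := by
  have hc : ContinuousAt (fun s : ℝ => Y + s • v) 0 := by fun_prop
  have h' : ∀ᶠ s in 𝓝 (0 : ℝ), DifferentiableAt ℝ f (Y + s • v) := by
    refine hc.eventually ?_
    simpa using h
  filter_upwards [h'] with s hs using (D_line hs).deriv

/-- at a spatial local maximum the second derivatives are nonpositive -/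
theorem second_le {f : R3 → ℝ} {Y v : R3} (h : ContDiffAt ℝ 2 f Y)
    (hm : ∀ᶠ s in 𝓝 (0 : ℝ), f (Y + s • v) ≤ f Y) : D v f Y = 0 ∧ D v (D v f) Y ≤ 0 := by
  have hd : ∀ᶠ Z in 𝓝 Y, DifferentiableAt ℝ f Z :=
    (ev_contDiffAt (n := 2) h).mono fun _ hZ => hZ.differentiableAt (by norm_num)
  have hdd : DifferentiableAt ℝ (D v f) Y :=
    (D_contDiffAt h (m := 1) (by norm_num) v).differentiableAt (by norm_num)
  have hmax : IsLocalMax (fun s : ℝ => f (Y + s • v)) 0 := by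
    filter_upwards [hm] with s hs
    simpa using hs
  have e1 : deriv (fun s : ℝ => f (Y + s • v)) 0 = D v f Y := by
    have := (D_line_ev (v := v) hd).self_of_nhds
    simpa using this
  have e2 : deriv (deriv (fun s : ℝ => f (Y + s • v))) 0 = D v (D v f) Y := by
    rw [(D_line_ev (v := v) hd).deriv_eq]
    have := (D_line (f := D v f) (Y := Y) (v := v) (s := 0) (by simpa using hdd)).deriv
    simpa using this
  have h1 : D v f Y = 0 := by rw [← e1]; exact hmax.deriv_eq_zero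
  refine ⟨h1, ?_⟩
  by_contra hc
  push Not at hc
  have hcont : ContinuousAt (fun s : ℝ => f (Y + s • v)) 0 := by
    have := h.continuousAt
    have h2 : ContinuousAt (fun s : ℝ => Y + s • v) 0 := by fun_prop
    refine ContinuousAt.comp ?_ h2
    simpa using this
  have hmin := isLocalMin_of_deriv_deriv_pos (by rw [e2]; exact hc) (by rw [e1, h1]) hcont
  have hconst : (fun s : ℝ => f (Y + s • v)) =ᶠ[𝓝 0] fun _ => f (Y + (0 : ℝ) • v) := by
    filter_upwards [hmax, hmin] with s a1 a2 using le_antisymm a1 a2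
  have h3 : deriv (fun s : ℝ => f (Y + s • v)) =ᶠ[𝓝 0] fun _ => 0 := by
    refine hconst.deriv.trans ?_
    filter_upwards with s
    simp
  have h4 : deriv (deriv (fun s : ℝ => f (Y + s • v))) 0 = 0 := by
    rw [h3.deriv_eq]; simp
  rw [e2] at h4
  exact hc.ne' h4

/-- at a backward maximum the time derivative is nonnegative -/
theorem time_ge {f : R3 → ℝ} {Y v : R3} (h : DifferentiableAt ℝ f Y)
    (hm : ∀ᶠ s in 𝓝 (0 : ℝ), s ≤ 0 → f (Y + s • v) ≤ f Y) : 0 ≤ D v f Y := by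
  have hd := D_line (f := f) (Y := Y) (v := v) (s := 0) (by simpa using h)
  have hd' : HasDerivAt (fun s : ℝ => f (Y + s • v)) (D v f Y) 0 := by simpa using hd
  have ht := hd'.hasDerivWithinAt (s := Iio 0)
  rw [hasDerivWithinAt_iff_tendsto_slope' (by simp)] at ht
  refine ge_of_tendsto ht ?_
  filter_upwards [self_mem_nhdsWithin, mem_nhdsWithin_of_mem_nhds hm] with s hs hs2
  have h1 : f (Y + s • v) ≤ f Y := hs2 (le_of_lt hs)
  rw [slope_def_field]
  have hs' : s < 0 := hs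
  simp only [zero_smul, add_zero, sub_zero]
  exact div_nonneg_of_nonpos (by linarith) hs'.le

/-- **the maximum principle** for jets -/
theorem PJ.max {f : R3 → ℝ} {Y : R3} {a b l : ℝ} (h : PJ f Y a b l)
    (hm : ∀ᶠ Z in 𝓝 Y, Z.2.2 ≤ Y.2.2 → f Z ≤ f Y) : a = 0 ∧ b = 0 ∧ 0 ≤ l := by
  have hc : ∀ v : R3, Tendsto (fun s : ℝ => Y + s • v) (𝓝 0) (𝓝 Y) := by
    intro v
    have : ContinuousAt (fun s : ℝ => Y + s • v) 0 := by fun_prop
    simpa [ContinuousAt] using this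
  obtain ⟨a1, a2⟩ := second_le (v := v1) h.cd (by
    filter_upwards [(hc v1).eventually hm] with s hs
    exact hs (by simp [v1]))
  obtain ⟨b1, b2⟩ := second_le (v := v2) h.cd (by
    filter_upwards [(hc v2).eventually hm] with s hs
    exact hs (by simp [v2]))
  have c1 := time_ge (v := v3) h.da (by
    filter_upwards [(hc v3).eventually hm] with s hs hs0
    exact hs (by simpa [v3] using hs0))
  refine ⟨h.h1.symm.trans a1, h.h2.symm.trans b1, ?_⟩
  rw [← h.hl]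
  linarith

/-- **The graph of the moving surface over its tangent plane at `X`.** -/
theorem Flow.exists_TG {T : ℝ} {φ : E × ℝ → ℝ} (F : Flow T φ) {X : E × ℝ}
    (ht : X.2 ∈ Ioo 0 T) (hX : φ X = 0) :
    ∃ (b : OrthonormalBasis (Fin 3) ℝ E) (u : R3 → ℝ), b 2 = nu φ X ∧
      ContDiffAt ℝ ∞ u (0, 0, X.2) ∧ u (0, 0, X.2) = 0 ∧ TG u (0, 0, X.2) ∧
      Th b X.1 u (0, 0, X.2) = X ∧
      ∀ᶠ Z in 𝓝 ((0, 0, X.2) : R3), GG φ b X.1 u Z ∧ 0 < dx φ (b 2) (Th b X.1 u Z) ∧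
        Z.2.2 ∈ Ioo 0 T := by
  have hg : grad φ X ≠ 0 := F.regular X.2 ⟨ht.1.le, ht.2⟩ X.1 hX
  have hgn : 0 < ‖grad φ X‖ := norm_pos_iff.2 hg
  have hn : ‖nu φ X‖ = 1 := by
    unfold nu
    rw [norm_smul, norm_inv, norm_norm, inv_mul_cancel₀ hgn.ne']
  obtain ⟨b, hb⟩ := exists_basis hn
  have hd2 : dx φ (b 2) X = ‖grad φ X‖ := by
    rw [hb, ← inner_grad]
    unfold nu
    rw [real_inner_smul_right, real_inner_self_eq_norm_sq]
    field_simp
  have hpos : 0 < dx φ (b 2) X := by rw [hd2]; exact hgn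
  have hsm : ContDiffAt ℝ ∞ φ X := F.cd ht.2
  obtain ⟨u, hu, hu0, hev⟩ := exists_graph hsm hX hpos.ne'
  have hTh : Th b X.1 u (0, 0, X.2) = X := by
    simp [Th, hu0]
  have hcu : ContDiffAt ℝ 4 u (0, 0, X.2) :=
    hu.of_le (m := ((4 : ℕ) : ℕ∞ω)) (WithTop.coe_le_coe.2 le_top)
  have hTc : ContinuousAt (Th b X.1 u) (0, 0, X.2) := (Th_contDiffAt hcu).continuousAt
  have hG : GG φ b X.1 u (0, 0, X.2) := by
    refine ⟨?_, hcu.of_le (by norm_num), hev⟩
    rw [hTh]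
    exact F.cdn ht.2 2
  have hdc : ContinuousAt (dx φ (b 2)) X :=
    (dx_contDiffAt (m := 1) (F.cdn ht.2 2) (by norm_num) (b 2)).continuousAt
  have hE : ∀ᶠ Z in 𝓝 ((0, 0, X.2) : R3), GG φ b X.1 u Z ∧ 0 < dx φ (b 2) (Th b X.1 u Z) ∧
        Z.2.2 ∈ Ioo 0 T := by
    refine hG.ev.and (Filter.Eventually.and ?_ ?_)
    · have : ∀ᶠ W in 𝓝 (Th b X.1 u (0, 0, X.2)), 0 < dx φ (b 2) W := by
        rw [hTh]
        exact hdc.eventually (eventually_gt_nhds hpos)
      exact hTc.eventually this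
    · have : ContinuousAt (fun Z : R3 => Z.2.2) (0, 0, X.2) := by fun_prop
      exact this.eventually (isOpen_Ioo.mem_nhds ht)
  have hz : D v1 u (0, 0, X.2) = 0 ∧ D v2 u (0, 0, X.2) = 0 := by
    have r1 := hG.r1
    have r2 := hG.r2
    rw [hTh] at r1 r2
    have o : ∀ i, i ≠ 2 → dx φ (b i) X = 0 := by
      intro i hi
      rw [← inner_grad]
      have e : grad φ X = ‖grad φ X‖ • b 2 := by
        rw [hb]; unfold nu
        rw [smul_smul, mul_inv_cancel₀ hgn.ne', one_smul]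
      rw [e, real_inner_smul_left, orthonormal_iff_ite.1 b.orthonormal 2 i, if_neg (Ne.symm hi),
        mul_zero]
    rw [o 0 (by decide), zero_add] at r1
    rw [o 1 (by decide), zero_add] at r2
    exact ⟨(mul_eq_zero.1 r1).resolve_right hpos.ne', (mul_eq_zero.1 r2).resolve_right hpos.ne'⟩
  refine ⟨b, u, hb, hu, hu0, ⟨hcu, hz.1, hz.2, ?_⟩, hTh, hE⟩
  filter_upwards [hE] with Z hZ
  obtain ⟨g1, g2, g3⟩ := hZ
  exact g1.eqn g2 (F.moves Z.2.2 ⟨g3.1.le, g3.2⟩ _ g1.h0.self_of_nhds)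

/-- the maximum principle on the moving surface, in the coordinates of a graph -/
theorem Flow.max_graph {T : ℝ} {φ f : E × ℝ → ℝ} {X : E × ℝ}
    {b : OrthonormalBasis (Fin 3) ℝ E} {u : R3 → ℝ} (hu : ContDiffAt ℝ ∞ u (0, 0, X.2))
    (hTh : Th b X.1 u (0, 0, X.2) = X)
    (hE : ∀ᶠ Z in 𝓝 ((0, 0, X.2) : R3), GG φ b X.1 u Z ∧ 0 < dx φ (b 2) (Th b X.1 u Z) ∧
        Z.2.2 ∈ Ioo 0 T)
    (hmax : ∀ᶠ Y in 𝓝 X, φ Y = 0 → Y.2 ≤ X.2 → f Y ≤ f X) :
    ∀ᶠ Z in 𝓝 ((0, 0, X.2) : R3), Z.2.2 ≤ X.2 →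
      f (Th b X.1 u Z) ≤ f (Th b X.1 u (0, 0, X.2)) := by
  have hTc : ContinuousAt (Th b X.1 u) (0, 0, X.2) := (Th_contDiffAt hu).continuousAt
  have h1 : ∀ᶠ W in 𝓝 (Th b X.1 u (0, 0, X.2)), φ W = 0 → W.2 ≤ X.2 → f W ≤ f X := by
    rw [hTh]; exact hmax
  filter_upwards [hE, hTc.eventually h1] with Z hZ hZ2 hZ3
  rw [hTh]
  exact hZ2 hZ.1.h0.self_of_nhds hZ3

theorem Flow.maxp {T : ℝ} {φ f : E × ℝ → ℝ} (F : Flow T φ) {X : E × ℝ} (ht : X.2 ∈ Ioo 0 T)
    (hX : φ X = 0) (hf : ContDiffAt ℝ 2 f X)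
    (hmax : ∀ᶠ Y in 𝓝 X, φ Y = 0 → Y.2 ≤ X.2 → f Y ≤ f X) :
    (∃ c : ℝ, grad f X = c • grad φ X) ∧
      0 ≤ dt f X - (lap f X - hess f X (nu φ X) (nu φ X)) := by
  obtain ⟨b, u, hb, hu, hu0, hTG, hTh, hE⟩ := F.exists_TG ht hX
  have hm := Flow.max_graph hu hTh hE hmax
  have hcu : ContDiffAt ℝ 2 u (0, 0, X.2) := hTG.cd.of_le (by norm_num)
  have hcf : ContDiffAt ℝ 2 f (Th b X.1 u (0, 0, X.2)) := by rw [hTh]; exact hf
  have hcomp : ContDiffAt ℝ 2 (fun Z => f (Th b X.1 u Z)) (0, 0, X.2) :=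
    hcf.comp _ (Th_contDiffAt hcu)
  have hfev : ∀ᶠ Z in 𝓝 ((0, 0, X.2) : R3), ContDiffAt ℝ 2 f (Th b X.1 u Z) ∧
      ContDiffAt ℝ 2 u Z := by
    refine ((Th_contDiffAt hcu).continuousAt.eventually (hcf.eventually (by simp))).and ?_
    exact ev_contDiffAt (n := 2) hcu
  have e1 : D v1 (fun Z => f (Th b X.1 u Z)) =ᶠ[𝓝 (0, 0, X.2)]
      fun Z => dx f (b 0) (Th b X.1 u Z) + D v1 u Z * dx f (b 2) (Th b X.1 u Z) := by
    filter_upwards [hfev] with Z hZ
    exact chain1 (hZ.1.differentiableAt (by norm_num)) (hZ.2.differentiableAt (by norm_num))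
  have e2 : D v2 (fun Z => f (Th b X.1 u Z)) =ᶠ[𝓝 (0, 0, X.2)]
      fun Z => dx f (b 1) (Th b X.1 u Z) + D v2 u Z * dx f (b 2) (Th b X.1 u Z) := by
    filter_upwards [hfev] with Z hZ
    exact chain2 (hZ.1.differentiableAt (by norm_num)) (hZ.2.differentiableAt (by norm_num))
  have e3 : D v3 (fun Z => f (Th b X.1 u Z)) (0, 0, X.2) =
      dt f X + D v3 u (0, 0, X.2) * dx f (b 2) X := by
    rw [chain3 (hcf.differentiableAt (by norm_num)) (hcu.differentiableAt (by norm_num)), hTh]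
  have dxd : ∀ v : E, DifferentiableAt ℝ (dx f v) (Th b X.1 u (0, 0, X.2)) := fun v =>
    (dx_contDiffAt (m := 1) hcf (by norm_num) v).differentiableAt (by norm_num)
  have dxd' : ∀ v : E, DifferentiableAt ℝ (fun W => dx f v (Th b X.1 u W)) (0, 0, X.2) :=
    fun v => (dxd v).comp _ ((Th_contDiffAt hcu).differentiableAt (by norm_num))
  have dud : ∀ v : R3, DifferentiableAt ℝ (D v u) (0, 0, X.2) := fun v =>
    (D_contDiffAt hcu (m := 1) (by norm_num) v).differentiableAt (by norm_num)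
  have du : DifferentiableAt ℝ u (0, 0, X.2) := hcu.differentiableAt (by norm_num)
  have k1 : D v1 (D v1 (fun Z => f (Th b X.1 u Z))) (0, 0, X.2) =
      hess f X (b 0) (b 0) + D v1 (D v1 u) (0, 0, X.2) * dx f (b 2) X := by
    rw [D_congr e1, D_add (dxd' _) ((dud v1).fun_mul (dxd' _)), D_mul (dud v1) (dxd' _),
      chain1 (dxd _) du, hTG.z1, dx_hess hcf, hTh]
    ring
  have k2 : D v2 (D v2 (fun Z => f (Th b X.1 u Z))) (0, 0, X.2) =
      hess f X (b 1) (b 1) + D v2 (D v2 u) (0, 0, X.2) * dx f (b 2) X := by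
    rw [D_congr e2, D_add (dxd' _) ((dud v2).fun_mul (dxd' _)), D_mul (dud v2) (dxd' _),
      chain2 (dxd _) du, hTG.z2, dx_hess hcf, hTh]
    ring
  have hPJ : PJ (fun Z => f (Th b X.1 u Z)) (0, 0, X.2) (dx f (b 0) X) (dx f (b 1) X)
      (dt f X - (lap f X - hess f X (nu φ X) (nu φ X))) := by
    refine ⟨hcomp, ?_, ?_, ?_⟩
    · refine e1.self_of_nhds.trans ?_
      simp only [hTG.z1, hTh]
      ring
    · refine e2.self_of_nhds.trans ?_
      simp only [hTG.z2, hTh]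
      ring
    · rw [e3, k1, k2, hTG.e0]
      have hl : lap f X = hess f X (b 0) (b 0) + hess f X (b 1) (b 1) +
          hess f X (b 2) (b 2) := by
        have := trace_basis (hessL f X) eb b
        simp only [hessL_apply, eb_apply, Fin.sum_univ_three] at this
        unfold lap
        rw [Fin.sum_univ_three, this]
      rw [hl, hb]
      ring
  obtain ⟨a1, a2, a3⟩ := hPJ.max hm
  refine ⟨?_, a3⟩
  have hg : grad φ X ≠ 0 := F.regular X.2 ⟨ht.1.le, ht.2⟩ X.1 hX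
  have hgn : 0 < ‖grad φ X‖ := norm_pos_iff.2 hg
  refine ⟨dx f (b 2) X * ‖grad φ X‖⁻¹, ?_⟩
  have e : grad f X = dx f (b 2) X • b 2 := by
    conv_lhs => rw [← b.sum_repr' (grad f X), Fin.sum_univ_three]
    rw [real_inner_comm, inner_grad, real_inner_comm, inner_grad, real_inner_comm, inner_grad,
      a1, a2]
    simp
  rw [e, mul_smul, hb]
  rfl

end Pool.Agent.MCFM
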