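import Pool.Agent.Work.MP_494ea5_gt.UniqueBase
import Pool.Agent.Work.MP_494ea5_gt.MaxP

/-!
# Uniqueness of the domains, preservation of symmetry
-/

open Set Filter Topology Metric
open scoped ContDiff InnerProductSpace

namespace Pool.Agent.MCFM

theorem Geo.maxPrinciple : Geo.MaxPrinciple := fun _ _ _ F _ ht hX hf hmax =>
  F.maxp ht hX hf hmax

/-- Uniqueness of smooth mean curvature flow, for the domains. -/
theorem Flow.unique {T : ℝ} {φ φ' : E × ℝ → ℝ} (F : Flow T φ) (F' : Flow T φ')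
    (h0 : ∀ p, φ (p, 0) < 0 ↔ φ' (p, 0) < 0) :
    ∀ t ∈ Ico 0 T, ∀ p, φ (p, t) < 0 ↔ φ' (p, t) < 0 := fun t ht p =>
  ⟨Geo.mono Geo.maxPrinciple F F' (fun q => (h0 q).1) t ht p,
    Geo.mono Geo.maxPrinciple F' F (fun q => (h0 q).2) t ht p⟩

/-- Reflection symmetry is preserved. -/
theorem Flow.sym {T : ℝ} {φ : E × ℝ → ℝ} (F : Flow T φ) {α : E} (hα : ‖α‖ = 1)
    (h0 : Sym φ α 0) : ∀ t ∈ Ico 0 T, Sym φ α t :=
  Geo.sym_of Geo.maxPrinciple F hα h0

end Pool.Agent.MCFM
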