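import Pool.Agent.Work.MP_494ea5_gt.Curv
import Pool.Agent.Work.MP_494ea5_gt.Unique
import Pool.Agent.Work.MP_494ea5_gt.Eps

/-!
# Mirror symmetric bigraphs shrink to a point
-/

open Set Filter Topology Metric
open scoped ContDiff InnerProductSpace

namespace Pool.Agent.MCFM

variable {T : ℝ} {φ : E × ℝ → ℝ}

theorem Flow.big_all (F : Flow T φ) {α : E} (hα : ‖α‖ = 1) (hsym : Sym φ α 0)
    (h1 : ∀ p, φ (p, 0) = 0 → 0 < ⟪α, p⟫_ℝ → 0 < ⟪α, nu φ (p, 0)⟫_ℝ)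
    (h2 : ∀ p, φ (p, 0) = 0 → ⟪α, p⟫_ℝ = 0 → 0 < hess φ (p, 0) α α) (hT : 0 < T) :
    ∃ ε > 0, ∀ t ∈ Ico 0 T, Big φ ε α t := by
  obtain ⟨ε, hε, hb⟩ := F.exists_big hT hα hsym h1 h2
  exact ⟨ε, hε, F.big hε hα (F.sym hα hsym) hb⟩

theorem Big.mono {ε ε' : ℝ} {α : E} {t : ℝ} (h : Big φ ε α t) (he : ε' ≤ ε) :
    Big φ ε' α t := fun p hp =>
  le_trans (mul_le_mul_of_nonneg_right he (sq_nonneg _)) (h p hp)

theorem exists_common {ι : Type*} (s : Finset ι) (P : ι → ℝ → Prop)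
    (hP : ∀ i ∈ s, ∃ ε > 0, P i ε) (hm : ∀ i ε ε', 0 < ε' → P i ε → ε' ≤ ε → P i ε') :
    ∃ ε > 0, ∀ i ∈ s, P i ε := by
  classical
  induction s using Finset.induction_on with
  | empty => exact ⟨1, one_pos, by simp⟩
  | insert a s ha ih =>
    obtain ⟨e1, h1, h1'⟩ := ih fun i hi => hP i (Finset.mem_insert_of_mem hi)
    obtain ⟨e2, h2, h2'⟩ := hP a (Finset.mem_insert_self _ _)
    refine ⟨min e1 e2, lt_min h1 h2, fun i hi => ?_⟩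
    rcases Finset.mem_insert.1 hi with rfl | hi
    · exact hm _ _ _ (lt_min h1 h2) h2' (min_le_right _ _)
    · exact hm _ _ _ (lt_min h1 h2) (h1' i hi) (min_le_left _ _)

/-- a spanning finite set of vectors controls the norm -/
theorem exists_coord (s : Finset E) (hs : Submodule.span ℝ (s : Set E) = ⊤) :
    ∃ c > 0, ∀ p : E, p ≠ 0 → ∃ α ∈ s, c * ‖p‖ ≤ |⟪α, p⟫_ℝ| := by
  let L : E →ₗ[ℝ] (s → ℝ) := LinearMap.pi fun α => (innerₛₗ ℝ (α : E))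
  have hL : ∀ p (α : s), L p α = ⟪(α : E), p⟫_ℝ := fun p α => rfl
  have hker : LinearMap.ker L = ⊥ := by
    rw [LinearMap.ker_eq_bot']
    intro p hp
    have h1 : ∀ v ∈ Submodule.span ℝ (s : Set E), ⟪v, p⟫_ℝ = 0 := by
      intro v hv
      induction hv using Submodule.span_induction with
      | mem x hx => exact congrFun hp ⟨x, hx⟩
      | zero => simp
      | add x y _ _ hx hy => rw [inner_add_left, hx, hy, add_zero]
      | smul a x _ hx => rw [real_inner_smul_left, hx, mul_zero]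
    have := h1 p (by rw [hs]; trivial)
    exact inner_self_eq_zero.1 this
  obtain ⟨K, hK, hKL⟩ := L.exists_antilipschitzWith hker
  refine ⟨(K : ℝ)⁻¹ / 2, by positivity, fun p hp => ?_⟩
  by_contra hc
  push Not at hc
  have hKp : (0 : ℝ) < K := by exact_mod_cast hK
  have hp0 : 0 < ‖p‖ := norm_pos_iff.2 hp
  have h2 : ‖L p‖ < (K : ℝ)⁻¹ * ‖p‖ := by
    rw [pi_norm_lt_iff (by positivity)]
    intro α
    rw [hL, Real.norm_eq_abs]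
    refine (hc α α.2).trans ?_
    have : 0 < (K : ℝ)⁻¹ * ‖p‖ := by positivity
    linarith
  have h3 := hKL.le_mul_dist p 0
  rw [dist_zero_right, map_zero, dist_zero_right] at h3
  have h4 : (K : ℝ) * ‖L p‖ < K * ((K : ℝ)⁻¹ * ‖p‖) := mul_lt_mul_of_pos_left h2 hKp
  rw [← mul_assoc, mul_inv_cancel₀ hKp.ne', one_mul] at h4
  linarith

/-- the maximum of `|p|` over the moving surface decreases -/
theorem Flow.shrink (F : Flow T φ) {t₀ : ℝ} (ht₀ : t₀ ∈ Ico 0 T) {ρ : ℝ} (hρ : 0 < ρ)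
    (h0 : ∀ p, φ (p, t₀) = 0 → ‖p‖ < ρ) {t : ℝ} (ht : t ∈ Ico t₀ T) :
    ∀ p, φ (p, t) ≤ 0 → ‖p‖ < ρ := by
  have zero : ∀ p, φ (p, t) = 0 → ‖p‖ < ρ := by
    intro p hp
    have hK : IsCompact (Kc φ t ∩ {X | t₀ ≤ X.2}) :=
      (F.compact ht.2).inter_right (isClosed_le continuous_const continuous_snd)
    have hmem : ((p, t) : E × ℝ) ∈ Kc φ t ∩ {X | t₀ ≤ X.2} :=
      ⟨⟨⟨ht₀.1.trans ht.1, le_rfl⟩, hp⟩, ht.1⟩
    have hfc : Continuous fun X : E × ℝ => ‖X.1‖ ^ 2 := by fun_prop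
    obtain ⟨X, hX, hmax⟩ := hK.exists_isMaxOn ⟨_, hmem⟩ hfc.continuousOn
    rw [isMaxOn_iff] at hmax
    have h1 : ‖p‖ ^ 2 ≤ ‖X.1‖ ^ 2 := hmax (p, t) hmem
    have hXt : X.2 < T := lt_of_le_of_lt hX.1.1.2 ht.2
    have hXt0 : t₀ ≤ X.2 := hX.2
    rcases eq_or_lt_of_le hXt0 with h | h
    · have hX' : X = (X.1, t₀) := by rw [h]
      have h2 : φ (X.1, t₀) = 0 := by rw [← hX']; exact hX.1.2
      have h3 := h0 X.1 h2
      exact lt_of_le_of_lt (abs_le_of_sq_le_sq' h1 (norm_nonneg _)).2 h3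
    · exfalso
      have hev : ∀ᶠ Y in 𝓝 X, φ Y = 0 → Y.2 ≤ X.2 →
          (fun X : E × ℝ => ‖X.1‖ ^ 2) Y ≤ (fun X : E × ℝ => ‖X.1‖ ^ 2) X := by
        have e2 : ∀ᶠ Y : E × ℝ in 𝓝 X, t₀ < Y.2 := by
          have : ContinuousAt (fun Y : E × ℝ => Y.2) X := by fun_prop
          exact this.eventually (eventually_gt_nhds h)
        filter_upwards [e2] with Y y1 y2 y3
        have hY : Y ∈ Kc φ t ∩ {X | t₀ ≤ X.2} :=
          ⟨⟨⟨ht₀.1.trans y1.le, y3.trans hX.1.1.2⟩, y2⟩, y1.le⟩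
        exact hmax Y hY
      have hcd : ContDiffAt ℝ 2 (fun X : E × ℝ => ‖X.1‖ ^ 2) X :=
        (contDiff_fst.norm_sq ℝ).contDiffAt
      obtain ⟨-, h4⟩ := F.maxp ⟨lt_of_le_of_lt ht₀.1 h, hXt⟩ hX.1.2 hcd hev
      -- derivatives of `|p|²`
      let B : E × ℝ →L[ℝ] E × ℝ →L[ℝ] ℝ := (2 : ℝ) •
        ((innerSL ℝ).comp (ContinuousLinearMap.fst ℝ E ℝ)).flip.comp
          (ContinuousLinearMap.fst ℝ E ℝ) |>.flip
      have hB : ∀ X Y : E × ℝ, B X Y = 2 * ⟪X.1, Y.1⟫_ℝ := by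
        intro X Y
        simp [B]
      have hd : ∀ Y : E × ℝ, fderiv ℝ (fun X : E × ℝ => ‖X.1‖ ^ 2) Y = B Y := by
        intro Y
        have h5 : HasFDerivAt (fun X : E × ℝ => ‖X.1‖ ^ 2) _ Y :=
          (hasFDerivAt_fst (𝕜 := ℝ) (p := Y)).norm_sq
        rw [h5.fderiv]
        ext Z <;> simp [B]
      have hd' : fderiv ℝ (fun X : E × ℝ => ‖X.1‖ ^ 2) = fun Y => B Y := funext hd
      have hh : ∀ v w : E, hess (fun X : E × ℝ => ‖X.1‖ ^ 2) X v w = 2 * ⟪v, w⟫_ℝ := by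
        intro v w
        unfold hess
        rw [hd', B.fderiv, hB]
      have hdt : dt (fun X : E × ℝ => ‖X.1‖ ^ 2) X = 0 := by
        unfold dt
        rw [hd, hB]; simp
      have hlap : lap (fun X : E × ℝ => ‖X.1‖ ^ 2) X = 6 := by
        unfold lap
        simp only [hh, Fin.sum_univ_three]
        have : ∀ i, ⟪ee i, ee i⟫_ℝ = 1 := by
          intro i
          rw [real_inner_self_eq_norm_sq]
          simp [ee]
        rw [this, this, this]; norm_num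
      have hg : grad φ X ≠ 0 := F.regular X.2 ⟨ht₀.1.trans hXt0, hXt⟩ X.1 hX.1.2
      rw [hdt, hlap, hh, real_inner_self_eq_norm_sq, Geo.norm_nu hg] at h4
      norm_num at h4
  intro p hp
  by_contra hc
  push Not at hc
  obtain ⟨R, hR⟩ := F.bounded t ht.2
  have hp0 : 0 < ‖p‖ := lt_of_lt_of_le hρ hc
  have ht' : t ∈ Ico 0 T := ⟨ht₀.1.trans ht.1, ht.2⟩
  have hcont : Continuous fun s : ℝ => φ (s • p, t) :=
    (Geo.cont_t F ht.2).comp (by fun_prop)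
  -- a point far out on the ray
  obtain ⟨s₁, hs₁, hs₁'⟩ : ∃ s₁ : ℝ, 1 ≤ s₁ ∧ 0 < φ (s₁ • p, t) := by
    refine ⟨max 1 ((R + 1) / ‖p‖), le_max_left _ _, ?_⟩
    by_contra hcon
    push Not at hcon
    have h1 := hR t ⟨ht'.1, le_rfl⟩ _ hcon
    rw [norm_smul, Real.norm_eq_abs, abs_of_nonneg (le_trans zero_le_one (le_max_left _ _))] at h1
    have h2 : (R + 1) / ‖p‖ * ‖p‖ ≤ max 1 ((R + 1) / ‖p‖) * ‖p‖ :=
      mul_le_mul_of_nonneg_right (le_max_right _ _) hp0.le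
    rw [div_mul_cancel₀ _ hp0.ne'] at h2
    linarith
  have hz : (0 : ℝ) ∈ Icc (φ ((1 : ℝ) • p, t)) (φ (s₁ • p, t)) := ⟨by rw [one_smul]; exact hp, hs₁'.le⟩
  obtain ⟨s, hs, hs0⟩ := intermediate_value_Icc hs₁ hcont.continuousOn hz
  have h3 := zero (s • p) hs0
  rw [norm_smul, Real.norm_eq_abs, abs_of_nonneg (le_trans zero_le_one hs.1)] at h3
  have : 1 * ‖p‖ ≤ s * ‖p‖ := mul_le_mul_of_nonneg_right hs.1 hp0.le
  linarith

theorem mirrors {T : ℝ} {φ : E × ℝ → ℝ} (F : Flow T φ) {S : Set E} (hS : ∀ α ∈ S, ‖α‖ = 1)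
    (hsym : ∀ α ∈ S, Sym φ α 0)
    (h1 : ∀ α ∈ S, ∀ p, φ (p, 0) = 0 → 0 < ⟪α, p⟫_ℝ → 0 < ⟪α, nu φ (p, 0)⟫_ℝ)
    (h2 : ∀ α ∈ S, ∀ p, φ (p, 0) = 0 → ⟪α, p⟫_ℝ = 0 → 0 < hess φ (p, 0) α α) :
    (∀ α ∈ S, ∀ δ > 0, ∃ C : ℝ, ∀ t ∈ Ico 0 T, ∀ p, φ (p, t) = 0 → δ ≤ |⟪α, p⟫_ℝ| →
      sqA φ (p, t) ≤ C) ∧
    (Submodule.span ℝ S = ⊤ →
      (∀ C : ℝ, ∃ t ∈ Ico 0 T, ∃ p, φ (p, t) = 0 ∧ C < sqA φ (p, t)) →
      ∀ ρ > 0, ∃ t₀ ∈ Ico 0 T, ∀ t ∈ Ico t₀ T, ∀ p, φ (p, t) ≤ 0 → ‖p‖ < ρ) := by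
  by_cases hT : 0 < T
  swap
  · have he : ∀ t, t ∉ Ico (0 : ℝ) T := fun t ht => hT (lt_of_le_of_lt ht.1 ht.2)
    refine ⟨fun α _ δ _ => ⟨0, fun t ht => absurd ht (he t)⟩, fun _ h => ?_⟩
    obtain ⟨t, ht, -⟩ := h 0
    exact absurd ht (he t)
  have curv : ∀ α ∈ S, ∀ δ > 0, ∃ C : ℝ, ∀ t ∈ Ico 0 T, ∀ p, φ (p, t) = 0 →
      δ ≤ |⟪α, p⟫_ℝ| → sqA φ (p, t) ≤ C := by
    intro α hα δ hδ
    obtain ⟨ε, hε, hb⟩ := F.big_all (hS α hα) (hsym α hα) (h1 α hα) (h2 α hα) hT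
    exact F.curv hε (hS α hα) hb hδ
  refine ⟨curv, fun hspan hunb ρ hρ => ?_⟩
  -- a finite spanning set of mirrors
  obtain ⟨s, hsS, hs⟩ : ∃ s : Finset E, ↑s ⊆ S ∧ Submodule.span ℝ S = Submodule.span ℝ (s : Set E) :=
    (Submodule.fg_span_iff_fg_span_finset_subset S).1 (by rw [hspan]; exact Module.Finite.fg_top)
  rw [hspan] at hs
  obtain ⟨ε, hε, hb⟩ := exists_common s (fun α ε => ∀ t ∈ Ico 0 T, Big φ ε α t)
    (fun α hα => F.big_all (hS α (hsS hα)) (hsym α (hsS hα)) (h1 α (hsS hα)) (h2 α (hsS hα)) hT)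
    (fun α e e' _ h he t ht => (h t ht).mono he)
  obtain ⟨c, hc, hcoord⟩ := exists_coord s hs.symm
  set x := c * ρ with hx
  have hx0 : 0 < x := by positivity
  set r := min (ε * x ^ 2 / 8) (x / 4) with hr
  have hr0 : 0 < r := by positivity
  -- the curvature is bounded outside the ball of radius `r`
  obtain ⟨C, hC⟩ : ∃ C : ℝ, ∀ α ∈ s, ∀ t ∈ Ico 0 T, ∀ p, φ (p, t) = 0 →
      c * r ≤ |⟪α, p⟫_ℝ| → sqA φ (p, t) ≤ C := by
    have := exists_common s (fun α C => ∀ t ∈ Ico 0 T, ∀ p, φ (p, t) = 0 →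
      c * r ≤ |⟪α, p⟫_ℝ| → sqA φ (p, t) ≤ 1 / C) (fun α hα => ?_)
      (fun α e e' he' h he t ht p hp hx => (h t ht p hp hx).trans (one_div_le_one_div_of_le he' he))
    · obtain ⟨C, -, hC⟩ := this
      exact ⟨1 / C, hC⟩
    · obtain ⟨C, hC⟩ := curv α (hsS hα) (c * r) (by positivity)
      refine ⟨1 / (max C 1), by positivity, fun t ht p hp hx => ?_⟩
      rw [one_div_one_div]
      exact (hC t ht p hp hx).trans (le_max_left _ _)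
  obtain ⟨t, ht, p, hp, hpC⟩ := hunb C
  have hpr : ‖p‖ < r := by
    by_contra hcon
    push Not at hcon
    obtain ⟨α, hα, h⟩ := hcoord p (norm_pos_iff.1 (lt_of_lt_of_le hr0 hcon))
    exact absurd (hC α hα t ht p hp ((mul_le_mul_of_nonneg_left hcon hc.le).trans h))
      (not_le.2 hpC)
  have hsmall : ∀ q, φ (q, t) ≤ 0 → ‖q‖ < ρ := by
    intro q hq
    by_contra hcon
    push Not at hcon
    obtain ⟨α, hα, h⟩ := hcoord q (norm_pos_iff.1 (lt_of_lt_of_le hρ hcon))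
    have h3 : x ≤ |⟪α, q⟫_ℝ| := (mul_le_mul_of_nonneg_left hcon hc.le).trans h
    have := F.ball (S := (s : Set E)) hε hx0 (fun β hβ => hS β (hsS hβ)) hs.symm ht
      (fun β hβ => F.sym (hS β (hsS hβ)) (hsym β (hsS hβ)) t ht)
      (fun β hβ => hb β hβ t ht) hα hq h3 p hpr
    linarith
  exact ⟨t, ht, fun t' ht' => F.shrink ht hρ (fun q hq => hsmall q hq.le) ht'⟩

end Pool.Agent.MCFM
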