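import Pool.Agent.Work.MP_494ea5_gt.Defs

/-!
# Elementary facts on the defining function of a flow
-/

open Set Filter Topology Metric
open scoped ContDiff InnerProductSpace

namespace Pool.Agent.MCFM.Geo

variable {T : ℝ} {φ : E × ℝ → ℝ}

lemma cd (F : Flow T φ) {X : E × ℝ} (hX : X.2 < T) : ContDiffAt ℝ ∞ φ X :=
  F.smooth.contDiffAt ((isOpen_univ.prod isOpen_Iio).mem_nhds ⟨trivial, hX⟩)

lemma da (F : Flow T φ) {X : E × ℝ} (hX : X.2 < T) : DifferentiableAt ℝ φ X :=
  (cd F hX).differentiableAt (by simp)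

lemma ca (F : Flow T φ) {X : E × ℝ} (hX : X.2 < T) : ContinuousAt φ X :=
  (cd F hX).continuousAt

lemma dx_add (φ : E × ℝ → ℝ) (v w : E) (X : E × ℝ) : dx φ (v + w) X = dx φ v X + dx φ w X := by
  unfold dx
  rw [← map_add]; congr 1; simp

lemma dx_smul (φ : E × ℝ → ℝ) (c : ℝ) (v : E) (X : E × ℝ) : dx φ (c • v) X = c * dx φ v X := by
  unfold dx
  rw [← smul_eq_mul, ← map_smul]; congr 1; simp

lemma dx_neg (φ : E × ℝ → ℝ) (v : E) (X : E × ℝ) : dx φ (-v) X = - dx φ v X := by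
  have := dx_smul φ (-1) v X
  rwa [neg_one_smul, neg_one_mul] at this

lemma sum_ee (v : E) : ∑ i, v i • ee i = v := by
  ext j
  simp [ee, Pi.single_apply]

lemma inner_ee (v : E) (i : Fin 3) : ⟪ee i, v⟫_ℝ = v i := by
  rw [ee, EuclideanSpace.inner_single_left]; simp

lemma dx_sum (φ : E × ℝ → ℝ) (v : E) (X : E × ℝ) : dx φ v X = ∑ i, v i * dx φ (ee i) X := by
  conv_lhs => rw [← sum_ee v]
  rw [Fin.sum_univ_three, dx_add, dx_add, dx_smul, dx_smul, dx_smul, Fin.sum_univ_three]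

lemma inner_grad (φ : E × ℝ → ℝ) (X : E × ℝ) (v : E) : ⟪grad φ X, v⟫_ℝ = dx φ v X := by
  rw [dx_sum, grad, sum_inner]
  refine Finset.sum_congr rfl fun i _ => ?_
  rw [real_inner_smul_left, inner_ee, mul_comm]

lemma norm_nu {X : E × ℝ} (h : grad φ X ≠ 0) : ‖nu φ X‖ = 1 := by
  rw [nu, norm_smul, norm_inv, norm_norm, inv_mul_cancel₀ (norm_ne_zero_iff.2 h)]

lemma grad_eq {X : E × ℝ} (h : grad φ X ≠ 0) : grad φ X = ‖grad φ X‖ • nu φ X := by
  rw [nu, smul_smul, mul_inv_cancel₀ (norm_ne_zero_iff.2 h), one_smul]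

lemma dx_nu {X : E × ℝ} (h : grad φ X ≠ 0) (v : E) :
    dx φ v X = ‖grad φ X‖ * ⟪nu φ X, v⟫_ℝ := by
  rw [← inner_grad]
  conv_lhs => rw [grad_eq h]
  rw [real_inner_smul_left]

lemma grad_zero_of {X : E × ℝ} (h : ∀ v, dx φ v X = 0) : grad φ X = 0 := by
  rw [grad]
  exact Finset.sum_eq_zero fun i _ => by rw [h, zero_smul]

lemma line_deriv {p v : E} {t s : ℝ} (h : DifferentiableAt ℝ φ (p + s • v, t)) :
    HasDerivAt (fun s : ℝ => φ (p + s • v, t)) (dx φ v (p + s • v, t)) s := by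
  have h1 : HasDerivAt (fun s : ℝ => ((p + s • v, t) : E × ℝ)) ((v, 0) : E × ℝ) s := by
    have h2 : HasDerivAt (fun s : ℝ => p + s • v) v s := by
      have := ((hasDerivAt_id s).smul_const v).const_add p
      simpa using this
    exact h2.prodMk (hasDerivAt_const s t)
  exact h.hasFDerivAt.comp_hasDerivAt s h1

/-- If `φ ≤ 0` near `p`, then `φ < 0` at `p`, for a regular flow. -/
lemma lt_of_near (F : Flow T φ) {t : ℝ} (ht : t ∈ Ico 0 T) {p : E}
    (h : ∀ᶠ q in 𝓝 p, φ (q, t) ≤ 0) : φ (p, t) < 0 := by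
  rcases lt_or_eq_of_le h.self_of_nhds with h0 | h0
  · exact h0
  · exfalso
    refine F.regular t ht p h0 (grad_zero_of fun v => ?_)
    have h1 := line_deriv (φ := φ) (p := p) (v := v) (t := t) (s := 0)
      (by rw [zero_smul, add_zero]; exact da F ht.2)
    have h2 : IsLocalMax (fun s : ℝ => φ (p + s • v, t)) 0 := by
      have h3 : Tendsto (fun s : ℝ => p + s • v) (𝓝 0) (𝓝 p) := by
        have : Continuous (fun s : ℝ => p + s • v) := by fun_prop
        have h4 := this.tendsto 0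
        simpa using h4
      have := h3.eventually h
      filter_upwards [this] with s hs
      rw [zero_smul, add_zero, h0]
      exact hs
    have h5 := h2.hasDerivAt_eq_zero h1
    rwa [zero_smul, add_zero] at h5

lemma neg_of_deriv {g : ℝ → ℝ} {c : ℝ} (hg : HasDerivAt g c 0) (h0 : g 0 = 0) (hc : c < 0) :
    ∀ᶠ s in 𝓝[>] (0 : ℝ), g s < 0 := by
  have h1 := hasDerivAt_iff_tendsto_slope.1 hg
  have h2 : ∀ᶠ s in 𝓝[≠] (0 : ℝ), slope g 0 s < 0 := h1.eventually (Iio_mem_nhds hc)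
  have h3 : ∀ᶠ s in 𝓝[>] (0 : ℝ), slope g 0 s < 0 :=
    h2.filter_mono (nhdsWithin_mono _ fun x hx => ne_of_gt hx)
  filter_upwards [h3, self_mem_nhdsWithin] with s hs hs0
  rw [slope_def_field, h0, sub_zero, sub_zero] at hs
  have hs0' : (0:ℝ) < s := hs0
  by_contra hcon
  exact absurd hs (not_lt.2 (div_nonneg (not_lt.1 hcon) hs0'.le))

/-- A point of `M_t` is a limit of points of `Ω_t`. -/
lemma near_of_zero (F : Flow T φ) {t : ℝ} (ht : t ∈ Ico 0 T) {p : E} (h0 : φ (p, t) = 0) :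
    ∀ᶠ s in 𝓝[>] (0 : ℝ), φ (p + s • (-(grad φ (p, t))), t) < 0 := by
  have h1 := line_deriv (φ := φ) (p := p) (v := -(grad φ (p, t))) (t := t) (s := 0)
      (by rw [zero_smul, add_zero]; exact da F ht.2)
  rw [zero_smul, add_zero] at h1
  refine neg_of_deriv h1 (by rw [zero_smul, add_zero]; exact h0) ?_
  rw [dx_neg, ← inner_grad, real_inner_self_eq_norm_sq]
  have := norm_pos_iff.2 (F.regular t ht p h0)
  have : 0 < ‖grad φ (p, t)‖ ^ 2 := by positivity
  linarith

/-- points of `{φ ≤ 0}` are limits of points of `Ω_t`. -/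
lemma mem_closure (F : Flow T φ) {t : ℝ} (ht : t ∈ Ico 0 T) {p : E} (h0 : φ (p, t) ≤ 0) :
    p ∈ closure {q : E | φ (q, t) < 0} := by
  rcases lt_or_eq_of_le h0 with h | h
  · exact subset_closure h
  · have h1 := near_of_zero F ht h
    have h3 : Tendsto (fun s : ℝ => p + s • (-(grad φ (p, t)))) (𝓝[>] 0) (𝓝 p) := by
      have : Continuous (fun s : ℝ => p + s • (-(grad φ (p, t)))) := by fun_prop
      have h4 := (this.tendsto 0).mono_left (nhdsWithin_le_nhds (s := Ioi 0))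
      simpa using h4
    exact mem_closure_of_tendsto h3 h1

lemma cont_t (F : Flow T φ) {t : ℝ} (ht : t < T) : Continuous fun p : E => φ (p, t) := by
  rw [continuous_iff_continuousAt]
  intro p
  have h1 : ContinuousAt φ (p, t) := ca F ht
  exact h1.comp (f := fun p : E => ((p, t) : E × ℝ)) (by fun_prop)

end Pool.Agent.MCFM.Geo
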