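import Pool.Agent.Work.MP_494ea5_gt.Jets
import Pool.Agent.Work.MP_494ea5_gt.Bil

/-!
# The moving surface as a graph over its tangent plane
-/

open Set Filter Topology Metric
open scoped ContDiff InnerProductSpace

namespace Pool.Agent.MCFM

variable {φ ψ : E × ℝ → ℝ} {X : E × ℝ} {T : ℝ}

theorem dx_hess {v w : E} (h : ContDiffAt ℝ 2 φ X) : dx (dx φ w) v X = hess φ X v w := by
  have hd : DifferentiableAt ℝ (fderiv ℝ φ) X :=
    (h.fderiv_right (m := 1) (by norm_num)).differentiableAt (by norm_num)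
  unfold dx hess
  rw [fderiv_clm_apply hd (differentiableAt_const _)]
  simp

theorem dx_contDiffAt {m n : ℕ∞ω} (h : ContDiffAt ℝ n φ X) (hmn : m + 1 ≤ n) (v : E) :
    ContDiffAt ℝ m (dx φ v) X := (h.fderiv_right hmn).clm_apply contDiffAt_const

theorem Flow.cd (F : Flow T φ) (hX : X.2 < T) : ContDiffAt ℝ ∞ φ X :=
  (F.smooth X ⟨mem_univ _, hX⟩).contDiffAt
    ((isOpen_univ.prod isOpen_Iio).mem_nhds ⟨mem_univ _, hX⟩)

theorem Flow.cdn (F : Flow T φ) (hX : X.2 < T) (n : ℕ) : ContDiffAt ℝ n φ X :=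
  (F.cd hX).of_le (by exact_mod_cast le_top)

/-- the parametrisation of the graph of `u` over the plane through `p` spanned by `b 0`, `b 1` -/
noncomputable def Th (b : OrthonormalBasis (Fin 3) ℝ E) (p : E) (u : R3 → ℝ) (Z : R3) : E × ℝ :=
  (p + Z.1 • b 0 + Z.2.1 • b 1 + u Z • b 2, Z.2.2)

section chain

variable {b : OrthonormalBasis (Fin 3) ℝ E} {p : E} {u : R3 → ℝ} {Z : R3}

theorem Th_hasFDerivAt (hu : DifferentiableAt ℝ u Z) (v : R3) :
    ∃ L : R3 →L[ℝ] E × ℝ, HasFDerivAt (Th b p u) L Z ∧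
      L v = (v.1 • b 0 + v.2.1 • b 1 + D v u Z • b 2, v.2.2) := by
  have h1 : HasFDerivAt (fun Z : R3 => Z.1 • b 0)
      ((ContinuousLinearMap.fst ℝ ℝ (ℝ × ℝ)).smulRight (b 0)) Z :=
    (ContinuousLinearMap.fst ℝ ℝ (ℝ × ℝ)).hasFDerivAt.smul_const (b 0)
  have h2 : HasFDerivAt (fun Z : R3 => Z.2.1 • b 1)
      (((ContinuousLinearMap.fst ℝ ℝ ℝ).comp
        (ContinuousLinearMap.snd ℝ ℝ (ℝ × ℝ))).smulRight (b 1)) Z :=
    ((ContinuousLinearMap.fst ℝ ℝ ℝ).comp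
      (ContinuousLinearMap.snd ℝ ℝ (ℝ × ℝ))).hasFDerivAt.smul_const (b 1)
  have h3 : HasFDerivAt (fun Z : R3 => u Z • b 2) ((fderiv ℝ u Z).smulRight (b 2)) Z :=
    hu.hasFDerivAt.smul_const (b 2)
  have h4 : HasFDerivAt (fun Z : R3 => Z.2.2)
      ((ContinuousLinearMap.snd ℝ ℝ ℝ).comp (ContinuousLinearMap.snd ℝ ℝ (ℝ × ℝ))) Z :=
    ((ContinuousLinearMap.snd ℝ ℝ ℝ).comp
      (ContinuousLinearMap.snd ℝ ℝ (ℝ × ℝ))).hasFDerivAt
  refine ⟨_, (((h1.const_add p).add h2).add h3).prodMk h4, ?_⟩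
  simp [D]

theorem Th_contDiffAt {n : ℕ∞ω} (hu : ContDiffAt ℝ n u Z) : ContDiffAt ℝ n (Th b p u) Z := by
  unfold Th
  refine ContDiffAt.prodMk ?_ (by fun_prop)
  exact ((contDiffAt_const.add ((by fun_prop : ContDiffAt ℝ n (fun Z : R3 => Z.1) Z).smul
    contDiffAt_const)).add ((by fun_prop : ContDiffAt ℝ n (fun Z : R3 => Z.2.1) Z).smul
    contDiffAt_const)).add (hu.smul contDiffAt_const)

theorem chain1 (hψ : DifferentiableAt ℝ ψ (Th b p u Z)) (hu : DifferentiableAt ℝ u Z) :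
    D v1 (fun Z => ψ (Th b p u Z)) Z =
      dx ψ (b 0) (Th b p u Z) + D v1 u Z * dx ψ (b 2) (Th b p u Z) := by
  obtain ⟨L, hL, e⟩ := Th_hasFDerivAt (b := b) (p := p) hu v1
  have := (hψ.hasFDerivAt.comp Z hL).fderiv
  have e2 : D v1 (fun Z => ψ (Th b p u Z)) Z = fderiv ℝ ψ (Th b p u Z) (L v1) := by
    unfold D
    change fderiv ℝ (ψ ∘ Th b p u) Z v1 = _
    rw [this]; rfl
  rw [e2, e]
  have e3 : ((v1.1 • b 0 + v1.2.1 • b 1 + D v1 u Z • b 2, v1.2.2) : E × ℝ) =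
      (b 0, 0) + D v1 u Z • (b 2, (0 : ℝ)) := by
    simp [v1]
  rw [e3, map_add, map_smul]
  rfl

theorem chain2 (hψ : DifferentiableAt ℝ ψ (Th b p u Z)) (hu : DifferentiableAt ℝ u Z) :
    D v2 (fun Z => ψ (Th b p u Z)) Z =
      dx ψ (b 1) (Th b p u Z) + D v2 u Z * dx ψ (b 2) (Th b p u Z) := by
  obtain ⟨L, hL, e⟩ := Th_hasFDerivAt (b := b) (p := p) hu v2
  have := (hψ.hasFDerivAt.comp Z hL).fderiv
  have e2 : D v2 (fun Z => ψ (Th b p u Z)) Z = fderiv ℝ ψ (Th b p u Z) (L v2) := by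
    unfold D
    change fderiv ℝ (ψ ∘ Th b p u) Z v2 = _
    rw [this]; rfl
  rw [e2, e]
  have e3 : ((v2.1 • b 0 + v2.2.1 • b 1 + D v2 u Z • b 2, v2.2.2) : E × ℝ) =
      (b 1, 0) + D v2 u Z • (b 2, (0 : ℝ)) := by
    simp [v2]
  rw [e3, map_add, map_smul]
  rfl

theorem chain3 (hψ : DifferentiableAt ℝ ψ (Th b p u Z)) (hu : DifferentiableAt ℝ u Z) :
    D v3 (fun Z => ψ (Th b p u Z)) Z =
      dt ψ (Th b p u Z) + D v3 u Z * dx ψ (b 2) (Th b p u Z) := by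
  obtain ⟨L, hL, e⟩ := Th_hasFDerivAt (b := b) (p := p) hu v3
  have := (hψ.hasFDerivAt.comp Z hL).fderiv
  have e2 : D v3 (fun Z => ψ (Th b p u Z)) Z = fderiv ℝ ψ (Th b p u Z) (L v3) := by
    unfold D
    change fderiv ℝ (ψ ∘ Th b p u) Z v3 = _
    rw [this]; rfl
  rw [e2, e]
  have e3 : ((v3.1 • b 0 + v3.2.1 • b 1 + D v3 u Z • b 2, v3.2.2) : E × ℝ) =
      (0, 1) + D v3 u Z • (b 2, (0 : ℝ)) := by
    simp [v3]
  rw [e3, map_add, map_smul]
  rfl

end chain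

/-- existence of an orthonormal basis whose last vector is a given unit vector -/
theorem exists_basis {n : E} (hn : ‖n‖ = 1) : ∃ b : OrthonormalBasis (Fin 3) ℝ E, b 2 = n := by
  have hv : Orthonormal ℝ (({2} : Set (Fin 3)).domRestrict fun _ : Fin 3 => n) := by
    constructor
    · intro i
      exact hn
    · intro i j hij
      exact absurd (Subtype.ext (by rw [i.2, j.2])) hij
  obtain ⟨b, hb⟩ := hv.exists_orthonormalBasis_extension_of_card_eq (by simp)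
  exact ⟨b, hb 2 rfl⟩

/-- the implicit function theorem for the zero set of `φ` -/
theorem exists_graph (h : ContDiffAt ℝ ∞ φ X) (h0 : φ X = 0)
    {b : OrthonormalBasis (Fin 3) ℝ E} (hb : dx φ (b 2) X ≠ 0) :
    ∃ u : R3 → ℝ, ContDiffAt ℝ ∞ u (0, 0, X.2) ∧ u (0, 0, X.2) = 0 ∧
      ∀ᶠ Z in 𝓝 ((0, 0, X.2) : R3), φ (Th b X.1 u Z) = 0 := by
  let J : R3 × ℝ → E × ℝ := fun W =>
    (X.1 + W.1.1 • b 0 + W.1.2.1 • b 1 + W.2 • b 2, W.1.2.2)
  have hJ : ContDiff ℝ ∞ J := by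
    refine ContDiff.prodMk ?_ (by fun_prop)
    exact ((contDiff_const.add ((by fun_prop : ContDiff ℝ ∞ (fun W : R3 × ℝ => W.1.1)).smul
      contDiff_const)).add ((by fun_prop : ContDiff ℝ ∞ (fun W : R3 × ℝ => W.1.2.1)).smul
      contDiff_const)).add ((by fun_prop : ContDiff ℝ ∞ (fun W : R3 × ℝ => W.2)).smul
      contDiff_const)
  have hJ0 : J ((0, 0, X.2), 0) = X := by
    simp [J]
  have hf : ContDiffAt ℝ ∞ (fun W => φ (J W)) ((0, 0, X.2), 0) := by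
    refine ContDiffAt.comp _ ?_ hJ.contDiffAt
    rw [hJ0]; exact h
  have hφd : DifferentiableAt ℝ φ (J ((0, 0, X.2), 0)) := by
    rw [hJ0]; exact h.differentiableAt (by simp)
  have hder : ∀ c : ℝ, fderiv ℝ (fun W => φ (J W)) ((0, 0, X.2), 0) (0, c) =
      c * dx φ (b 2) X := by
    intro c
    have h1 : HasFDerivAt (fun W => φ (J W))
        ((fderiv ℝ φ (J ((0, 0, X.2), 0))).comp (fderiv ℝ J ((0, 0, X.2), 0)))
        ((0, 0, X.2), 0) :=
      hφd.hasFDerivAt.comp _ (hJ.differentiable (by simp) _).hasFDerivAt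
    rw [h1.fderiv, ContinuousLinearMap.comp_apply, hJ0]
    have h2 : fderiv ℝ J ((0, 0, X.2), 0) (0, c) = c • (b 2, (0 : ℝ)) := by
      have h3 : HasFDerivAt J (fderiv ℝ J ((0, 0, X.2), 0)) ((0, 0, X.2), 0) :=
        (hJ.differentiable (by simp) _).hasFDerivAt
      have h4 : HasDerivAt (fun s : ℝ => (((0, 0, X.2), s * c) : R3 × ℝ)) (0, c) 0 := by
        refine (hasDerivAt_const (0 : ℝ) ((0, 0, X.2) : R3)).prodMk ?_
        simpa using (hasDerivAt_id (0 : ℝ)).mul_const c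
      have h3' : HasFDerivAt J (fderiv ℝ J ((0, 0, X.2), 0))
          ((fun s : ℝ => (((0, 0, X.2), s * c) : R3 × ℝ)) 0) := by simpa using h3
      have h5 := h3'.comp_hasDerivAt (0 : ℝ) h4
      have h6 : HasDerivAt (J ∘ fun s : ℝ => (((0, 0, X.2), s * c) : R3 × ℝ))
          (c • (b 2, (0 : ℝ))) 0 := by
        have e : (J ∘ fun s : ℝ => (((0, 0, X.2), s * c) : R3 × ℝ)) =
            fun s : ℝ => ((X.1 + (s * c) • b 2, X.2) : E × ℝ) := by
          funext s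
          simp [J]
        rw [e]
        have e2 : (c • (b 2, (0 : ℝ)) : E × ℝ) = (c • b 2, 0) := by simp
        rw [e2]
        refine HasDerivAt.prodMk ?_ (hasDerivAt_const _ _)
        have h7 : HasDerivAt (fun s : ℝ => s * c) c 0 := by
          simpa using (hasDerivAt_id (0 : ℝ)).mul_const c
        exact (h7.smul_const (b 2)).const_add X.1
      exact h5.unique h6
    rw [h2, map_smul, smul_eq_mul]
    rfl
  have hinv : (fderiv ℝ (fun W => φ (J W)) ((0, 0, X.2), 0) ∘L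
      ContinuousLinearMap.inr ℝ R3 ℝ).IsInvertible := by
    have e : fderiv ℝ (fun W => φ (J W)) ((0, 0, X.2), 0) ∘L ContinuousLinearMap.inr ℝ R3 ℝ =
        ((ContinuousLinearEquiv.unitsEquivAut ℝ (Units.mk0 _ hb) : ℝ ≃L[ℝ] ℝ) : ℝ →L[ℝ] ℝ) := by
      ext
      simp [hder]
    rw [e]
    exact ContinuousLinearMap.isInvertible_equiv
  refine ⟨hf.implicitFunction (by simp) hinv, hf.contDiffAt_implicitFunction (by simp) hinv,
    hf.implicitFunction_apply_self (by simp) hinv, ?_⟩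
  filter_upwards [hf.eventually_apply_implicitFunction (by simp) hinv] with Z hZ
  rw [hJ0, h0] at hZ
  exact hZ

end Pool.Agent.MCFM
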