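import Pool.Agent.Work.MP_494ea5_gt.Evol

/-!
# Jets of the normal and of the second fundamental form at the centre
-/

open Set Filter Topology
open scoped ContDiff

namespace Pool.Agent.MCFM

theorem PJ.sqrt {f : R3 → ℝ} {Y : R3} {a b l w : ℝ} (h : PJ f Y a b l) (hw : 0 < w)
    (hf : f Y = w ^ 2) :
    PJ (fun Z => √(f Z)) Y (a / (2 * w)) (b / (2 * w))
      ((l + (a ^ 2 + b ^ 2) / (2 * w ^ 2)) / (2 * w)) := by
  have hp : 0 < f Y := by rw [hf]; positivity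
  have hc : ContDiffAt ℝ 2 (fun Z => √(f Z)) Y := h.cd.sqrt hp.ne'
  have hv : √(f Y) = w := by rw [hf, Real.sqrt_sq hw.le]
  obtain ⟨a', b', l', h'⟩ : ∃ a' b' l', PJ (fun Z => √(f Z)) Y a' b' l' :=
    ⟨_, _, _, hc, rfl, rfl, rfl⟩
  have h1 : PJ (fun Z => √(f Z) * √(f Z)) Y a b l := by
    refine h.congr ?_
    filter_upwards [h.cd.continuousAt.eventually (eventually_gt_nhds hp)] with Z hZ
    rw [Real.mul_self_sqrt hZ.le]
  obtain ⟨e1, e2, e3⟩ := (h'.mul h').unique h1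
  rw [hv] at e1 e2 e3
  have ha : a' = a / (2 * w) := by
    field_simp
    linear_combination e1
  have hb : b' = b / (2 * w) := by
    field_simp
    linear_combination e2
  refine h'.of_eq ha hb ?_
  rw [ha, hb] at e3
  field_simp at e3 ⊢
  linear_combination e3

namespace TG

variable {u : R3 → ℝ} {Y : R3}

/-- `1 / (1 + |Du|²)` -/
noncomputable def kap (u : R3 → ℝ) (Z : R3) : ℝ := (1 + D v1 u Z ^ 2 + D v2 u Z ^ 2)⁻¹

/-- `1 / √(1 + |Du|²)` -/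
noncomputable def om (u : R3 → ℝ) (Z : R3) : ℝ := √(kap u Z)

/-- the component of the normal in the direction with coordinates `e1, e2, e3` -/
noncomputable def nuf (u : R3 → ℝ) (e1 e2 e3 : ℝ) (Z : R3) : ℝ :=
  (e3 - e1 * D v1 u Z - e2 * D v2 u Z) * om u Z

noncomputable def g11 (u : R3 → ℝ) (Z : R3) : ℝ := 1 - D v1 u Z ^ 2 * kap u Z
noncomputable def g12 (u : R3 → ℝ) (Z : R3) : ℝ := -(D v1 u Z * D v2 u Z * kap u Z)
noncomputable def g22 (u : R3 → ℝ) (Z : R3) : ℝ := 1 - D v2 u Z ^ 2 * kap u Z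

noncomputable def m11 (u : R3 → ℝ) (Z : R3) : ℝ :=
  g11 u Z * D v1 (D v1 u) Z + g12 u Z * D v1 (D v2 u) Z
noncomputable def m12 (u : R3 → ℝ) (Z : R3) : ℝ :=
  g11 u Z * D v1 (D v2 u) Z + g12 u Z * D v2 (D v2 u) Z
noncomputable def m21 (u : R3 → ℝ) (Z : R3) : ℝ :=
  g12 u Z * D v1 (D v1 u) Z + g22 u Z * D v1 (D v2 u) Z
noncomputable def m22 (u : R3 → ℝ) (Z : R3) : ℝ :=
  g12 u Z * D v1 (D v2 u) Z + g22 u Z * D v2 (D v2 u) Z

/-- the squared norm of the second fundamental form of the graph -/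
noncomputable def qf (u : R3 → ℝ) (Z : R3) : ℝ :=
  kap u Z * (m11 u Z ^ 2 + 2 * (m12 u Z * m21 u Z) + m22 u Z ^ 2)

/-- `|A|²` at the centre -/
noncomputable def aa (u : R3 → ℝ) (Y : R3) : ℝ := r u Y ^ 2 + 2 * s u Y ^ 2 + t u Y ^ 2

theorem kap_c (h : TG u Y) : kap u Y = 1 := by
  unfold kap
  rw [h.z1, h.z2]
  norm_num

theorem om_c (h : TG u Y) : om u Y = 1 := by
  unfold om
  rw [h.kap_c, Real.sqrt_one]

theorem jkap (h : TG u Y) : PJ (kap u) Y 0 0 (2 * aa u Y) := by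
  have h1 := ((PJ.const 1).add h.jp.sq).add h.jq.sq
  have hv : 1 + D v1 u Y ^ 2 + D v2 u Y ^ 2 = 1 := by
    simp only [h.z1, h.z2]; norm_num
  refine (h1.inv (by rw [hv]; norm_num)).of_eq ?_ ?_ ?_
  · simp only [h.z1, h.z2]; norm_num
  · simp only [h.z1, h.z2]; norm_num
  · simp only [h.z1, h.z2, aa]; ring

theorem jom (h : TG u Y) : PJ (om u) Y 0 0 (aa u Y) := by
  refine (h.jkap.sqrt (w := 1) one_pos (by rw [h.kap_c]; norm_num)).of_eq ?_ ?_ ?_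
  · ring
  · ring
  · ring

theorem jnuf (h : TG u Y) (e1 e2 e3 : ℝ) :
    PJ (nuf u e1 e2 e3) Y (-(e1 * r u Y + e2 * s u Y)) (-(e1 * s u Y + e2 * t u Y))
      (e3 * aa u Y) := by
  have h1 := (((PJ.const e3).sub (h.jp.const_mul e1)).sub (h.jq.const_mul e2)).mul h.jom
  refine h1.of_eq ?_ ?_ ?_
  · simp only [h.z1, h.z2, h.om_c]; ring
  · simp only [h.z1, h.z2, h.om_c]; ring
  · simp only [h.z1, h.z2, h.om_c]; ring

theorem nuf_c (h : TG u Y) (e1 e2 e3 : ℝ) : nuf u e1 e2 e3 Y = e3 := by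
  unfold nuf
  rw [h.z1, h.z2, h.om_c]
  ring

theorem jg11 (h : TG u Y) : PJ (g11 u) Y 0 0 (2 * (r u Y ^ 2 + s u Y ^ 2)) := by
  refine ((PJ.const 1).sub (h.jp.sq.mul h.jkap)).of_eq ?_ ?_ ?_
  · simp only [h.z1, h.kap_c]; ring
  · simp only [h.z1, h.kap_c]; ring
  · simp only [h.z1, h.kap_c]; ring

theorem jg12 (h : TG u Y) : PJ (g12 u) Y 0 0 (2 * (s u Y * (r u Y + t u Y))) := by
  refine (((h.jp.mul h.jq).mul h.jkap).neg).of_eq ?_ ?_ ?_
  · simp only [h.z1, h.z2, h.kap_c]; ring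
  · simp only [h.z1, h.z2, h.kap_c]; ring
  · simp only [h.z1, h.z2, h.kap_c]; ring

theorem jg22 (h : TG u Y) : PJ (g22 u) Y 0 0 (2 * (s u Y ^ 2 + t u Y ^ 2)) := by
  refine ((PJ.const 1).sub (h.jq.sq.mul h.jkap)).of_eq ?_ ?_ ?_
  · simp only [h.z2, h.kap_c]; ring
  · simp only [h.z2, h.kap_c]; ring
  · simp only [h.z2, h.kap_c]; ring

theorem g11_c (h : TG u Y) : g11 u Y = 1 := by
  unfold g11; rw [h.z1]; ring

theorem g12_c (h : TG u Y) : g12 u Y = 0 := by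
  unfold g12; rw [h.z1]; ring

theorem g22_c (h : TG u Y) : g22 u Y = 1 := by
  unfold g22; rw [h.z2]; ring

theorem m11_c (h : TG u Y) : m11 u Y = r u Y := by
  unfold m11; rw [h.g11_c, h.g12_c]; unfold r; ring

theorem m12_c (h : TG u Y) : m12 u Y = s u Y := by
  unfold m12; rw [h.g11_c, h.g12_c]; unfold s; ring

theorem m21_c (h : TG u Y) : m21 u Y = s u Y := by
  unfold m21; rw [h.g22_c, h.g12_c]; unfold s; ring

theorem m22_c (h : TG u Y) : m22 u Y = t u Y := by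
  unfold m22; rw [h.g22_c, h.g12_c]; unfold t; ring

theorem qf_c (h : TG u Y) : qf u Y = aa u Y := by
  unfold qf; rw [h.kap_c, h.m11_c, h.m12_c, h.m21_c, h.m22_c]; unfold aa; ring

/-- the second derivatives as functions -/
theorem vr : D v1 (D v1 u) Y = r u Y := rfl
theorem vs : D v1 (D v2 u) Y = s u Y := rfl
theorem vt : D v2 (D v2 u) Y = t u Y := rfl

theorem jm11 (h : TG u Y) : PJ (m11 u) Y (c0 u Y) (c1' u Y)
    (2 * (r u Y ^ 2 + s u Y ^ 2) * r u Y + 2 * (s u Y * (r u Y + t u Y)) * s u Y -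
      2 * (r u Y ^ 3 + 2 * r u Y * s u Y ^ 2 + s u Y ^ 2 * t u Y)) := by
  refine ((h.jg11.mul h.jr).add (h.jg12.mul h.js)).of_eq ?_ ?_ ?_
  · simp only [h.g11_c, h.g12_c]; ring
  · simp only [h.g11_c, h.g12_c]; ring
  · simp only [h.g11_c, h.g12_c, vr, vs]; ring

theorem jm12 (h : TG u Y) : PJ (m12 u) Y (c1' u Y) (c2 u Y)
    (2 * (r u Y ^ 2 + s u Y ^ 2) * s u Y + 2 * (s u Y * (r u Y + t u Y)) * t u Y -
      2 * (r u Y ^ 2 * s u Y + r u Y * s u Y * t u Y + s u Y ^ 3 + s u Y * t u Y ^ 2)) := by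
  refine ((h.jg11.mul h.js).add (h.jg12.mul h.jt)).of_eq ?_ ?_ ?_
  · simp only [h.g11_c, h.g12_c]; ring
  · simp only [h.g11_c, h.g12_c]; ring
  · simp only [h.g11_c, h.g12_c, vs, vt]; ring

theorem jm21 (h : TG u Y) : PJ (m21 u) Y (c1' u Y) (c2 u Y)
    (2 * (s u Y ^ 2 + t u Y ^ 2) * s u Y + 2 * (s u Y * (r u Y + t u Y)) * r u Y -
      2 * (r u Y ^ 2 * s u Y + r u Y * s u Y * t u Y + s u Y ^ 3 + s u Y * t u Y ^ 2)) := by
  refine ((h.jg12.mul h.jr).add (h.jg22.mul h.js)).of_eq ?_ ?_ ?_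
  · simp only [h.g22_c, h.g12_c]; ring
  · simp only [h.g22_c, h.g12_c]; ring
  · simp only [h.g22_c, h.g12_c, vr, vs]; ring

theorem jm22 (h : TG u Y) : PJ (m22 u) Y (c2 u Y) (c3 u Y)
    (2 * (s u Y ^ 2 + t u Y ^ 2) * t u Y + 2 * (s u Y * (r u Y + t u Y)) * s u Y -
      2 * (t u Y ^ 3 + 2 * t u Y * s u Y ^ 2 + s u Y ^ 2 * r u Y)) := by
  refine ((h.jg12.mul h.js).add (h.jg22.mul h.jt)).of_eq ?_ ?_ ?_
  · simp only [h.g22_c, h.g12_c]; ring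
  · simp only [h.g22_c, h.g12_c]; ring
  · simp only [h.g22_c, h.g12_c, vs, vt]; ring

/-- `|∇A|²` at the centre -/
noncomputable def da2 (u : R3 → ℝ) (Y : R3) : ℝ :=
  c0 u Y ^ 2 + 3 * c1' u Y ^ 2 + 3 * c2 u Y ^ 2 + c3 u Y ^ 2

/-- **Simons' equation**: `(∂_t - Δ)|A|² = -2|∇A|² + 2|A|⁴`. -/
theorem jqf (h : TG u Y) : PJ (qf u) Y
    (2 * (r u Y * c0 u Y + 2 * s u Y * c1' u Y + t u Y * c2 u Y))
    (2 * (r u Y * c1' u Y + 2 * s u Y * c2 u Y + t u Y * c3 u Y))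
    (2 * aa u Y ^ 2 - 2 * da2 u Y) := by
  refine (h.jkap.mul ((h.jm11.sq.add ((h.jm12.mul h.jm21).const_mul 2)).add h.jm22.sq)).of_eq
    ?_ ?_ ?_
  · simp only [h.kap_c, h.m11_c, h.m12_c, h.m21_c, h.m22_c]; ring
  · simp only [h.kap_c, h.m11_c, h.m12_c, h.m21_c, h.m22_c]; ring
  · simp only [h.kap_c, h.m11_c, h.m12_c, h.m21_c, h.m22_c, aa, da2]; ring

end TG

end Pool.Agent.MCFM
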