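import Pool.Agent.Work.MP_494ea5_gt.Geo

/-!
# The static lemma: a ball of fixed size about the origin
-/

open Set Filter Topology Metric
open scoped ContDiff InnerProductSpace

namespace Pool.Agent.MCFM

namespace Geo

variable {T : ℝ} {φ : E × ℝ → ℝ}

/-- `refl` is a linear isometric involution -/
lemma inner_refl {α : E} (hα : ‖α‖ = 1) (v w : E) : ⟪refl α v, refl α w⟫_ℝ = ⟪v, w⟫_ℝ := by
  have h1 : ⟪α, α⟫_ℝ = 1 := by rw [real_inner_self_eq_norm_sq, hα]; norm_num
  unfold refl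
  rw [inner_sub_left, inner_sub_right, inner_sub_right, real_inner_smul_left,
    real_inner_smul_right, real_inner_smul_left, real_inner_smul_right, h1,
    real_inner_comm α v]
  ring

lemma refl_refl {α : E} (hα : ‖α‖ = 1) (v : E) : refl α (refl α v) = v := by
  have h1 : ⟪α, α⟫_ℝ = 1 := by rw [real_inner_self_eq_norm_sq, hα]; norm_num
  unfold refl
  rw [inner_sub_right, real_inner_smul_right, h1]
  module

lemma refl_sub (α v w : E) : refl α (v - w) = refl α v - refl α w := by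
  unfold refl
  rw [inner_sub_right]
  module

lemma refl_add (α v w : E) : refl α (v + w) = refl α v + refl α w := by
  unfold refl
  rw [inner_add_right]
  module

lemma refl_smul (α : E) (c : ℝ) (v : E) : refl α (c • v) = c • refl α v := by
  unfold refl
  rw [real_inner_smul_right]
  module

lemma norm_refl {α : E} (hα : ‖α‖ = 1) (v : E) : ‖refl α v‖ = ‖v‖ := by
  have h := inner_refl hα v v
  rw [real_inner_self_eq_norm_sq, real_inner_self_eq_norm_sq] at h
  have h1 := norm_nonneg (refl α v)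
  have h2 := norm_nonneg v
  nlinarith [sq_nonneg (‖refl α v‖ - ‖v‖), sq_nonneg (‖refl α v‖ + ‖v‖)]

lemma continuous_refl (α : E) : Continuous (refl α) := by
  unfold refl
  fun_prop

/-- the symmetry of the closed domains -/
lemma sym_le (F : Flow T φ) {t : ℝ} (ht : t ∈ Ico 0 T) {α : E} (hs : Sym φ α t) {p : E}
    (hp : φ (p, t) ≤ 0) : φ (refl α p, t) ≤ 0 := by
  have h1 := mem_closure F ht hp
  have h2 : closure {q : E | φ (q, t) < 0} ⊆ {q : E | φ (refl α q, t) ≤ 0} := by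
    refine closure_minimal (fun q hq => (hs q hq).le) ?_
    exact isClosed_le ((cont_t F ht.2).comp (continuous_refl α)) continuous_const
  exact h2 h1

lemma sym_neg {α : E} {t : ℝ} (hs : Sym φ α t) : Sym φ (-α) t := by
  intro p hp
  have h := hs p hp
  have h1 : refl (-α) p = refl α p := by
    unfold refl
    rw [inner_neg_left]
    module
  rw [h1]; exact h

lemma big_neg {α : E} {t ε : ℝ} (hs : Big φ ε α t) : Big φ ε (-α) t := by
  intro p hp
  have h := hs p hp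
  rw [inner_neg_left, inner_neg_left]
  have h2 : (-⟪α, p⟫_ℝ) ^ 2 = ⟪α, p⟫_ℝ ^ 2 := by ring
  rw [h2]
  linarith

/-- descent along a segment -/
lemma desc (F : Flow T φ) {t : ℝ} (ht : t ∈ Ico 0 T) {p v : E} (h0 : φ (p, t) ≤ 0)
    (h : ∀ s ∈ Ico (0 : ℝ) 1, φ (p + s • v, t) = 0 → ⟪nu φ (p + s • v, t), v⟫_ℝ < 0) :
    φ (p + v, t) ≤ 0 := by
  have h1 : ∀ s : ℝ, HasDerivAt (fun s : ℝ => φ (p + s • v, t)) (dx φ v (p + s • v, t)) s :=
    fun s => line_deriv (da F ht.2)
  have h2 := image_le_of_deriv_right_lt_deriv_boundary (a := (0:ℝ)) (b := 1)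
    (f := fun s : ℝ => φ (p + s • v, t)) (f' := fun s => dx φ v (p + s • v, t))
    (B := fun _ => 0) (B' := fun _ => 0)
    (fun s _ => (h1 s).continuousAt.continuousWithinAt) (fun s _ => (h1 s).hasDerivWithinAt)
    (by simpa using h0) (fun s => hasDerivAt_const s 0) (fun s hs h3 => by
      rw [dx_nu (F.regular t ht _ h3)]
      have h4 := norm_pos_iff.2 (F.regular t ht _ h3)
      exact mul_neg_of_pos_of_neg h4 (h s hs h3))
  have h3 := h2 (x := 1) ⟨zero_le_one, le_refl 1⟩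
  simpa using h3

lemma big_pos {α : E} {t ε : ℝ} (hb : Big φ ε α t) {x : E} (hx : φ (x, t) = 0)
    (hpos : 0 < ⟪α, x⟫_ℝ) : ε * ⟪α, x⟫_ℝ ≤ ⟪nu φ (x, t), α⟫_ℝ := by
  have h := hb x hx
  rw [real_inner_comm α (nu φ (x, t))]
  have h1 : ⟪α, x⟫_ℝ * (ε * ⟪α, x⟫_ℝ) ≤ ⟪α, x⟫_ℝ * ⟪α, nu φ (x, t)⟫_ℝ := by
    calc _ = ε * ⟪α, x⟫_ℝ ^ 2 := by ring
      _ ≤ _ := h
  exact le_of_mul_le_mul_left h1 hpos

/-- the first ball -/
lemma first (F : Flow T φ) {t : ℝ} (ht : t ∈ Ico 0 T) {ε s : ℝ} (hε : 0 < ε) (hs : 0 < s)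
    {α : E} (hα : ‖α‖ = 1) (hb : Big φ ε α t) {p : E} (hp : φ (p, t) ≤ 0)
    (hps : s ≤ ⟪α, p⟫_ℝ) {w : E} (hw : ‖w‖ < min (ε * s ^ 2 / 8) (s / 4)) :
    φ (p + (-(s / 2) • α + w), t) ≤ 0 := by
  have h1 : ⟪α, α⟫_ℝ = 1 := by rw [real_inner_self_eq_norm_sq, hα]; norm_num
  obtain ⟨hw1, hw2⟩ := lt_min_iff.1 hw
  refine desc F ht hp fun τ hτ hx => ?_
  have h2 : |⟪α, w⟫_ℝ| ≤ ‖w‖ := by
    have := abs_real_inner_le_norm α w
    rwa [hα, one_mul] at this
  have h3 : s / 4 ≤ ⟪α, p + τ • (-(s / 2) • α + w)⟫_ℝ := by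
    rw [inner_add_right, real_inner_smul_right, inner_add_right, real_inner_smul_right, h1]
    have h4 := neg_abs_le ⟪α, w⟫_ℝ
    have h5 : -(s/4) ≤ τ * ⟪α, w⟫_ℝ := by
      have h6 : |τ * ⟪α, w⟫_ℝ| ≤ s / 4 := by
        rw [abs_mul, abs_of_nonneg hτ.1]
        calc τ * |⟪α, w⟫_ℝ| ≤ 1 * |⟪α, w⟫_ℝ| :=
              mul_le_mul_of_nonneg_right hτ.2.le (abs_nonneg _)
          _ ≤ s / 4 := by linarith
      have := neg_abs_le (τ * ⟪α, w⟫_ℝ)
      linarith
    have h7 : τ * (s / 2) ≤ s / 2 := by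
      have := mul_le_mul_of_nonneg_right hτ.2.le (by positivity : (0:ℝ) ≤ s / 2)
      linarith
    nlinarith
  have h4 := big_pos hb hx (by linarith)
  set x := p + τ • (-(s / 2) • α + w) with hxdef
  have h5 : ε * (s / 4) ≤ ⟪nu φ (x, t), α⟫_ℝ :=
    (mul_le_mul_of_nonneg_left h3 hε.le).trans h4
  rw [inner_add_right, real_inner_smul_right]
  have h6 : ⟪nu φ (x, t), w⟫_ℝ ≤ ‖w‖ := by
    have := real_inner_le_norm (nu φ (x, t)) w
    rwa [norm_nu (F.regular t ht x hx), one_mul] at this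
  nlinarith

/-- stability of the set of centres under the projection onto a mirror -/
lemma proj (F : Flow T φ) {t : ℝ} (ht : t ∈ Ico 0 T) {ε r : ℝ} (hε : 0 < ε)
    {β : E} (hβ : ‖β‖ = 1) (hs : Sym φ β t) (hb : Big φ ε β t) {c : E}
    (hc : ∀ y, ‖y - c‖ < r → φ (y, t) ≤ 0) (hpos : 0 < ⟪β, c⟫_ℝ) :
    ∀ y, ‖y - (c - ⟪β, c⟫_ℝ • β)‖ < r → φ (y, t) ≤ 0 := by
  have h1 : ⟪β, β⟫_ℝ = 1 := by rw [real_inner_self_eq_norm_sq, hβ]; norm_num
  -- first the points on the positive side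
  have key : ∀ y, ‖y - (c - ⟪β, c⟫_ℝ • β)‖ < r → 0 ≤ ⟪β, y⟫_ℝ → φ (y, t) ≤ 0 := by
    intro y hy hy0
    have h2 : φ (y + ⟪β, c⟫_ℝ • β, t) ≤ 0 := by
      apply hc
      have : y + ⟪β, c⟫_ℝ • β - c = y - (c - ⟪β, c⟫_ℝ • β) := by abel
      rw [this]; exact hy
    have h3 := desc F ht (p := y + ⟪β, c⟫_ℝ • β) (v := -(⟪β, c⟫_ℝ) • β) h2 (by
      intro τ hτ hx
      have h4 : 0 < ⟪β, y + ⟪β, c⟫_ℝ • β + τ • (-(⟪β, c⟫_ℝ) • β)⟫_ℝ := by
        rw [inner_add_right, inner_add_right, real_inner_smul_right, real_inner_smul_right,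
          real_inner_smul_right, h1]
        have h5 : 0 < (1 - τ) * ⟪β, c⟫_ℝ := mul_pos (by linarith [hτ.2]) hpos
        nlinarith
      have h6 := big_pos hb hx h4
      rw [real_inner_smul_right]
      have h7 := mul_pos hε h4
      nlinarith)
    have h8 : y + ⟪β, c⟫_ℝ • β + -(⟪β, c⟫_ℝ) • β = y := by module
    rwa [h8] at h3
  intro y hy
  rcases le_or_gt 0 ⟪β, y⟫_ℝ with h0 | h0
  · exact key y hy h0
  · have h2 : φ (refl β y, t) ≤ 0 := by
      apply key
      · have h3 : refl β y - (c - ⟪β, c⟫_ℝ • β) = refl β (y - (c - ⟪β, c⟫_ℝ • β)) := by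
          rw [refl_sub]
          have h4 : refl β (c - ⟪β, c⟫_ℝ • β) = c - ⟪β, c⟫_ℝ • β := by
            unfold refl
            rw [inner_sub_right, real_inner_smul_right, h1]
            module
          rw [h4]
        rw [h3, norm_refl hβ]
        exact hy
      · unfold refl
        rw [inner_sub_right, real_inner_smul_right, h1]
        linarith
    have h3 := sym_le F ht hs h2
    rwa [refl_refl hβ] at h3

end Geo

open Geo in
/-- **Static lemma**: a ball of fixed size about the origin -/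
theorem Flow.ball {T : ℝ} {φ : E × ℝ → ℝ} (F : Flow T φ) {ε s : ℝ} (hε : 0 < ε) (hs : 0 < s)
    {S : Set E} (hS : ∀ α ∈ S, ‖α‖ = 1) (hspan : Submodule.span ℝ S = ⊤) {t : ℝ}
    (ht : t ∈ Ico 0 T) (hsym : ∀ α ∈ S, Sym φ α t) (hbig : ∀ α ∈ S, Big φ ε α t)
    {p α : E} (hα : α ∈ S) (hp : φ (p, t) ≤ 0) (hps : s ≤ |⟪α, p⟫_ℝ|) :
    ∀ q, ‖q‖ < min (ε * s ^ 2 / 8) (s / 4) → φ (q, t) < 0 := by
  set r := min (ε * s ^ 2 / 8) (s / 4) with hr
  have hr0 : 0 < r := lt_min (by positivity) (by positivity)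
  let C : Set E := {c | ∀ y, ‖y - c‖ < r → φ (y, t) ≤ 0}
  -- the set of centres is not empty
  have hne : C.Nonempty := by
    rcases le_abs.1 hps with h | h
    · refine ⟨p - (s / 2) • α, fun y hy => ?_⟩
      have h1 := first F ht hε hs (hS α hα) (hbig α hα) hp h (w := y - (p - (s / 2) • α)) hy
      have h2 : p + (-(s / 2) • α + (y - (p - (s / 2) • α))) = y := by module
      rwa [h2] at h1
    · refine ⟨p - (s / 2) • (-α), fun y hy => ?_⟩
      have h1 := first F ht hε hs (α := -α) (by rw [norm_neg]; exact hS α hα)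
        (big_neg (hbig α hα)) hp (by rw [inner_neg_left]; exact h)
        (w := y - (p - (s / 2) • (-α))) hy
      have h2 : p + (-(s / 2) • (-α) + (y - (p - (s / 2) • (-α)))) = y := by module
      rwa [h2] at h1
  have hproj : ∀ c ∈ C, ∀ β ∈ S, ⟪β, c⟫_ℝ ≠ 0 → c - ⟪β, c⟫_ℝ • β ∈ C := by
    intro c hc β hβ h0
    rcases lt_or_gt_of_ne h0 with h | h
    · have h1 := proj F ht hε (β := -β) (by rw [norm_neg]; exact hS β hβ)
        (sym_neg (hsym β hβ)) (big_neg (hbig β hβ)) hc (by rw [inner_neg_left]; linarith)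
      have h2 : c - ⟪-β, c⟫_ℝ • -β = c - ⟪β, c⟫_ℝ • β := by
        rw [inner_neg_left]; module
      rw [h2] at h1
      exact h1
    · exact proj F ht hε (hS β hβ) (hsym β hβ) (hbig β hβ) hc h
  have hclosed : IsClosed C := by
    have : C = ⋂ z : E, ⋂ (_ : ‖z‖ < r), {c : E | φ (c + z, t) ≤ 0} := by
      ext c
      simp only [C, mem_iInter]
      change (∀ y, ‖y - c‖ < r → φ (y, t) ≤ 0) ↔ ∀ z : E, ‖z‖ < r → φ (c + z, t) ≤ 0
      constructor
      · intro h z hz
        apply h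
        rw [add_sub_cancel_left]; exact hz
      · intro h y hy
        have := h (y - c) hy
        rwa [add_sub_cancel] at this
    rw [this]
    refine isClosed_iInter fun z => isClosed_iInter fun _ => ?_
    exact isClosed_le ((cont_t F ht.2).comp (by fun_prop)) continuous_const
  have hbdd : Bornology.IsBounded C := by
    obtain ⟨R, hR⟩ := F.bounded t ht.2
    refine (isBounded_iff_forall_norm_le.2 ⟨R, fun c hc => ?_⟩)
    exact hR t ⟨ht.1, le_refl t⟩ c (hc c (by rw [sub_self, norm_zero]; exact hr0))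
  have hcomp : IsCompact C := isCompact_of_isClosed_isBounded hclosed hbdd
  obtain ⟨c, hc, hmin⟩ := hcomp.exists_isMinOn hne continuous_norm.continuousOn
  have hc0 : c = 0 := by
    by_contra hne0
    obtain ⟨β, hβ, hβc⟩ : ∃ β ∈ S, ⟪β, c⟫_ℝ ≠ 0 := by
      by_contra hno
      push Not at hno
      apply hne0
      have h1 : c ∈ (Submodule.span ℝ S)ᗮ := by
        rw [Submodule.mem_orthogonal]
        intro u hu
        induction hu using Submodule.span_induction with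
        | mem x hx => exact hno x hx
        | zero => exact inner_zero_left _
        | add x y _ _ hx hy => rw [inner_add_left, hx, hy, add_zero]
        | smul a x _ hx => rw [real_inner_smul_left, hx, mul_zero]
      rw [hspan, Submodule.top_orthogonal_eq_bot] at h1
      exact (Submodule.mem_bot ℝ).1 h1
    have h1 := hmin (hproj c hc β hβ hβc)
    have h2 : ‖c‖ ≤ ‖c - ⟪β, c⟫_ℝ • β‖ := h1
    have h3 : ‖c - ⟪β, c⟫_ℝ • β‖ ^ 2 = ‖c‖ ^ 2 - ⟪β, c⟫_ℝ ^ 2 := by
      rw [← real_inner_self_eq_norm_sq, ← real_inner_self_eq_norm_sq, inner_sub_left,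
        inner_sub_right, inner_sub_right, real_inner_smul_left, real_inner_smul_right,
        real_inner_smul_left, real_inner_smul_right, real_inner_self_eq_norm_sq β, hS β hβ,
        real_inner_comm β c]
      ring
    have h4 : 0 < ⟪β, c⟫_ℝ ^ 2 := by positivity
    have h5 := norm_nonneg c
    nlinarith [norm_nonneg (c - ⟪β, c⟫_ℝ • β)]
  intro q hq
  refine lt_of_near F ht ?_
  have h1 : ∀ᶠ y in 𝓝 q, ‖y‖ < r := continuous_norm.continuousAt.eventually (Iio_mem_nhds hq)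
  filter_upwards [h1] with y hy
  refine hc y ?_
  rw [hc0, sub_zero]; exact hy

end Pool.Agent.MCFM
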