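import Pool.Agent.Work.MP_494ea5_gt.MaxP
import Pool.Agent.Work.MP_494ea5_gt.Static

/-!
# The bigraph property is preserved
-/

open Set Filter Topology Metric
open scoped ContDiff InnerProductSpace

namespace Pool.Agent.MCFM

variable {T : ℝ} {φ : E × ℝ → ℝ}

/-- the moving surface on `[0, t₁]` -/
def Kc (φ : E × ℝ → ℝ) (t₁ : ℝ) : Set (E × ℝ) := {X | X.2 ∈ Icc 0 t₁ ∧ φ X = 0}

theorem Flow.compact (F : Flow T φ) {t₁ : ℝ} (ht : t₁ < T) : IsCompact (Kc φ t₁) := by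
  obtain ⟨R, hR⟩ := F.bounded t₁ ht
  have hcont : ContinuousOn φ {X : E × ℝ | X.2 ∈ Icc 0 t₁} := fun X hX =>
    (Geo.ca F (lt_of_le_of_lt hX.2 ht)).continuousWithinAt
  have hcl : IsClosed {X : E × ℝ | X.2 ∈ Icc 0 t₁} := isClosed_Icc.preimage continuous_snd
  have h1 : IsClosed (Kc φ t₁) := by
    have : Kc φ t₁ = {X : E × ℝ | X.2 ∈ Icc 0 t₁} ∩ φ ⁻¹' {0} := by
      ext X; simp [Kc]
    rw [this]
    exact hcont.preimage_isClosed_of_isClosed hcl isClosed_singleton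
  refine (((isCompact_closedBall (0 : E) R).prod (isCompact_Icc (a := (0:ℝ)) (b := t₁)))
    ).of_isClosed_subset h1 ?_
  rintro ⟨p, t⟩ ⟨h2, h3⟩
  refine ⟨?_, h2⟩
  rw [mem_closedBall_zero_iff]
  exact hR t h2 p h3.le

theorem Flow.cont_dx (F : Flow T φ) {X : E × ℝ} (hX : X.2 < T) (v : E) :
    ContinuousAt (dx φ v) X :=
  (dx_contDiffAt (m := 1) (F.cdn hX 2) (by norm_num) v).continuousAt

theorem Flow.cont_grad (F : Flow T φ) {X : E × ℝ} (hX : X.2 < T) :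
    ContinuousAt (grad φ) X := by
  unfold grad
  simp only [Fin.sum_univ_three]
  exact (((F.cont_dx hX _).smul continuousAt_const).add
    ((F.cont_dx hX _).smul continuousAt_const)).add ((F.cont_dx hX _).smul continuousAt_const)

theorem Flow.cont_nu (F : Flow T φ) {X : E × ℝ} (hX : X.2 < T) (hg : grad φ X ≠ 0) :
    ContinuousAt (nu φ) X := by
  unfold nu
  exact ((F.cont_grad hX).norm.inv₀ (norm_ne_zero_iff.2 hg)).smul (F.cont_grad hX)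

theorem Flow.cont_sqA (F : Flow T φ) {X : E × ℝ} (hX : X.2 < T) (hg : grad φ X ≠ 0) :
    ContinuousAt (sqA φ) X := by
  have hn := F.cont_nu hX hg
  have ht : ∀ v : E, ContinuousAt (fun Y => tan φ Y v) X := by
    intro v
    unfold tan
    have h1 : ContinuousAt (fun Y => ⟪nu φ Y, v⟫_ℝ) X := hn.inner continuousAt_const
    exact continuousAt_const.sub (h1.smul hn)
  have hd : ContinuousAt (fderiv ℝ (fderiv ℝ φ)) X := by
    have h2 : ContDiffAt ℝ 2 φ X := F.cdn hX 2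
    have h1 : ContDiffAt ℝ 1 (fderiv ℝ φ) X := h2.fderiv_right (by norm_num)
    have h0 : ContDiffAt ℝ 0 (fderiv ℝ (fderiv ℝ φ)) X := h1.fderiv_right (by norm_num)
    exact h0.continuousAt
  have hs : ∀ v w : E, ContinuousAt (fun Y => sff φ Y v w) X := by
    intro v w
    unfold sff hess
    refine ContinuousAt.div ?_ (F.cont_grad hX).norm (norm_ne_zero_iff.2 hg)
    exact (hd.clm_apply ((ht v).prodMk continuousAt_const)).clm_apply
      ((ht w).prodMk continuousAt_const)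
  unfold sqA
  simp only [Fin.sum_univ_three]
  exact ((((hs _ _).pow 2).add ((hs _ _).pow 2)).add ((hs _ _).pow 2)).add
    ((((hs _ _).pow 2).add ((hs _ _).pow 2)).add ((hs _ _).pow 2)) |>.add
    ((((hs _ _).pow 2).add ((hs _ _).pow 2)).add ((hs _ _).pow 2))

/-- the normal is tangent to the mirror along the mirror -/
theorem nu_mirror (F : Flow T φ) {α : E} (hα : ‖α‖ = 1) {t : ℝ} (ht : t ∈ Ico 0 T)
    (hs : Sym φ α t) {p : E} (hp : φ (p, t) = 0) (hx : ⟪α, p⟫_ℝ = 0) :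
    ⟪α, nu φ (p, t)⟫_ℝ = 0 := by
  have hr : ∀ s : ℝ, refl α (p + s • α) = p + (-s) • α := by
    intro s
    unfold refl
    rw [inner_add_right, hx, real_inner_smul_right, real_inner_self_eq_norm_sq, hα]
    module
  have key : ∀ c : ℝ, c ≠ 0 → ¬ (dx φ (c • α) (p, t) < 0) := by
    intro c _ hc
    have h1 := Geo.line_deriv (φ := φ) (p := p) (v := c • α) (t := t) (s := 0)
      (by rw [zero_smul, add_zero]; exact Geo.da F ht.2)
    rw [zero_smul, add_zero] at h1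
    have h2 := Geo.neg_of_deriv h1 (by rw [zero_smul, add_zero]; exact hp) hc
    have h3 := Geo.line_deriv (φ := φ) (p := p) (v := (-c) • α) (t := t) (s := 0)
      (by rw [zero_smul, add_zero]; exact Geo.da F ht.2)
    rw [zero_smul, add_zero] at h3
    have h4 : HasDerivAt (fun s : ℝ => -φ (p + s • ((-c) • α), t)) (dx φ (c • α) (p, t)) 0 := by
      have e : dx φ (c • α) (p, t) = -dx φ ((-c) • α) (p, t) := by
        rw [Geo.dx_smul, Geo.dx_smul]; ring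
      rw [e]
      exact h3.fun_neg
    have h5 := Geo.neg_of_deriv h4 (by rw [zero_smul, add_zero, hp, neg_zero]) hc
    obtain ⟨s, h6, h7⟩ := (h2.and h5).exists
    have h8 := hs _ h6
    have e1 : p + s • (c • α) = p + (s * c) • α := by rw [smul_smul]
    have e2 : p + s • ((-c) • α) = p + (-(s * c)) • α := by rw [smul_smul]; congr 2; ring
    rw [e1, hr, ← e2] at h8
    linarith
  have h1 := key 1 one_ne_zero
  have h2 := key (-1) (by norm_num)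
  rw [Geo.dx_smul] at h1 h2
  have h3 : dx φ α (p, t) = 0 := by linarith
  unfold nu
  rw [real_inner_smul_right, real_inner_comm, inner_grad, h3, mul_zero]

section coords

variable {Y : R3}

theorem PJ.c1 : PJ (fun Z : R3 => Z.1) Y 1 0 0 := by
  have h : ∀ v Z, D v (fun Z : R3 => Z.1) Z = v.1 := by
    intro v Z
    have : HasFDerivAt (fun Z : R3 => Z.1) (ContinuousLinearMap.fst ℝ ℝ (ℝ × ℝ)) Z :=
      (ContinuousLinearMap.fst ℝ ℝ (ℝ × ℝ)).hasFDerivAt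
    unfold D; rw [this.fderiv]; rfl
  have h' : ∀ v, D v (fun Z : R3 => Z.1) = fun _ => v.1 := fun v => funext (h v)
  refine ⟨by fun_prop, h _ _, h _ _, ?_⟩
  rw [h', h', h', D_const, D_const]
  simp [v3]

theorem PJ.c2 : PJ (fun Z : R3 => Z.2.1) Y 0 1 0 := by
  have h : ∀ v Z, D v (fun Z : R3 => Z.2.1) Z = v.2.1 := by
    intro v Z
    have : HasFDerivAt (fun Z : R3 => Z.2.1) ((ContinuousLinearMap.fst ℝ ℝ ℝ).comp
        (ContinuousLinearMap.snd ℝ ℝ (ℝ × ℝ))) Z :=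
      ((ContinuousLinearMap.fst ℝ ℝ ℝ).comp (ContinuousLinearMap.snd ℝ ℝ (ℝ × ℝ))).hasFDerivAt
    unfold D; rw [this.fderiv]; rfl
  have h' : ∀ v, D v (fun Z : R3 => Z.2.1) = fun _ => v.2.1 := fun v => funext (h v)
  refine ⟨by fun_prop, h _ _, h _ _, ?_⟩
  rw [h', h', h', D_const, D_const]
  simp [v3]

/-- the exponential of time -/
theorem PJ.ex (l : ℝ) : PJ (fun Z : R3 => Real.exp (-l * Z.2.2)) Y 0 0
    (-l * Real.exp (-l * Y.2.2)) := by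
  have h : ∀ v Z, D v (fun Z : R3 => Real.exp (-l * Z.2.2)) Z =
      -l * v.2.2 * Real.exp (-l * Z.2.2) := by
    intro v Z
    have h1 : HasFDerivAt (fun Z : R3 => Z.2.2) ((ContinuousLinearMap.snd ℝ ℝ ℝ).comp
        (ContinuousLinearMap.snd ℝ ℝ (ℝ × ℝ))) Z :=
      ((ContinuousLinearMap.snd ℝ ℝ ℝ).comp (ContinuousLinearMap.snd ℝ ℝ (ℝ × ℝ))).hasFDerivAt
    have h2 := (h1.const_mul (-l)).exp
    unfold D; rw [h2.fderiv]
    simp
    ring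
  have h1 : D v1 (fun Z : R3 => Real.exp (-l * Z.2.2)) = fun _ => 0 := by
    funext Z; rw [h]; simp [v1]
  have h2 : D v2 (fun Z : R3 => Real.exp (-l * Z.2.2)) = fun _ => 0 := by
    funext Z; rw [h]; simp [v2]
  refine ⟨?_, by rw [h1], by rw [h2], ?_⟩
  · have : ContDiff ℝ 2 (fun Z : R3 => Real.exp (-l * Z.2.2)) := by fun_prop
    exact this.contDiffAt
  · rw [h1, h2, D_const, D_const, h]
    simp [v3]

end coords

/-- the coordinate `⟪α, ·⟫` in a graph -/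
theorem inner_Th (b : OrthonormalBasis (Fin 3) ℝ E) (p α : E) (u : R3 → ℝ) (Z : R3) :
    ⟪α, (Th b p u Z).1⟫_ℝ = ⟪α, p⟫_ℝ + ⟪b 0, α⟫_ℝ * Z.1 + ⟪b 1, α⟫_ℝ * Z.2.1 +
      ⟪b 2, α⟫_ℝ * u Z := by
  unfold Th
  rw [inner_add_right, inner_add_right, inner_add_right, real_inner_smul_right,
    real_inner_smul_right, real_inner_smul_right, real_inner_comm (b 0), real_inner_comm (b 1),
    real_inner_comm (b 2)]
  ring

theorem TG.jx {u : R3 → ℝ} {Y : R3} (h : TG u Y) (x a1 a2 a3 : ℝ) :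
    PJ (fun Z : R3 => x + a1 * Z.1 + a2 * Z.2.1 + a3 * u Z) Y a1 a2 0 :=
  ((((PJ.const x).add (PJ.c1.const_mul a1)).add (PJ.c2.const_mul a2)).add
    (h.ju.const_mul a3)).of_eq (by ring) (by ring) (by ring)

/-- one side of the bigraph inequality is preserved -/
theorem Flow.big_side (F : Flow T φ) {ε : ℝ} (hε : 0 < ε) {α : E} (hα : ‖α‖ = 1)
    (hs : ∀ t ∈ Ico 0 T, Sym φ α t)
    (h0 : ∀ p, φ (p, 0) = 0 → 0 ≤ ⟪α, p⟫_ℝ → ε * ⟪α, p⟫_ℝ ≤ ⟪α, nu φ (p, 0)⟫_ℝ)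
    {t₁ : ℝ} (ht₁ : t₁ ∈ Ico 0 T) {p : E} (hp : φ (p, t₁) = 0) (hx : 0 ≤ ⟪α, p⟫_ℝ) :
    ε * ⟪α, p⟫_ℝ ≤ ⟪α, nu φ (p, t₁)⟫_ℝ := by
  have hK := F.compact ht₁.2
  have hreg : ∀ X ∈ Kc φ t₁, grad φ X ≠ 0 := fun X hX =>
    F.regular X.2 ⟨hX.1.1, lt_of_le_of_lt hX.1.2 ht₁.2⟩ X.1 hX.2
  have hlt : ∀ X ∈ Kc φ t₁, X.2 < T := fun X hX => lt_of_le_of_lt hX.1.2 ht₁.2
  obtain ⟨C, hC⟩ := hK.bddAbove_image (f := sqA φ) fun X hX =>
    (F.cont_sqA (hlt X hX) (hreg X hX)).continuousWithinAt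
  have hC' : ∀ X ∈ Kc φ t₁, sqA φ X ≤ C := fun X hX => hC ⟨X, hX, rfl⟩
  set l := C + 1 with hl
  let g : E × ℝ → ℝ := fun X =>
    Real.exp (-l * X.2) * (⟪α, nu φ X⟫_ℝ - ε * ⟪α, X.1⟫_ℝ)
  let K' : Set (E × ℝ) := Kc φ t₁ ∩ {X | 0 ≤ ⟪α, X.1⟫_ℝ}
  have hK' : IsCompact K' := hK.inter_right
    (isClosed_le continuous_const (by fun_prop))
  have hgc : ContinuousOn g K' := by
    intro X hX
    refine ContinuousAt.continuousWithinAt ?_
    have h1 := F.cont_nu (hlt X hX.1) (hreg X hX.1)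
    have h2 : ContinuousAt (fun X : E × ℝ => ⟪α, nu φ X⟫_ℝ) X := continuousAt_const.inner h1
    have h3 : ContinuousAt (fun X : E × ℝ => Real.exp (-l * X.2)) X := by fun_prop
    have h4 : ContinuousAt (fun X : E × ℝ => ε * ⟪α, X.1⟫_ℝ) X := by fun_prop
    exact h3.mul (h2.sub h4)
  have hmem : (p, t₁) ∈ K' := ⟨⟨⟨ht₁.1, le_rfl⟩, hp⟩, hx⟩
  obtain ⟨X, hX, hmin⟩ := hK'.exists_isMinOn ⟨_, hmem⟩ hgc
  by_contra hcon
  push Not at hcon
  have hgX : g X < 0 := by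
    refine lt_of_le_of_lt (hmin hmem) ?_
    refine mul_neg_of_pos_of_neg (Real.exp_pos _) ?_
    linarith
  have hf : ⟪α, nu φ X⟫_ℝ - ε * ⟪α, X.1⟫_ℝ < 0 := by
    by_contra hc
    push Not at hc
    have := mul_nonneg (Real.exp_pos (-l * X.2)).le hc
    exact absurd hgX (not_lt.2 this)
  have hXt : X.2 ∈ Ico 0 T := ⟨hX.1.1.1, hlt X hX.1⟩
  have hX0 : 0 < X.2 := by
    rcases eq_or_lt_of_le hX.1.1.1 with h | h
    · exfalso
      have hX' : X = (X.1, 0) := by rw [h]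
      have h1 : φ (X.1, 0) = 0 := by rw [← hX']; exact hX.1.2
      have := h0 X.1 h1 hX.2
      rw [← hX'] at this
      linarith
    · exact h
  have hxX : 0 < ⟪α, X.1⟫_ℝ := by
    rcases eq_or_lt_of_le (show 0 ≤ ⟪α, X.1⟫_ℝ from hX.2) with h | h
    · exfalso
      have := nu_mirror F hα hXt (hs X.2 hXt) hX.1.2 h.symm
      change ⟪α, nu φ X⟫_ℝ = 0 at this
      rw [this, ← h] at hf
      simp at hf
    · exact h
  have hIoo : X.2 ∈ Ioo 0 T := ⟨hX0, hXt.2⟩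
  obtain ⟨b, u, hb, hu, hu0, hTG, hTh, hE⟩ := F.exists_TG hIoo hX.1.2
  have hmax : ∀ᶠ Y in 𝓝 X, φ Y = 0 → Y.2 ≤ X.2 → -g Y ≤ -g X := by
    have e1 : ∀ᶠ Y : E × ℝ in 𝓝 X, 0 < ⟪α, Y.1⟫_ℝ := by
      have : ContinuousAt (fun Y : E × ℝ => ⟪α, Y.1⟫_ℝ) X := by fun_prop
      exact this.eventually (eventually_gt_nhds hxX)
    have e2 : ∀ᶠ Y : E × ℝ in 𝓝 X, 0 < Y.2 := by
      have : ContinuousAt (fun Y : E × ℝ => Y.2) X := by fun_prop
      exact this.eventually (eventually_gt_nhds hX0)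
    filter_upwards [e1, e2] with Y y1 y2 y3 y4
    have : Y ∈ K' := ⟨⟨⟨y2.le, y4.trans hX.1.1.2⟩, y3⟩, y1.le⟩
    exact neg_le_neg (hmin this)
  have hm := Flow.max_graph (f := fun Y => -g Y) hu hTh hE hmax
  have hn := hTG.jnuf ⟪b 0, α⟫_ℝ ⟪b 1, α⟫_ℝ ⟪b 2, α⟫_ℝ
  have hxj := hTG.jx ⟪α, X.1⟫_ℝ ⟪b 0, α⟫_ℝ ⟪b 1, α⟫_ℝ ⟪b 2, α⟫_ℝ
  have hP := ((PJ.ex (Y := (0, 0, X.2)) l).mul (hn.sub (hxj.const_mul ε))).neg
  have hP' := hP.congr (g := fun Z => -g (Th b X.1 u Z)) (by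
    filter_upwards [hE] with Z hZ
    simp only [g]
    rw [hZ.1.nu_eq hZ.2.1, inner_Th]
    rfl)
  obtain ⟨-, -, h3⟩ := hP'.max hm
  have hv : TG.nuf u ⟪b 0, α⟫_ℝ ⟪b 1, α⟫_ℝ ⟪b 2, α⟫_ℝ (0, 0, X.2) = ⟪b 2, α⟫_ℝ :=
    hTG.nuf_c _ _ _
  have hnX : ⟪α, nu φ X⟫_ℝ = ⟪b 2, α⟫_ℝ := by rw [hb, real_inner_comm]
  have haa : TG.aa u (0, 0, X.2) = sqA φ X := by
    obtain ⟨g1, g2, g3⟩ := hE.self_of_nhds
    rw [← hTG.qf_c, ← g1.sqA_eq g2, hTh]
  have haa0 : 0 ≤ TG.aa u (0, 0, X.2) := by unfold TG.aa; positivity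
  have haaC : TG.aa u (0, 0, X.2) ≤ C := by rw [haa]; exact hC' X hX.1
  rw [hnX] at hf
  simp only [hv, hu0, mul_zero, add_zero] at h3
  have he := Real.exp_pos (-l * X.2)
  set e := Real.exp (-l * X.2)
  set n := ⟪b 2, α⟫_ℝ
  set x := ⟪α, X.1⟫_ℝ
  set A := TG.aa u (0, 0, X.2)
  have h4 : 0 ≤ -(e * (n * A - l * (n - ε * x))) := by
    refine h3.trans (le_of_eq ?_)
    ring
  have h5 : 0 < n * A - l * (n - ε * x) := by
    have h6 : (n - ε * x) * A ≤ n * A := by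
      have : 0 ≤ ε * x * A := by positivity
      linarith
    have h7 : (n - ε * x) * C ≤ (n - ε * x) * A := by
      nlinarith
    rw [hl]
    nlinarith
  have := mul_pos he h5
  linarith

theorem Flow.big {T : ℝ} {φ : E × ℝ → ℝ} (F : Flow T φ) {ε : ℝ} (hε : 0 < ε) {α : E}
    (hα : ‖α‖ = 1) (hs : ∀ t ∈ Ico 0 T, Sym φ α t) (h0 : Big φ ε α 0) :
    ∀ t ∈ Ico 0 T, Big φ ε α t := by
  have side : ∀ β : E, ‖β‖ = 1 → (∀ t ∈ Ico 0 T, Sym φ β t) → Big φ ε β 0 →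
      ∀ t ∈ Ico 0 T, ∀ p, φ (p, t) = 0 → 0 ≤ ⟪β, p⟫_ℝ →
        ε * ⟪β, p⟫_ℝ ≤ ⟪β, nu φ (p, t)⟫_ℝ := by
    intro β hβ hsβ hbβ t ht p hp hx
    refine F.big_side hε hβ hsβ (fun q hq hq0 => ?_) ht hp hx
    have hT : (0 : ℝ) ∈ Ico 0 T := ⟨le_rfl, lt_of_le_of_lt ht.1 ht.2⟩
    rcases eq_or_lt_of_le hq0 with h | h
    · rw [nu_mirror F hβ hT (hsβ 0 hT) hq h.symm, ← h, mul_zero]
    · have := hbβ q hq
      by_contra hc
      push Not at hc
      nlinarith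
  intro t ht p hp
  rcases le_total 0 ⟪α, p⟫_ℝ with h | h
  · have := side α hα hs h0 t ht p hp h
    nlinarith
  · have h1 := side (-α) (by rw [norm_neg, hα]) (fun t ht => Geo.sym_neg (hs t ht))
      (Geo.big_neg h0) t ht p hp (by rw [inner_neg_left]; linarith)
    rw [inner_neg_left, inner_neg_left] at h1
    nlinarith

end Pool.Agent.MCFM
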