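import Pool.Agent.Work.MP_494ea5_gt.Conv

/-!
# The second fundamental form in terms of the graph function
-/

open Set Filter Topology Metric
open scoped ContDiff InnerProductSpace

namespace Pool.Agent.MCFM

variable {φ : E × ℝ → ℝ} {b : OrthonormalBasis (Fin 3) ℝ E} {p : E} {u : R3 → ℝ} {Z : R3}

/-- the tangential projection as a linear map -/
noncomputable def tanL (φ : E × ℝ → ℝ) (X : E × ℝ) : E →ₗ[ℝ] E :=
  LinearMap.id - (innerₛₗ ℝ (nu φ X)).smulRight (nu φ X)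

theorem tanL_apply (φ : E × ℝ → ℝ) (X : E × ℝ) (v : E) : tanL φ X v = tan φ X v := by
  simp [tanL, tan]

/-- the second fundamental form as a bilinear map -/
noncomputable def sffL (φ : E × ℝ → ℝ) (X : E × ℝ) : E →ₗ[ℝ] E →ₗ[ℝ] ℝ :=
  ‖grad φ X‖⁻¹ • (hessL φ X).compl₁₂ (tanL φ X) (tanL φ X)

theorem sffL_apply (φ : E × ℝ → ℝ) (X : E × ℝ) (v w : E) : sffL φ X v w = sff φ X v w := by
  simp only [sffL, LinearMap.smul_apply, LinearMap.compl₁₂_apply, tanL_apply, hessL_apply,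
    smul_eq_mul, sff]
  ring

theorem sqA_basis (φ : E × ℝ → ℝ) (X : E × ℝ) (b : OrthonormalBasis (Fin 3) ℝ E) :
    sqA φ X = ∑ i, ∑ j, sff φ X (b i) (b j) ^ 2 := by
  have := hs_basis (sffL φ X) eb b
  simp only [sffL_apply, eb_apply] at this
  exact this

namespace GG

/-- the tangential parts of the basis vectors -/
theorem tan_eq (h : GG φ b p u Z) (hg : 0 < dx φ (b 2) (Th b p u Z)) :
    tan φ (Th b p u Z) (b 0) =
      TG.g11 u Z • (b 0 + D v1 u Z • b 2) + TG.g12 u Z • (b 1 + D v2 u Z • b 2) ∧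
    tan φ (Th b p u Z) (b 1) =
      TG.g12 u Z • (b 0 + D v1 u Z • b 2) + TG.g22 u Z • (b 1 + D v2 u Z • b 2) ∧
    tan φ (Th b p u Z) (b 2) =
      (D v1 u Z * TG.kap u Z) • (b 0 + D v1 u Z • b 2) +
      (D v2 u Z * TG.kap u Z) • (b 1 + D v2 u Z • b 2) := by
  obtain ⟨h0, h1, h2⟩ := h.inner_nu_b hg
  have hk := kap_mul u Z
  have ho := om_sq u Z
  set P := D v1 u Z with hP
  set Q := D v2 u Z with hQ
  have g1 : TG.g11 u Z = 1 - P ^ 2 * TG.kap u Z := rfl
  have g2 : TG.g12 u Z = -(P * Q * TG.kap u Z) := rfl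
  have g3 : TG.g22 u Z = 1 - Q ^ 2 * TG.kap u Z := rfl
  refine ⟨?_, ?_, ?_⟩
  · have e : tan φ (Th b p u Z) (b 0) = (1 - P ^ 2 * TG.om u Z ^ 2) • b 0 +
        (-(P * Q * TG.om u Z ^ 2)) • b 1 + (P * TG.om u Z ^ 2) • b 2 := by
      unfold tan
      rw [h0, h.nu_sum hg]
      module
    have e' : TG.g11 u Z • (b 0 + P • b 2) + TG.g12 u Z • (b 1 + Q • b 2) =
        TG.g11 u Z • b 0 + TG.g12 u Z • b 1 + (TG.g11 u Z * P + TG.g12 u Z * Q) • b 2 := by
      module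
    have e2 : TG.g11 u Z * P + TG.g12 u Z * Q = P * TG.kap u Z := by
      rw [g1, g2]; linear_combination (-P) * hk
    rw [e, e', e2, ho, g1, g2]
  · have e : tan φ (Th b p u Z) (b 1) = (-(P * Q * TG.om u Z ^ 2)) • b 0 +
        (1 - Q ^ 2 * TG.om u Z ^ 2) • b 1 + (Q * TG.om u Z ^ 2) • b 2 := by
      unfold tan
      rw [h1, h.nu_sum hg]
      module
    have e' : TG.g12 u Z • (b 0 + P • b 2) + TG.g22 u Z • (b 1 + Q • b 2) =
        TG.g12 u Z • b 0 + TG.g22 u Z • b 1 + (TG.g12 u Z * P + TG.g22 u Z * Q) • b 2 := by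
      module
    have e2 : TG.g12 u Z * P + TG.g22 u Z * Q = Q * TG.kap u Z := by
      rw [g2, g3]; linear_combination (-Q) * hk
    rw [e, e', e2, ho, g2, g3]
  · have e : tan φ (Th b p u Z) (b 2) = (P * TG.om u Z ^ 2) • b 0 +
        (Q * TG.om u Z ^ 2) • b 1 + (1 - TG.om u Z ^ 2) • b 2 := by
      unfold tan
      rw [h2, h.nu_sum hg]
      module
    have e' : (P * TG.kap u Z) • (b 0 + P • b 2) + (Q * TG.kap u Z) • (b 1 + Q • b 2) =
        (P * TG.kap u Z) • b 0 + (Q * TG.kap u Z) • b 1 +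
          (P ^ 2 * TG.kap u Z + Q ^ 2 * TG.kap u Z) • b 2 := by
      module
    have e2 : P ^ 2 * TG.kap u Z + Q ^ 2 * TG.kap u Z = 1 - TG.kap u Z := by
      linear_combination hk
    rw [e, e', e2, ho]

theorem hess_expand (φ : E × ℝ → ℝ) (X : E × ℝ) (x y z w : ℝ) (a a' c c' : E) :
    hess φ X (x • a + y • a') (z • c + w • c') =
      x * z * hess φ X a c + x * w * hess φ X a c' +
      y * z * hess φ X a' c + y * w * hess φ X a' c' := by
  rw [← hessL_apply]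
  simp only [map_add, map_smul, LinearMap.add_apply, LinearMap.smul_apply, smul_eq_mul,
    hessL_apply]
  ring

/-- the Hessian on the tangent vectors of the graph -/
theorem hess_T (h : GG φ b p u Z) :
    hess φ (Th b p u Z) (b 0 + D v1 u Z • b 2) (b 0 + D v1 u Z • b 2) =
      -(D v1 (D v1 u) Z * dx φ (b 2) (Th b p u Z)) ∧
    hess φ (Th b p u Z) (b 0 + D v1 u Z • b 2) (b 1 + D v2 u Z • b 2) =
      -(D v1 (D v2 u) Z * dx φ (b 2) (Th b p u Z)) ∧
    hess φ (Th b p u Z) (b 1 + D v2 u Z • b 2) (b 0 + D v1 u Z • b 2) =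
      -(D v1 (D v2 u) Z * dx φ (b 2) (Th b p u Z)) ∧
    hess φ (Th b p u Z) (b 1 + D v2 u Z • b 2) (b 1 + D v2 u Z • b 2) =
      -(D v2 (D v2 u) Z * dx φ (b 2) (Th b p u Z)) := by
  obtain ⟨q1, q2, q3⟩ := h.rr
  have hs := hess_symm h.hφ
  have e := hess_expand φ (Th b p u Z)
  refine ⟨?_, ?_, ?_, ?_⟩
  · have := e 1 (D v1 u Z) 1 (D v1 u Z) (b 0) (b 2) (b 0) (b 2)
    rw [one_smul] at this
    rw [this, hs (b 2) (b 0)]
    linear_combination q1
  · have := e 1 (D v1 u Z) 1 (D v2 u Z) (b 0) (b 2) (b 1) (b 2)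
    rw [one_smul, one_smul] at this
    rw [this, hs (b 2) (b 1)]
    linear_combination q2
  · have := e 1 (D v2 u Z) 1 (D v1 u Z) (b 1) (b 2) (b 0) (b 2)
    rw [one_smul, one_smul] at this
    rw [this, hs (b 2) (b 0), hs (b 1) (b 0)]
    linear_combination q2
  · have := e 1 (D v2 u Z) 1 (D v2 u Z) (b 1) (b 2) (b 1) (b 2)
    rw [one_smul] at this
    rw [this, hs (b 2) (b 1)]
    linear_combination q3

theorem sff_T (h : GG φ b p u Z) (hg : 0 < dx φ (b 2) (Th b p u Z)) {v w : E}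
    {x y z z' : ℝ}
    (hv : tan φ (Th b p u Z) v = x • (b 0 + D v1 u Z • b 2) + y • (b 1 + D v2 u Z • b 2))
    (hw : tan φ (Th b p u Z) w = z • (b 0 + D v1 u Z • b 2) + z' • (b 1 + D v2 u Z • b 2)) :
    sff φ (Th b p u Z) v w = -(TG.om u Z * (x * z * D v1 (D v1 u) Z +
      (x * z' + y * z) * D v1 (D v2 u) Z + y * z' * D v2 (D v2 u) Z)) := by
  obtain ⟨k1, k2, k3, k4⟩ := h.hess_T
  have hn := h.grad_norm hg
  have hn0 : 0 < ‖grad φ (Th b p u Z)‖ := by
    have := om_pos u Z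
    by_contra hc
    nlinarith
  unfold sff
  rw [hv, hw, hess_expand, k1, k2, k3, k4]
  rw [← hn]
  field_simp
  ring

/-- **the squared norm of the second fundamental form** in terms of the graph function -/
theorem sqA_eq (h : GG φ b p u Z) (hg : 0 < dx φ (b 2) (Th b p u Z)) :
    sqA φ (Th b p u Z) = TG.qf u Z := by
  obtain ⟨t0, t1, t2⟩ := h.tan_eq hg
  have hk := kap_mul u Z
  have ho := om_sq u Z
  rw [sqA_basis φ _ b]
  simp only [Fin.sum_univ_three]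
  rw [h.sff_T hg t0 t0, h.sff_T hg t0 t1, h.sff_T hg t0 t2, h.sff_T hg t1 t0,
    h.sff_T hg t1 t1, h.sff_T hg t1 t2, h.sff_T hg t2 t0, h.sff_T hg t2 t1, h.sff_T hg t2 t2]
  unfold TG.qf TG.m11 TG.m12 TG.m21 TG.m22
  have s11 : TG.g11 u Z ^ 2 + TG.g12 u Z ^ 2 + (D v1 u Z * TG.kap u Z) ^ 2 = TG.g11 u Z := by
    unfold TG.g11 TG.g12
    linear_combination (D v1 u Z ^ 2 * TG.kap u Z) * hk
  have s12 : TG.g11 u Z * TG.g12 u Z + TG.g12 u Z * TG.g22 u Z +
      (D v1 u Z * TG.kap u Z) * (D v2 u Z * TG.kap u Z) = TG.g12 u Z := by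
    unfold TG.g11 TG.g12 TG.g22
    linear_combination (D v1 u Z * D v2 u Z * TG.kap u Z) * hk
  have s22 : TG.g12 u Z ^ 2 + TG.g22 u Z ^ 2 + (D v2 u Z * TG.kap u Z) ^ 2 = TG.g22 u Z := by
    unfold TG.g12 TG.g22
    linear_combination (D v2 u Z ^ 2 * TG.kap u Z) * hk
  generalize TG.g11 u Z = A at *
  generalize TG.g12 u Z = B at *
  generalize TG.g22 u Z = C at *
  generalize D v1 u Z * TG.kap u Z = x at *
  generalize D v2 u Z * TG.kap u Z = y at *
  generalize D v1 (D v1 u) Z = r at *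
  generalize D v1 (D v2 u) Z = s at *
  generalize D v2 (D v2 u) Z = t at *
  rw [← ho]
  have row : ∀ w1 w2 : ℝ, (A * w1 + B * w2) ^ 2 + (B * w1 + C * w2) ^ 2 + (x * w1 + y * w2) ^ 2 =
      A * w1 ^ 2 + 2 * B * (w1 * w2) + C * w2 ^ 2 := by
    intro w1 w2
    linear_combination (w1 ^ 2) * s11 + (2 * (w1 * w2)) * s12 + (w2 ^ 2) * s22
  have r0 := row (A * r + B * s) (A * s + B * t)
  have r1 := row (B * r + C * s) (B * s + C * t)
  have r2 := row (x * r + y * s) (x * s + y * t)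
  have q1 : (A * r + B * s) ^ 2 + (B * r + C * s) ^ 2 + (x * r + y * s) ^ 2 =
      A * r ^ 2 + 2 * B * (r * s) + C * s ^ 2 := row r s
  have q3 : (A * s + B * t) ^ 2 + (B * s + C * t) ^ 2 + (x * s + y * t) ^ 2 =
      A * s ^ 2 + 2 * B * (s * t) + C * t ^ 2 := row s t
  have q2 : (A * r + B * s) * (A * s + B * t) + (B * r + C * s) * (B * s + C * t) +
      (x * r + y * s) * (x * s + y * t) =
      A * (r * s) + B * (r * t + s ^ 2) + C * (s * t) := by
    linear_combination (r * s) * s11 + (r * t + s ^ 2) * s12 + (s * t) * s22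
  linear_combination (TG.om u Z ^ 2) * (r0 + r1 + r2 + A * q1 + 2 * B * q2 + C * q3)

end GG

end Pool.Agent.MCFM
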