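import Pool.Agent.Work.MP_494ea5_gt.Defs

/-!
# Tasks (statements only; nothing may import this file)
-/

open Set Filter Topology Metric
open scoped ContDiff InnerProductSpace

namespace Pool.Agent.MCFM

/-- `MaxP.lean` (helper33): the maximum principle on the moving surface -/
theorem Flow.maxp {T : ℝ} {φ f : E × ℝ → ℝ} (F : Flow T φ) {X : E × ℝ} (ht : X.2 ∈ Ioo 0 T)
    (hX : φ X = 0) (hf : ContDiffAt ℝ 2 f X)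
    (hmax : ∀ᶠ Y in 𝓝 X, φ Y = 0 → Y.2 ≤ X.2 → f Y ≤ f X) :
    (∃ c : ℝ, grad f X = c • grad φ X) ∧
      0 ≤ dt f X - (lap f X - hess f X (nu φ X) (nu φ X)) := sorry

/-- `Unique.lean` (helper91) -/
theorem Flow.unique {T : ℝ} {φ φ' : E × ℝ → ℝ} (F : Flow T φ) (F' : Flow T φ')
    (h0 : ∀ p, φ (p, 0) < 0 ↔ φ' (p, 0) < 0) :
    ∀ t ∈ Ico 0 T, ∀ p, φ (p, t) < 0 ↔ φ' (p, t) < 0 := sorry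

/-- `Unique.lean` (helper91) -/
theorem Flow.sym {T : ℝ} {φ : E × ℝ → ℝ} (F : Flow T φ) {α : E} (hα : ‖α‖ = 1)
    (h0 : Sym φ α 0) : ∀ t ∈ Ico 0 T, Sym φ α t := sorry

/-- `Eps.lean` (helper91): the natural form of the hypothesis -/
theorem Flow.exists_big {T : ℝ} {φ : E × ℝ → ℝ} (F : Flow T φ) (hT : 0 < T) {α : E}
    (hα : ‖α‖ = 1) (h0 : Sym φ α 0)
    (h1 : ∀ p, φ (p, 0) = 0 → 0 < ⟪α, p⟫_ℝ → 0 < ⟪α, nu φ (p, 0)⟫_ℝ)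
    (h2 : ∀ p, φ (p, 0) = 0 → ⟪α, p⟫_ℝ = 0 → 0 < hess φ (p, 0) α α) :
    ∃ ε > 0, Big φ ε α 0 := sorry

/-- `Mirror.lean` (helper33) -/
theorem Flow.big {T : ℝ} {φ : E × ℝ → ℝ} (F : Flow T φ) {ε : ℝ} (hε : 0 < ε) {α : E}
    (hα : ‖α‖ = 1) (hs : ∀ t ∈ Ico 0 T, Sym φ α t) (h0 : Big φ ε α 0) :
    ∀ t ∈ Ico 0 T, Big φ ε α t := sorry

/-- `Curv.lean` (helper33) -/
theorem Flow.curv {T : ℝ} {φ : E × ℝ → ℝ} (F : Flow T φ) {ε : ℝ} (hε : 0 < ε) {α : E}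
    (hα : ‖α‖ = 1) (hb : ∀ t ∈ Ico 0 T, Big φ ε α t) {δ : ℝ} (hδ : 0 < δ) :
    ∃ C : ℝ, ∀ t ∈ Ico 0 T, ∀ p, φ (p, t) = 0 → δ ≤ |⟪α, p⟫_ℝ| → sqA φ (p, t) ≤ C := sorry

/-- `Static.lean` (helper91): a ball of fixed size around `0` -/
theorem Flow.ball {T : ℝ} {φ : E × ℝ → ℝ} (F : Flow T φ) {ε s : ℝ} (hε : 0 < ε) (hs : 0 < s)
    {S : Set E} (hS : ∀ α ∈ S, ‖α‖ = 1) (hspan : Submodule.span ℝ S = ⊤) {t : ℝ}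
    (ht : t ∈ Ico 0 T) (hsym : ∀ α ∈ S, Sym φ α t) (hbig : ∀ α ∈ S, Big φ ε α t)
    {p α : E} (hα : α ∈ S) (hp : φ (p, t) ≤ 0) (hps : s ≤ |⟪α, p⟫_ℝ|) :
    ∀ q, ‖q‖ < min (ε * s ^ 2 / 8) (s / 4) → φ (q, t) < 0 := sorry

/-- `Final.lean` (helper33) -/
theorem mirrors {T : ℝ} {φ : E × ℝ → ℝ} (F : Flow T φ) {S : Set E} (hS : ∀ α ∈ S, ‖α‖ = 1)
    (hsym : ∀ α ∈ S, Sym φ α 0)
    (h1 : ∀ α ∈ S, ∀ p, φ (p, 0) = 0 → 0 < ⟪α, p⟫_ℝ → 0 < ⟪α, nu φ (p, 0)⟫_ℝ)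
    (h2 : ∀ α ∈ S, ∀ p, φ (p, 0) = 0 → ⟪α, p⟫_ℝ = 0 → 0 < hess φ (p, 0) α α) :
    (∀ α ∈ S, ∀ δ > 0, ∃ C : ℝ, ∀ t ∈ Ico 0 T, ∀ p, φ (p, t) = 0 → δ ≤ |⟪α, p⟫_ℝ| →
      sqA φ (p, t) ≤ C) ∧
    (Submodule.span ℝ S = ⊤ →
      (∀ C : ℝ, ∃ t ∈ Ico 0 T, ∃ p, φ (p, t) = 0 ∧ C < sqA φ (p, t)) →
      ∀ ρ > 0, ∃ t₀ ∈ Ico 0 T, ∀ t ∈ Ico t₀ T, ∀ p, φ (p, t) ≤ 0 → ‖p‖ < ρ) := sorry

end Pool.Agent.MCFM
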