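import Pool.Agent.Work.MP_494ea5_gt.Static

/-!
# Uniqueness of the domains, preservation of symmetry

The domains of two flows are compared with the maximum principle on the first surface, applied to
`e^{-l t} φ'`.  The maximum principle is a hypothesis of this file, see `Unique.lean`.
-/

open Set Filter Topology Metric
open scoped ContDiff InnerProductSpace

namespace Pool.Agent.MCFM

namespace Geo

variable {T : ℝ} {φ : E × ℝ → ℝ}

/-- the defect of the evolution equation of the level sets -/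
noncomputable def Q (φ : E × ℝ → ℝ) (X : E × ℝ) : ℝ :=
  dt φ X - (lap φ X - hess φ X (nu φ X) (nu φ X))

lemma cd_fderiv {X : E × ℝ} (h : ContDiffAt ℝ ∞ φ X) : ContDiffAt ℝ ∞ (fderiv ℝ φ) X :=
  h.fderiv_right (m := ∞) (by norm_num)

lemma cd_dx {X : E × ℝ} (h : ContDiffAt ℝ ∞ φ X) (v : E) : ContDiffAt ℝ ∞ (dx φ v) X :=
  (cd_fderiv h).clm_apply contDiffAt_const

lemma cd_grad {X : E × ℝ} (h : ContDiffAt ℝ ∞ φ X) : ContDiffAt ℝ ∞ (grad φ) X := by
  unfold grad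
  exact ContDiffAt.sum fun i _ => (cd_dx h _).smul contDiffAt_const

lemma cd_nu {X : E × ℝ} (h : ContDiffAt ℝ ∞ φ X) (h0 : grad φ X ≠ 0) :
    ContDiffAt ℝ ∞ (nu φ) X := by
  unfold nu
  exact (((cd_grad h).norm ℝ h0).inv (norm_ne_zero_iff.2 h0)).smul (cd_grad h)

lemma cd_Q {X : E × ℝ} (h : ContDiffAt ℝ ∞ φ X) (h0 : grad φ X ≠ 0) :
    ContDiffAt ℝ ∞ (Q φ) X := by
  have h2 := cd_fderiv (φ := φ) h
  have h3 : ContDiffAt ℝ ∞ (fderiv ℝ (fderiv ℝ φ)) X := h2.fderiv_right (m := ∞) (by norm_num)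
  have hn := cd_nu h h0
  have hn' : ContDiffAt ℝ ∞ (fun Y => ((nu φ Y, 0) : E × ℝ)) X := hn.prodMk contDiffAt_const
  refine ContDiffAt.sub (h2.clm_apply contDiffAt_const) (ContDiffAt.sub ?_ ?_)
  · unfold lap
    exact ContDiffAt.sum fun i _ => ((h3.clm_apply contDiffAt_const).clm_apply contDiffAt_const)
  · exact (h3.clm_apply hn').clm_apply hn'

lemma Q_zero (F : Flow T φ) {X : E × ℝ} (ht : X.2 ∈ Ico 0 T) (hX : φ X = 0) : Q φ X = 0 := by
  obtain ⟨p, t⟩ := X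
  unfold Q
  rw [F.moves t ht p hX, sub_self]

/-- local control of the defect on the positive side of the level set -/
lemma loc (F : Flow T φ) {X : E × ℝ} (ht : X.2 ∈ Ico 0 T) (hX : φ X = 0) :
    ∃ C : ℝ, ∀ᶠ Y in 𝓝 X, 0 ≤ Y.2 → 0 ≤ φ Y → grad φ Y ≠ 0 ∧ Q φ Y ≤ C * φ Y := by
  have hreg : grad φ X ≠ 0 := F.regular X.2 ht X.1 hX
  have hcd := cd F ht.2
  set n : E := nu φ X with hn
  have hn1 : ‖n‖ = 1 := norm_nu hreg
  set μ : ℝ := ‖grad φ X‖ with hμ
  have hμ0 : 0 < μ := norm_pos_iff.2 hreg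
  obtain ⟨K, s, hs, hK⟩ := ((cd_Q hcd hreg).of_le (by norm_num : (1 : WithTop ℕ∞) ≤ ∞)).exists_lipschitzOnWith
  have hD : ContinuousAt (dx φ n) X := (cd_dx hcd n).continuousAt
  have hDX : dx φ n X = μ := by
    rw [dx_nu hreg, ← hn, real_inner_self_eq_norm_sq, hn1]; ring
  have h1 : ∀ᶠ Y in 𝓝 X, Y ∈ s ∧ μ / 2 < dx φ n Y ∧ Y.2 < T := by
    refine (Filter.eventually_mem_set.2 hs).and ((hD.eventually (Ioi_mem_nhds ?_)).and ?_)
    · rw [hDX]; linarith
    · exact continuous_snd.continuousAt.eventually (Iio_mem_nhds ht.2)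
  obtain ⟨ρ, hρ, hball⟩ := Metric.eventually_nhds_iff_ball.1 h1
  refine ⟨K * (2 / μ), ?_⟩
  have h2 : ∀ᶠ Y in 𝓝 X, φ Y < μ * ρ / 4 := by
    refine (ca F ht.2).eventually (Iio_mem_nhds ?_)
    rw [hX]; positivity
  filter_upwards [h2, Metric.ball_mem_nhds X (half_pos hρ)] with Y hY hYb hY0 hφ
  have hball' : ∀ σ ∈ Icc (0:ℝ) (2 * φ Y / μ), ((Y.1 + σ • (-n), Y.2) : E × ℝ) ∈ ball X ρ := by
    intro σ hσ
    have h3 : 2 * φ Y / μ < ρ / 2 := by
      rw [div_lt_iff₀ hμ0]; linarith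
    have h4 : dist ((Y.1 + σ • (-n), Y.2) : E × ℝ) Y ≤ σ := by
      rw [Prod.dist_eq]
      refine max_le ?_ ?_
      · rw [dist_eq_norm, add_sub_cancel_left, norm_smul, norm_neg, hn1, mul_one,
          Real.norm_of_nonneg hσ.1]
      · simp [hσ.1]
    rw [mem_ball] at hYb ⊢
    calc dist ((Y.1 + σ • (-n), Y.2) : E × ℝ) X ≤ dist ((Y.1 + σ • (-n), Y.2) : E × ℝ) Y + dist Y X :=
          dist_triangle _ _ _
      _ < ρ := by linarith [hσ.2]
  have hYin : Y ∈ ball X ρ := Metric.ball_subset_ball (half_le_self hρ.le) hYb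
  obtain ⟨hYs, hYD, hYT⟩ := hball Y hYin
  refine ⟨fun h0 => ?_, ?_⟩
  · rw [← inner_grad, h0, inner_zero_left] at hYD
    linarith
  have hσ0 : 0 ≤ 2 * φ Y / μ := by positivity
  -- the zero of `φ` below `Y`
  have hder : ∀ σ : ℝ, HasDerivAt (fun σ : ℝ => φ (Y.1 + σ • (-n), Y.2))
      (dx φ (-n) (Y.1 + σ • (-n), Y.2)) σ := fun σ => line_deriv (da F hYT)
  have h5 := image_le_of_deriv_right_lt_deriv_boundary (a := (0:ℝ)) (b := 2 * φ Y / μ)
    (f := fun σ : ℝ => φ (Y.1 + σ • (-n), Y.2)) (f' := fun σ => dx φ (-n) (Y.1 + σ • (-n), Y.2))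
    (B := fun σ => φ Y + σ * (-(μ / 2))) (B' := fun _ => -(μ / 2))
    (fun σ _ => (hder σ).continuousAt.continuousWithinAt) (fun σ _ => (hder σ).hasDerivWithinAt)
    (by simp) (fun σ => by
      have := ((hasDerivAt_id σ).mul_const (-(μ / 2))).const_add (φ Y)
      simpa using this)
    (fun σ hσ _ => by
      have := (hball _ (hball' σ ⟨hσ.1, hσ.2.le⟩)).2.1
      rw [dx_neg]; linarith)
    (x := 2 * φ Y / μ) ⟨hσ0, le_refl _⟩
  have h6 : φ Y + 2 * φ Y / μ * (-(μ / 2)) = 0 := by field_simp; ring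
  have h7 : φ (Y.1 + (2 * φ Y / μ) • (-n), Y.2) ≤ 0 := by
    have : φ (Y.1 + (2 * φ Y / μ) • (-n), Y.2) ≤ φ Y + 2 * φ Y / μ * (-(μ / 2)) := h5
    rwa [h6] at this
  have hcont : ContinuousOn (fun σ : ℝ => φ (Y.1 + σ • (-n), Y.2)) (Icc 0 (2 * φ Y / μ)) :=
    fun σ _ => (hder σ).continuousAt.continuousWithinAt
  obtain ⟨σ, hσ, hσz⟩ := intermediate_value_Icc' hσ0 hcont
    (show (0:ℝ) ∈ Icc (φ (Y.1 + (2 * φ Y / μ) • (-n), Y.2)) (φ (Y.1 + (0:ℝ) • (-n), Y.2)) from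
      ⟨h7, by rw [zero_smul, add_zero]; exact hφ⟩)
  have h8 : Q φ (Y.1 + σ • (-n), Y.2) = 0 := Q_zero F ⟨hY0, hYT⟩ hσz
  have h9 := hK.dist_le_mul Y hYs _ (hball _ (hball' σ hσ)).1
  rw [h8, dist_zero_right] at h9
  have h10 : dist Y ((Y.1 + σ • (-n), Y.2) : E × ℝ) ≤ σ := by
    rw [Prod.dist_eq]
    refine max_le ?_ ?_
    · rw [dist_comm, dist_eq_norm, add_sub_cancel_left, norm_smul, norm_neg, hn1, mul_one,
        Real.norm_of_nonneg hσ.1]
    · simp [hσ.1]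
  calc Q φ Y ≤ ‖Q φ Y‖ := le_abs_self _
    _ ≤ K * dist Y ((Y.1 + σ • (-n), Y.2) : E × ℝ) := h9
    _ ≤ K * (2 * φ Y / μ) :=
        mul_le_mul_of_nonneg_left (h10.trans hσ.2) K.2
    _ = K * (2 / μ) * φ Y := by ring

/-- uniform control of the defect near the level sets -/
lemma unif (F : Flow T φ) {t₁ : ℝ} (ht : t₁ < T) (R : ℝ) :
    ∃ η > 0, ∃ C : ℝ, ∀ Y : E × ℝ, Y.2 ∈ Icc 0 t₁ → ‖Y.1‖ ≤ R → 0 ≤ φ Y → φ Y ≤ η →
      grad φ Y ≠ 0 ∧ Q φ Y ≤ C * φ Y := by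
  by_contra hno
  push Not at hno
  have h1 : ∀ n : ℕ, ∃ Y : E × ℝ, Y.2 ∈ Icc 0 t₁ ∧ ‖Y.1‖ ≤ R ∧ 0 ≤ φ Y ∧
      φ Y ≤ 1 / ((n : ℝ) + 1) ∧ (grad φ Y ≠ 0 → (n : ℝ) * φ Y < Q φ Y) := by
    intro n
    exact hno (1 / ((n : ℝ) + 1)) (by positivity) n
  choose Y hY1 hY2 hY3 hY4 hY5 using h1
  have hK : IsCompact ((closedBall (0:E) R) ×ˢ (Icc 0 t₁)) :=
    (isCompact_closedBall (0:E) R).prod isCompact_Icc
  obtain ⟨X, hX, g, hg, hlim⟩ := hK.tendsto_subseq (x := Y)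
    (fun n => ⟨by rw [mem_closedBall, dist_zero_right]; exact hY2 n, hY1 n⟩)
  have hXt : X.2 ∈ Ico 0 T := ⟨hX.2.1, hX.2.2.trans_lt ht⟩
  have hφ : Tendsto (fun n => φ (Y (g n))) atTop (𝓝 (φ X)) := (ca F hXt.2).tendsto.comp hlim
  have hφ0 : φ X = 0 := by
    apply le_antisymm
    · have h2 : Tendsto (fun n => 1 / (((g n : ℕ) : ℝ) + 1)) atTop (𝓝 0) :=
        tendsto_one_div_add_atTop_nhds_zero_nat.comp hg.tendsto_atTop
      exact le_of_tendsto_of_tendsto' hφ h2 fun n => hY4 (g n)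
    · exact ge_of_tendsto' hφ fun n => hY3 (g n)
  obtain ⟨C, hC⟩ := loc F hXt hφ0
  have h3 := hlim.eventually hC
  have h4 : ∀ᶠ n in atTop, C ≤ ((g n : ℕ) : ℝ) :=
    (tendsto_natCast_atTop_atTop.comp hg.tendsto_atTop).eventually (eventually_ge_atTop C)
  obtain ⟨n, h5, h6⟩ := (h3.and h4).exists
  obtain ⟨h7, h8⟩ := h5 (hY1 _).1 (hY3 _)
  have h9 := hY5 (g n) h7
  have h10 : C * φ (Y (g n)) ≤ ((g n : ℕ) : ℝ) * φ (Y (g n)) :=
    mul_le_mul_of_nonneg_right h6 (hY3 _)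
  simp only [Function.comp] at h8
  linarith

lemma hess_smul (φ : E × ℝ → ℝ) (X : E × ℝ) (a b : ℝ) (v w : E) :
    hess φ X (a • v) (b • w) = a * b * hess φ X v w := by
  unfold hess
  have h1 : ((a • v, 0) : E × ℝ) = a • ((v, 0) : E × ℝ) := by simp
  have h2 : ((b • w, 0) : E × ℝ) = b • ((w, 0) : E × ℝ) := by simp
  rw [h1, h2, map_smul, map_smul, _root_.smul_apply, smul_eq_mul, smul_eq_mul]
  ring

lemma hess_eq {X : E × ℝ} (h : ContDiffAt ℝ ∞ φ X) (v w : E) :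
    hess φ X v w = fderiv ℝ (dx φ w) X (v, 0) := by
  have h1 : DifferentiableAt ℝ (fderiv ℝ φ) X := (cd_fderiv h).differentiableAt (by simp)
  have h2 : HasFDerivAt (dx φ w)
      ((ContinuousLinearMap.apply ℝ ℝ ((w, 0) : E × ℝ)).comp (fderiv ℝ (fderiv ℝ φ) X)) X :=
    (ContinuousLinearMap.apply ℝ ℝ ((w, 0) : E × ℝ)).hasFDerivAt.comp X h1.hasFDerivAt
  rw [h2.fderiv]
  rfl

section weight

variable (l : ℝ)

/-- the weighted function `e^{-l t} φ` -/
noncomputable def wt (l : ℝ) (φ : E × ℝ → ℝ) (Y : E × ℝ) : ℝ := Real.exp (-l * Y.2) * φ Y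

lemma cd_wt {X : E × ℝ} (h : ContDiffAt ℝ ∞ φ X) : ContDiffAt ℝ ∞ (wt l φ) X := by
  unfold wt
  exact ((contDiffAt_const.mul contDiffAt_snd).exp).mul h

lemma fderiv_wt {X : E × ℝ} (h : ContDiffAt ℝ ∞ φ X) (v : E) (s : ℝ) :
    fderiv ℝ (wt l φ) X (v, s) =
      Real.exp (-l * X.2) * (fderiv ℝ φ X (v, s) - l * s * φ X) := by
  have h1 : HasFDerivAt (fun Y : E × ℝ => Real.exp (-l * Y.2))
      (Real.exp (-l * X.2) • ((-l) • ContinuousLinearMap.snd ℝ E ℝ)) X := by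
    have h2 : HasFDerivAt (fun Y : E × ℝ => -l * Y.2) ((-l) • ContinuousLinearMap.snd ℝ E ℝ) X :=
      (hasFDerivAt_snd (𝕜 := ℝ)).const_mul (-l)
    exact h2.exp
  have h3 : HasFDerivAt φ (fderiv ℝ φ X) X := (h.differentiableAt (by simp)).hasFDerivAt
  have h4 := h1.mul h3
  have h5 : fderiv ℝ (wt l φ) X = _ := h4.fderiv
  rw [h5]
  simp
  ring

lemma dx_wt {X : E × ℝ} (h : ContDiffAt ℝ ∞ φ X) (v : E) :
    dx (wt l φ) v X = Real.exp (-l * X.2) * dx φ v X := by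
  unfold dx
  rw [fderiv_wt l h]; ring

lemma dt_wt {X : E × ℝ} (h : ContDiffAt ℝ ∞ φ X) :
    dt (wt l φ) X = Real.exp (-l * X.2) * (dt φ X - l * φ X) := by
  unfold dt
  rw [fderiv_wt l h]; ring

lemma grad_wt {X : E × ℝ} (h : ContDiffAt ℝ ∞ φ X) :
    grad (wt l φ) X = Real.exp (-l * X.2) • grad φ X := by
  unfold grad
  rw [Finset.smul_sum]
  refine Finset.sum_congr rfl fun i _ => ?_
  rw [dx_wt l h, smul_smul]

lemma hess_wt {X : E × ℝ} (h : ContDiffAt ℝ ∞ φ X) (v w : E) :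
    hess (wt l φ) X v w = Real.exp (-l * X.2) * hess φ X v w := by
  rw [hess_eq (cd_wt l h), hess_eq h]
  have h1 : ∀ᶠ Y in 𝓝 X, dx (wt l φ) w Y = wt l (dx φ w) Y := by
    have : ∀ᶠ Y in 𝓝 X, ContDiffAt ℝ 1 φ Y :=
      (h.of_le (by norm_num : (1 : WithTop ℕ∞) ≤ ∞)).eventually (by simp)
    filter_upwards [this] with Y hY
    have h3 : HasFDerivAt φ (fderiv ℝ φ Y) Y := (hY.differentiableAt (by simp)).hasFDerivAt
    have h4 : HasFDerivAt (fun Y : E × ℝ => Real.exp (-l * Y.2))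
        (Real.exp (-l * Y.2) • ((-l) • ContinuousLinearMap.snd ℝ E ℝ)) Y := by
      have h2 : HasFDerivAt (fun Y : E × ℝ => -l * Y.2) ((-l) • ContinuousLinearMap.snd ℝ E ℝ) Y :=
        (hasFDerivAt_snd (𝕜 := ℝ)).const_mul (-l)
      exact h2.exp
    have h5 : fderiv ℝ (wt l φ) Y = _ := (h4.mul h3).fderiv
    unfold dx
    rw [h5]
    simp [wt]
  rw [Filter.EventuallyEq.fderiv_eq h1, fderiv_wt l (cd_dx h w)]
  ring

lemma lap_wt {X : E × ℝ} (h : ContDiffAt ℝ ∞ φ X) :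
    lap (wt l φ) X = Real.exp (-l * X.2) * lap φ X := by
  unfold lap
  rw [Finset.mul_sum]
  exact Finset.sum_congr rfl fun i _ => hess_wt l h _ _

end weight

/-- The statement of the maximum principle. -/
def MaxPrinciple : Prop :=
  ∀ (T : ℝ) (φ f : E × ℝ → ℝ), Flow T φ → ∀ X : E × ℝ, X.2 ∈ Ioo 0 T → φ X = 0 →
    ContDiffAt ℝ 2 f X → (∀ᶠ Y in 𝓝 X, φ Y = 0 → Y.2 ≤ X.2 → f Y ≤ f X) →
    (∃ c : ℝ, grad f X = c • grad φ X) ∧
      0 ≤ dt f X - (lap f X - hess f X (nu φ X) (nu φ X))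

/-- comparison of the closed domains up to time `t₁` -/
lemma comparison (hmp : MaxPrinciple) {φ' : E × ℝ → ℝ} (F : Flow T φ) (F' : Flow T φ')
    (h0 : ∀ p, φ (p, 0) < 0 → φ' (p, 0) < 0) {t₁ : ℝ} (ht₁ : t₁ ∈ Ico 0 T) :
    ∀ τ ∈ Icc 0 t₁, ∀ p, φ (p, τ) ≤ 0 → φ' (p, τ) ≤ 0 := by
  intro τ₀ hτ₀ p₀ hp₀
  by_contra hcon
  rw [not_le] at hcon
  obtain ⟨R, hR⟩ := F.bounded t₁ ht₁.2
  obtain ⟨η, hη, C, hC⟩ := unif F' ht₁.2 R
  set l : ℝ := C + 1 with hl
  set f : E × ℝ → ℝ := wt l φ' with hf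
  set δ : ℝ := min (f (p₀, τ₀)) (η * Real.exp (-|l| * t₁)) with hδ
  have hf0 : 0 < f (p₀, τ₀) := mul_pos (Real.exp_pos _) hcon
  have hδ0 : 0 < δ := lt_min hf0 (by positivity)
  set K : Set (E × ℝ) := (closedBall (0:E) R) ×ˢ (Icc 0 t₁) with hKdef
  have hK : IsCompact K := (isCompact_closedBall (0:E) R).prod isCompact_Icc
  have hcf : ∀ X : E × ℝ, X.2 < T → ContinuousAt f X := fun X hX =>
    (cd_wt l (cd F' hX)).continuousAt
  have hKT : ∀ X ∈ K, X.2 ∈ Ico 0 T := fun X hX => ⟨hX.2.1, hX.2.2.trans_lt ht₁.2⟩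
  set D : Set (E × ℝ) := (K ∩ φ ⁻¹' (Iic 0)) ∩ (K ∩ f ⁻¹' (Ici δ)) with hDdef
  have hDc : IsCompact D := by
    refine hK.of_isClosed_subset ?_ (fun X hX => hX.1.1)
    refine IsClosed.inter ?_ ?_
    · exact ContinuousOn.preimage_isClosed_of_isClosed
        (fun X hX => (ca F (hKT X hX).2).continuousWithinAt) hK.isClosed isClosed_Iic
    · exact ContinuousOn.preimage_isClosed_of_isClosed
        (fun X hX => (hcf X (hKT X hX).2).continuousWithinAt) hK.isClosed isClosed_Ici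
  have hmemD : ∀ Y : E × ℝ, Y.2 ∈ Icc 0 t₁ → φ Y ≤ 0 → δ ≤ f Y → Y ∈ D := by
    intro Y hY1 hY2 hY3
    have hYK : Y ∈ K := ⟨by
      rw [mem_closedBall, dist_zero_right]; exact hR Y.2 hY1 Y.1 hY2, hY1⟩
    exact ⟨⟨hYK, hY2⟩, ⟨hYK, hY3⟩⟩
  have hDne : D.Nonempty := ⟨(p₀, τ₀), hmemD _ hτ₀ hp₀ (min_le_left _ _)⟩
  obtain ⟨X₁, hX₁, hmin⟩ := hDc.exists_isMinOn hDne continuous_snd.continuousOn
  set t : ℝ := X₁.2 with ht
  have hDt : IsCompact (D ∩ {Y | Y.2 = t}) :=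
    hDc.inter_right (isClosed_eq continuous_snd continuous_const)
  obtain ⟨X, hX, hmax⟩ := hDt.exists_isMaxOn ⟨X₁, hX₁, rfl⟩
    (f := f) (fun X hX => (hcf X (hKT X hX.1.1.1).2).continuousWithinAt)
  obtain ⟨p, s⟩ := X
  have hst : s = t := hX.2
  subst hst
  have htI : t ∈ Icc 0 t₁ := hX₁.1.1.2
  have htT : t ∈ Ico 0 T := hKT _ hX₁.1.1
  have hφX : φ (p, t) ≤ 0 := hX.1.1.2
  have hfX : δ ≤ f (p, t) := hX.1.2.2
  -- the time is positive
  have htpos : 0 < t := by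
    rcases lt_or_eq_of_le htT.1 with h | h
    · exact h
    · exfalso
      rw [← h] at hφX hfX
      have h00 : (0:ℝ) ∈ Ico 0 T := ⟨le_rfl, htT.1.trans_lt htT.2⟩
      have h1 := mem_closure F h00 hφX
      have h2 : closure {q : E | φ (q, 0) < 0} ⊆ {q : E | φ' (q, 0) ≤ 0} :=
        closure_minimal (fun q hq => (h0 q hq).le)
          (isClosed_le (cont_t F' h00.2) continuous_const)
      have h3 : φ' (p, 0) ≤ 0 := h2 h1
      have h4 : f (p, 0) ≤ 0 := mul_nonpos_of_nonneg_of_nonpos (Real.exp_pos _).le h3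
      linarith
  -- the value is `δ`
  have hval : f (p, t) ≤ δ := by
    by_contra hlt
    rw [not_le] at hlt
    have h1 : ∀ᶠ q in 𝓝 p, δ < f (q, t) := by
      have : ContinuousAt (fun q : E => f (q, t)) p :=
        ContinuousAt.comp (f := fun q : E => ((q, t) : E × ℝ)) (hcf (p, t) htT.2) (by fun_prop)
      exact this.eventually (Ioi_mem_nhds hlt)
    obtain ⟨q, hq1, hq2⟩ := ((mem_closure_iff_frequently.1 (mem_closure F htT hφX)).and_eventually
      h1).exists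
    have h2 : ∀ᶠ τ in 𝓝 t, δ < f (q, τ) := by
      have : ContinuousAt (fun τ : ℝ => f (q, τ)) t :=
        ContinuousAt.comp (f := fun τ : ℝ => ((q, τ) : E × ℝ)) (hcf (q, t) htT.2) (by fun_prop)
      exact this.eventually (Ioi_mem_nhds hq2)
    have h3 : ∀ᶠ τ in 𝓝 t, φ (q, τ) < 0 := by
      have : ContinuousAt (fun τ : ℝ => φ (q, τ)) t :=
        ContinuousAt.comp (f := fun τ : ℝ => ((q, τ) : E × ℝ)) (ca F htT.2) (by fun_prop)
      exact this.eventually (Iio_mem_nhds hq1)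
    have h4' : ∀ᶠ τ in 𝓝 t, 0 < τ := Ioi_mem_nhds htpos
    have h4 : ∀ᶠ τ in 𝓝[<] t, 0 < τ := h4'.filter_mono nhdsWithin_le_nhds
    obtain ⟨τ, ⟨⟨h5, h6⟩, h7⟩, h8⟩ := ((((h2.and h3).filter_mono
      (nhdsWithin_le_nhds (s := Iio t))).and h4).and
      (self_mem_nhdsWithin (a := t) (s := Iio t))).exists
    have h9 : ((q, τ) : E × ℝ) ∈ D := hmemD _ ⟨h7.le, (le_of_lt h8).trans htI.2⟩ h6.le h5.le
    have h10 : t ≤ τ := hmin h9
    exact absurd h8 (not_lt.2 h10)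
  have hfeq : f (p, t) = δ := le_antisymm hval hfX
  have hφ'pos : 0 < φ' (p, t) := by
    have h1 : 0 < f (p, t) := by rw [hfeq]; exact hδ0
    exact pos_of_mul_pos_right h1 (Real.exp_pos _).le
  have hφ'η : φ' (p, t) ≤ η := by
    have h1 : Real.exp (-l * t) * φ' (p, t) ≤ η * Real.exp (-|l| * t₁) := by
      have : f (p, t) ≤ η * Real.exp (-|l| * t₁) := by rw [hfeq]; exact min_le_right _ _
      exact this
    have h2 : Real.exp (-|l| * t₁) ≤ Real.exp (-l * t) := by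
      apply Real.exp_le_exp.2
      have h3 : l * t ≤ |l| * t₁ := by
        calc l * t ≤ |l| * t := mul_le_mul_of_nonneg_right (le_abs_self l) htT.1
          _ ≤ |l| * t₁ := mul_le_mul_of_nonneg_left htI.2 (abs_nonneg l)
      linarith
    have h3 : Real.exp (-l * t) * φ' (p, t) ≤ Real.exp (-l * t) * η := by
      calc _ ≤ η * Real.exp (-|l| * t₁) := h1
        _ ≤ η * Real.exp (-l * t) := mul_le_mul_of_nonneg_left h2 hη.le
        _ = _ := mul_comm _ _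
    exact le_of_mul_le_mul_left h3 (Real.exp_pos _)
  have hnorm : ‖p‖ ≤ R := hR t htI p hφX
  obtain ⟨hg, hQ⟩ := hC (p, t) htI hnorm hφ'pos.le hφ'η
  have hcd' := cd F' (X := (p, t)) htT.2
  have hmaxle : ∀ Y : E × ℝ, Y.2 ∈ Icc 0 t₁ → φ Y ≤ 0 → Y.2 ≤ t → f Y ≤ f (p, t) := by
    intro Y hY1 hY2 hY3
    rcases le_or_gt δ (f Y) with h | h
    · have hYD := hmemD Y hY1 hY2 h
      have h1 : t ≤ Y.2 := hmin hYD
      exact hmax ⟨hYD, le_antisymm hY3 h1⟩
    · exact (h.trans_le hfX).le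
  rcases lt_or_eq_of_le hφX with hlt | heq
  · -- interior maximum
    apply hg
    have hg0 : grad f (p, t) = 0 := by
      refine grad_zero_of fun v => ?_
      have h1 := line_deriv (φ := f) (p := p) (v := v) (t := t) (s := 0)
        (by rw [zero_smul, add_zero]; exact (cd_wt l hcd').differentiableAt (by simp))
      have h2 : IsLocalMax (fun s : ℝ => f (p + s • v, t)) 0 := by
        have h3 : Tendsto (fun s : ℝ => p + s • v) (𝓝 0) (𝓝 p) := by
          have : Continuous (fun s : ℝ => p + s • v) := by fun_prop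
          have h4 := this.tendsto 0
          simpa using h4
        have h5 : ∀ᶠ q in 𝓝 p, φ (q, t) < 0 :=
          (cont_t F htT.2).continuousAt.eventually (Iio_mem_nhds hlt)
        filter_upwards [h3.eventually h5] with s hs
        rw [zero_smul, add_zero]
        exact hmaxle (p + s • v, t) htI hs.le le_rfl
      have h5 := h2.hasDerivAt_eq_zero h1
      rwa [zero_smul, add_zero] at h5
    rw [hf, grad_wt l hcd'] at hg0
    exact (smul_eq_zero.1 hg0).resolve_left (Real.exp_pos _).ne'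
  · -- maximum on the surface
    obtain ⟨⟨c, hc⟩, hpar⟩ := hmp T φ f F (p, t) ⟨htpos, htT.2⟩ heq
      ((cd_wt l hcd').of_le (WithTop.coe_le_coe.2 (le_top : (2 : ℕ∞) ≤ ⊤))) (by
        have h1 : ∀ᶠ Y : E × ℝ in 𝓝 (p, t), 0 < Y.2 :=
          continuous_snd.continuousAt.eventually (Ioi_mem_nhds htpos)
        filter_upwards [h1] with Y hY1 hY2 hY3
        exact hmaxle Y ⟨hY1.le, hY3.trans htI.2⟩ hY2.le hY3)
    rw [hf, grad_wt l hcd'] at hc
    have hgφ : grad φ (p, t) ≠ 0 := F.regular t htT p heq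
    -- the normals agree up to sign
    obtain ⟨σ, hσ, hσν⟩ : ∃ σ : ℝ, σ * σ = 1 ∧ nu φ' (p, t) = σ • nu φ (p, t) := by
      set e := Real.exp (-l * ((p, t) : E × ℝ).2) with he
      have he0 : 0 < e := Real.exp_pos _
      have h1 : grad φ' (p, t) = (c / e) • grad φ (p, t) := by
        rw [div_eq_inv_mul, mul_smul, ← hc, smul_smul, inv_mul_cancel₀ he0.ne', one_smul]
      have hce : c / e ≠ 0 := by
        intro h
        rw [h, zero_smul] at h1
        exact hg h1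
      refine ⟨(c / e) / |c / e|, ?_, ?_⟩
      · rw [div_mul_div_comm, abs_mul_abs_self, div_self (mul_self_ne_zero.2 hce)]
      · have hgn : ‖grad φ (p, t)‖ ≠ 0 := norm_ne_zero_iff.2 hgφ
        rw [nu, nu, h1, norm_smul, Real.norm_eq_abs, smul_smul, smul_smul, mul_inv]
        congr 1
        field_simp
    have hh : hess φ' (p, t) (nu φ (p, t)) (nu φ (p, t)) =
        hess φ' (p, t) (nu φ' (p, t)) (nu φ' (p, t)) := by
      rw [hσν, hess_smul, hσ, one_mul]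
    rw [hf, dt_wt l hcd', lap_wt l hcd', hess_wt l hcd', hh] at hpar
    have h2 : Real.exp (-l * ((p, t) : E × ℝ).2) * (dt φ' (p, t) - l * φ' (p, t)) -
        (Real.exp (-l * ((p, t) : E × ℝ).2) * lap φ' (p, t) -
          Real.exp (-l * ((p, t) : E × ℝ).2) *
            hess φ' (p, t) (nu φ' (p, t)) (nu φ' (p, t))) =
        Real.exp (-l * ((p, t) : E × ℝ).2) * (Q φ' (p, t) - l * φ' (p, t)) := by
      unfold Q; ring
    rw [h2] at hpar
    have h3 := nonneg_of_mul_nonneg_right hpar (Real.exp_pos _)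
    rw [hl] at h3
    nlinarith

/-- inclusion of the domains is preserved -/
theorem mono (hmp : MaxPrinciple) {φ' : E × ℝ → ℝ} (F : Flow T φ) (F' : Flow T φ')
    (h0 : ∀ p, φ (p, 0) < 0 → φ' (p, 0) < 0) :
    ∀ t ∈ Ico 0 T, ∀ p, φ (p, t) < 0 → φ' (p, t) < 0 := by
  intro t ht p hp
  refine lt_of_near F' ht ?_
  have h1 : ∀ᶠ q in 𝓝 p, φ (q, t) < 0 :=
    (cont_t F ht.2).continuousAt.eventually (Iio_mem_nhds hp)
  filter_upwards [h1] with q hq
  exact comparison hmp F F' h0 ht t ⟨ht.1, le_rfl⟩ q hq.le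

/-! ### The reflected flow -/

section reflected

variable {α : E}

/-- the reflection as a continuous linear map of space-time -/
noncomputable def LL (α : E) : (E × ℝ) →L[ℝ] (E × ℝ) :=
  (ContinuousLinearMap.id ℝ E - (2 : ℝ) • (innerSL ℝ α).smulRight α).prodMap
    (ContinuousLinearMap.id ℝ ℝ)

lemma LL_apply (p : E) (t : ℝ) : LL α (p, t) = (refl α p, t) := by
  simp [LL, refl, smul_smul]

/-- the reflected function -/
noncomputable def rf (α : E) (φ : E × ℝ → ℝ) (Y : E × ℝ) : ℝ := φ (LL α Y)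

lemma rf_apply (p : E) (t : ℝ) : rf α φ (p, t) = φ (refl α p, t) := by
  rw [rf, LL_apply]

lemma fderiv_rf {Y : E × ℝ} (h : DifferentiableAt ℝ φ (LL α Y)) :
    fderiv ℝ (rf α φ) Y = (fderiv ℝ φ (LL α Y)).comp (LL α) := by
  have h1 : HasFDerivAt (rf α φ) ((fderiv ℝ φ (LL α Y)).comp (LL α)) Y :=
    h.hasFDerivAt.comp Y (LL α).hasFDerivAt
  exact h1.fderiv

lemma dx_rf {p : E} {t : ℝ} (h : DifferentiableAt ℝ φ (refl α p, t)) (v : E) :
    dx (rf α φ) v (p, t) = dx φ (refl α v) (refl α p, t) := by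
  unfold dx
  rw [fderiv_rf (by rwa [LL_apply]), ContinuousLinearMap.comp_apply, LL_apply, LL_apply]

lemma dt_rf {p : E} {t : ℝ} (h : DifferentiableAt ℝ φ (refl α p, t)) :
    dt (rf α φ) (p, t) = dt φ (refl α p, t) := by
  unfold dt
  rw [fderiv_rf (by rwa [LL_apply]), ContinuousLinearMap.comp_apply, LL_apply, LL_apply]
  have : refl α 0 = 0 := by simp [refl]
  rw [this]

lemma cd_rf {p : E} {t : ℝ} (h : ContDiffAt ℝ ∞ φ (refl α p, t)) :
    ContDiffAt ℝ ∞ (rf α φ) (p, t) := by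
  have h1 : ContDiffAt ℝ ∞ φ (LL α (p, t)) := by rwa [LL_apply]
  exact h1.comp (p, t) (LL α).contDiff.contDiffAt

lemma hess_rf {p : E} {t : ℝ} (h : ContDiffAt ℝ ∞ φ (refl α p, t)) (v w : E) :
    hess (rf α φ) (p, t) v w = hess φ (refl α p, t) (refl α v) (refl α w) := by
  rw [hess_eq (cd_rf h), hess_eq h]
  have h1 : ∀ᶠ Y in 𝓝 ((p, t) : E × ℝ), dx (rf α φ) w Y = rf α (dx φ (refl α w)) Y := by
    have h2 : ∀ᶠ Z in 𝓝 ((refl α p, t) : E × ℝ), ContDiffAt ℝ 1 φ Z :=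
      (h.of_le (by norm_num : (1 : WithTop ℕ∞) ≤ ∞)).eventually (by simp)
    have h3 : Tendsto (LL α) (𝓝 ((p, t) : E × ℝ)) (𝓝 ((refl α p, t) : E × ℝ)) := by
      have := (LL α).continuous.tendsto ((p, t) : E × ℝ)
      rwa [LL_apply] at this
    filter_upwards [h3.eventually h2] with Y hY
    obtain ⟨q, s⟩ := Y
    rw [LL_apply] at hY
    rw [dx_rf (hY.differentiableAt (by simp)), rf_apply]
  rw [Filter.EventuallyEq.fderiv_eq h1]
  exact dx_rf ((cd_dx h _).differentiableAt (by simp)) v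

lemma inner_refl_left (hα : ‖α‖ = 1) (v w : E) : ⟪refl α v, w⟫_ℝ = ⟪v, refl α w⟫_ℝ := by
  conv_lhs => rw [← refl_refl hα w]
  rw [inner_refl hα]

lemma grad_rf (hα : ‖α‖ = 1) {p : E} {t : ℝ} (h : DifferentiableAt ℝ φ (refl α p, t)) :
    grad (rf α φ) (p, t) = refl α (grad φ (refl α p, t)) := by
  refine ext_inner_right ℝ fun v => ?_
  rw [inner_grad, dx_rf h, ← inner_grad, inner_refl_left hα]

lemma nu_rf (hα : ‖α‖ = 1) {p : E} {t : ℝ} (h : DifferentiableAt ℝ φ (refl α p, t)) :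
    nu (rf α φ) (p, t) = refl α (nu φ (refl α p, t)) := by
  rw [nu, nu, grad_rf hα h, norm_refl hα, refl_smul]

lemma hess_add_left (φ : E × ℝ → ℝ) (X : E × ℝ) (v v' w : E) :
    hess φ X (v + v') w = hess φ X v w + hess φ X v' w := by
  unfold hess
  have h1 : ((v + v', 0) : E × ℝ) = (v, 0) + (v', 0) := by simp
  rw [h1, map_add]; rfl

lemma hess_add_right (φ : E × ℝ → ℝ) (X : E × ℝ) (v w w' : E) :
    hess φ X v (w + w') = hess φ X v w + hess φ X v w' := by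
  unfold hess
  have h1 : ((w + w', 0) : E × ℝ) = (w, 0) + (w', 0) := by simp
  rw [h1, map_add]

lemma lap_refl (hα : ‖α‖ = 1) (φ : E × ℝ → ℝ) (X : E × ℝ) :
    ∑ i, hess φ X (refl α (ee i)) (refl α (ee i)) = lap φ X := by
  have h1 : ⟪α, α⟫_ℝ = 1 := by rw [real_inner_self_eq_norm_sq, hα]; norm_num
  have h2 : α 0 ^ 2 + α 1 ^ 2 + α 2 ^ 2 = 1 := by
    have h3 : ⟪α, α⟫_ℝ = ∑ i, α i * α i := by
      conv_lhs => rw [← sum_ee α]
      rw [sum_inner]
      refine Finset.sum_congr rfl fun i _ => ?_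
      rw [real_inner_smul_left, sum_ee, inner_ee]
    rw [h3, Fin.sum_univ_three] at h1
    linarith
  have hexp : ∀ v w : E, ∀ a : ℝ, hess φ X (v + a • w) (v + a • w) =
      hess φ X v v + a * hess φ X v w + a * hess φ X w v + a * a * hess φ X w w := by
    intro v w a
    rw [hess_add_left, hess_add_right, hess_add_right]
    have e1 := hess_smul φ X 1 a v w
    have e2 := hess_smul φ X a 1 w v
    have e3 := hess_smul φ X a a w w
    rw [one_smul, one_mul] at e1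
    rw [one_smul, mul_one] at e2
    rw [e1, e2, e3]; ring
  have hr : ∀ i, refl α (ee i) = ee i + (-2 * α i) • α := by
    intro i
    unfold refl
    rw [real_inner_comm, inner_ee]
    module
  have hs1 : ∀ w : E, hess φ X α w = α 0 * hess φ X (ee 0) w + α 1 * hess φ X (ee 1) w +
      α 2 * hess φ X (ee 2) w := by
    intro w
    conv_lhs => rw [← sum_ee α, Fin.sum_univ_three]
    rw [hess_add_left, hess_add_left]
    have e := fun i : Fin 3 => hess_smul φ X (α i) 1 (ee i) w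
    simp only [one_smul, mul_one] at e
    rw [e 0, e 1, e 2]
  have hs2 : ∀ w : E, hess φ X w α = α 0 * hess φ X w (ee 0) + α 1 * hess φ X w (ee 1) +
      α 2 * hess φ X w (ee 2) := by
    intro w
    conv_lhs => rw [← sum_ee α, Fin.sum_univ_three]
    rw [hess_add_right, hess_add_right]
    have e := fun i : Fin 3 => hess_smul φ X 1 (α i) w (ee i)
    simp only [one_smul, one_mul] at e
    rw [e 0, e 1, e 2]
  have hA := hs1 α
  have hB := hs2 α
  rw [lap, Fin.sum_univ_three, Fin.sum_univ_three, hr, hr, hr, hexp, hexp, hexp]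
  have h3 : hess φ X α α * (α 0 ^ 2 + α 1 ^ 2 + α 2 ^ 2) = hess φ X α α := by rw [h2, mul_one]
  linear_combination (2:ℝ) * hA + (2:ℝ) * hB + (4:ℝ) * h3

/-- the reflected flow -/
lemma reflected (F : Flow T φ) (hα : ‖α‖ = 1) : Flow T (rf α φ) where
  smooth := by
    have h1 : ContDiffOn ℝ ∞ (fun Y => φ (LL α Y)) (univ ×ˢ Iio T) := by
      refine F.smooth.comp (LL α).contDiff.contDiffOn ?_
      rintro ⟨q, s⟩ hq
      rw [LL_apply]
      exact ⟨trivial, hq.2⟩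
    exact h1
  bounded := by
    intro t₁ ht₁
    obtain ⟨R, hR⟩ := F.bounded t₁ ht₁
    refine ⟨R, fun t ht p hp => ?_⟩
    rw [rf_apply] at hp
    have := hR t ht _ hp
    rwa [norm_refl hα] at this
  regular := by
    intro t ht p hp h0
    rw [rf_apply] at hp
    have hd : DifferentiableAt ℝ φ (refl α p, t) := da F ht.2
    rw [grad_rf hα hd] at h0
    apply F.regular t ht _ hp
    rw [← norm_eq_zero, ← norm_refl hα, h0, norm_zero]
  moves := by
    intro t ht p hp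
    rw [rf_apply] at hp
    have hd : DifferentiableAt ℝ φ (refl α p, t) := da F ht.2
    have hc : ContDiffAt ℝ ∞ φ (refl α p, t) := cd F ht.2
    rw [dt_rf hd, hess_rf hc, nu_rf hα hd, refl_refl hα]
    have h1 : lap (rf α φ) (p, t) = lap φ (refl α p, t) := by
      rw [← lap_refl hα φ (refl α p, t)]
      unfold lap
      exact Finset.sum_congr rfl fun i _ => hess_rf hc _ _
    rw [h1]
    exact F.moves t ht _ hp

/-- symmetry is preserved -/
theorem sym_of (hmp : MaxPrinciple) (F : Flow T φ) (hα : ‖α‖ = 1) (h0 : Sym φ α 0) :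
    ∀ t ∈ Ico 0 T, Sym φ α t := by
  intro t ht p hp
  have h1 := mono hmp F (reflected F hα) (fun q hq => by
    rw [rf_apply]; exact h0 q hq) t ht p hp
  rwa [rf_apply] at h1

end reflected

end Geo

end Pool.Agent.MCFM
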